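import Pool.Agent.R60.SC.Stm

/-! # Project SC: piece EX -/

set_option autoImplicit false

namespace Pool.Agent.R60.SC

theorem ex_main : MidStm → LnStm → LnEStm → ExStm := by
  intro hMid hLn hE ι _ _ B hB
  obtain ⟨l1, l2, l3⟩ := hLn ι B
  -- locality
  have loc : ∀ (n : ι → ℕ) (g g' : TS B), n ≠ 0 → g 0 = 1 → g' 0 = 1 → Below n g g' →
      Ln n (mid (fn B n) g) - g n = Ln n (mid (fn B n) g') - g' n := by
    intro n g g' hn0 h0 h0' hbel
    obtain ⟨m1, m2, m3, m4, m5, m6, m7, m8, m9⟩ := hMid ι B (fn B n)
    obtain ⟨b1, b2⟩ := m8 g g' h0 h0' n hbel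
    have b3 := b2 (by rw [ev_fn, frm_self hB])
    have b4 := l2 _ _ n hn0 (m1 g h0).1.1 (m1 g' h0').1.1 b1
    linarith
  refine ⟨?_, ?_, ?_⟩
  · let hat : ((ι → ℕ) → ℚ) → TS B := fun c => ⟨fun a => if a = 0 then 1 else c a⟩
    have hat0 : ∀ c, (hat c) 0 = 1 := fun c => if_pos rfl
    have hatn : ∀ c a, a ≠ 0 → (hat c) a = c a := fun c a ha => if_neg ha
    obtain ⟨c, hc, -⟩ := fix_exists (fun c n => if n = 0 then (1 : ℚ) else
      rho n - (Ln n (mid (fn B n) (hat c)) - (hat c) n)) (by
        intro c c' n hcc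
        by_cases hn : n = 0
        · simp only [hn, if_true]
        · simp only [if_neg hn]
          rw [loc n (hat c) (hat c') hn (hat0 c) (hat0 c') (by
            intro a ha
            by_cases h0 : a = 0
            · rw [h0, hat0, hat0]
            · rw [hatn _ _ h0, hatn _ _ h0, hcc a ha])])
    refine ⟨hat c, hat0 c, fun n hn => ?_⟩
    have h1 := hc n
    simp only [if_neg hn] at h1
    rw [hatn c n hn] at h1
    linarith
  · rintro g g' ⟨h0, h1⟩ ⟨h0', h1'⟩
    apply TS.ext'
    have wf : WellFounded ((· < ·) : (ι → ℕ) → (ι → ℕ) → Prop) := wellFounded_lt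
    intro n
    induction n using wf.induction with
    | _ n ih =>
      by_cases hn : n = 0
      · rw [hn, h0, h0']
      · have h2 := loc n g g' hn h0 h0' ih
        rw [h1 n hn, h1' n hn] at h2
        linarith
  · rintro g ⟨h0, h1⟩ i
    have hn : (Pi.single i 1 : ι → ℕ) ≠ 0 := by
      intro h
      have := congrFun h i
      simp at this
    have hbel : Below (Pi.single i 1) g (1 : TS B) := by
      intro a ha
      have ha0 : a = 0 := by
        obtain ⟨hle, j, hj⟩ := Pi.lt_def.1 ha
        have hji : j = i := by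
          by_contra hne
          rw [Pi.single_eq_of_ne hne] at hj
          omega
        rw [hji, Pi.single_eq_same] at hj
        funext l
        have h2 := hle l
        by_cases hl : l = i
        · rw [hl]
          simp only [Pi.zero_apply]
          omega
        · rw [Pi.single_eq_of_ne hl] at h2
          exact Nat.le_zero.1 h2
      rw [ha0, h0, one_apply_zero]
    have h2 := loc (Pi.single i 1) g 1 hn h0 one_apply_zero hbel
    obtain ⟨m1, m2, m3, m4, m5, m6, m7, m8, m9⟩ := hMid ι B (fn B (Pi.single i 1))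
    have hmid1 : mid (fn B (Pi.single i 1)) (1 : TS B) = 1 := by
      refine m2 1 _ _ (m1 1 one_apply_zero) ⟨⟨one_apply_zero, ?_⟩, 1, 1, ⟨one_apply_zero, ?_⟩,
        ⟨one_apply_zero, ?_⟩, by simp⟩
      · intro a ha
        by_cases h : a = 0
        · rw [h, ev_zero]
        · exact absurd (one_apply_ne h) ha
      · intro a ha1 ha2
        exact absurd (one_apply_ne ha1) ha2
      · intro a ha1 ha2
        exact absurd (one_apply_ne ha1) ha2
    have hLn1 : Ln (Pi.single i 1) (1 : TS B) = 0 := by
      unfold Ln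
      refine Finset.sum_eq_zero fun j hj => ?_
      have hj1 : j ≠ 0 := by
        have := (Finset.mem_Icc.1 hj).1
        omega
      rw [sub_self, zero_pow hj1]
      simp
    rw [hmid1, hLn1, h1 _ hn, one_apply_ne hn] at h2
    have h3 : g (Pi.single i 1) = rho (Pi.single i 1) := by linarith
    have h4 : rho (Pi.single i 1 : ι → ℕ) = lc 1 := by
      unfold rho
      rw [if_pos ⟨i, by simp⟩]
      congr 1
      unfold deg
      simp
    rw [h3, h4]
    exact hE.2

end Pool.Agent.R60.SC
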