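import Pool.Agent.R60.SC.Stm

/-!
# Project SC, piece FAC: triangular factorisation (helper138)
-/

set_option autoImplicit false

namespace Pool.Agent.R60.SC

noncomputable section

set_option linter.unusedSectionVars false

variable {ι : Type} [Fintype ι] [DecidableEq ι] {B : ι → ι → ℤ}

/-- locality for three factors -/
theorem mul3_local {n : ι → ℕ} {u z w u' z' w' : TS B} (hu : u 0 = 1) (hz : z 0 = 1)
    (hw : w 0 = 1) (hu' : u' 0 = 1) (hz' : z' 0 = 1) (hw' : w' 0 = 1) (h1 : Below n u u')
    (h2 : Below n z z') (h3 : Below n w w') :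
    (u * z * w) n - (u n + z n + w n) = (u' * z' * w') n - (u' n + z' n + w' n) := by
  have e1 := mul_local hu hu' hz hz' h1 h2
  have e2 := mul_local (f := u * z) (f' := u' * z') (g := w) (g' := w') (by simp [hu, hz])
    (by simp [hu', hz']) hw hw' (h1.mul h2) h3
  linarith

/-- the part with positive values -/
def pU (B : ι → ι → ℤ) (m : ι → ℤ) (c : (ι → ℕ) → ℚ) : TS B :=
  ⟨fun a => if a = 0 then 1 else if 0 < ev m a then c a else 0⟩

/-- the part with value zero -/
def pZ (B : ι → ι → ℤ) (m : ι → ℤ) (c : (ι → ℕ) → ℚ) : TS B :=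
  ⟨fun a => if a = 0 then 1 else if ev m a = 0 then c a else 0⟩

/-- the part with negative values -/
def pW (B : ι → ι → ℤ) (m : ι → ℤ) (c : (ι → ℕ) → ℚ) : TS B :=
  ⟨fun a => if a = 0 then 1 else if ev m a < 0 then c a else 0⟩

theorem pU_zero (m : ι → ℤ) (c : (ι → ℕ) → ℚ) : pU B m c 0 = 1 := by
  change (if (0 : ι → ℕ) = 0 then (1 : ℚ) else _) = 1
  rw [if_pos rfl]

theorem pZ_zero (m : ι → ℤ) (c : (ι → ℕ) → ℚ) : pZ B m c 0 = 1 := by
  change (if (0 : ι → ℕ) = 0 then (1 : ℚ) else _) = 1
  rw [if_pos rfl]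

theorem pW_zero (m : ι → ℤ) (c : (ι → ℕ) → ℚ) : pW B m c 0 = 1 := by
  change (if (0 : ι → ℕ) = 0 then (1 : ℚ) else _) = 1
  rw [if_pos rfl]

theorem pU_ne (m : ι → ℤ) (c : (ι → ℕ) → ℚ) {a : ι → ℕ} (ha : a ≠ 0) :
    pU B m c a = if 0 < ev m a then c a else 0 := by
  change (if a = 0 then (1 : ℚ) else _) = _
  rw [if_neg ha]

theorem pZ_ne (m : ι → ℤ) (c : (ι → ℕ) → ℚ) {a : ι → ℕ} (ha : a ≠ 0) :
    pZ B m c a = if ev m a = 0 then c a else 0 := by
  change (if a = 0 then (1 : ℚ) else _) = _
  rw [if_neg ha]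

theorem pW_ne (m : ι → ℤ) (c : (ι → ℕ) → ℚ) {a : ι → ℕ} (ha : a ≠ 0) :
    pW B m c a = if ev m a < 0 then c a else 0 := by
  change (if a = 0 then (1 : ℚ) else _) = _
  rw [if_neg ha]

theorem p_sum (m : ι → ℤ) (c : (ι → ℕ) → ℚ) {a : ι → ℕ} (ha : a ≠ 0) :
    pU B m c a + pZ B m c a + pW B m c a = c a := by
  rw [pU_ne m c ha, pZ_ne m c ha, pW_ne m c ha]
  rcases lt_trichotomy (ev m a) 0 with h | h | h
  · rw [if_neg (by omega), if_neg (by omega), if_pos h]; ring
  · rw [if_neg (by omega), if_pos h, if_neg (by omega)]; ring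
  · rw [if_pos h, if_neg (by omega), if_neg (by omega)]; ring

theorem pU_below (m : ι → ℤ) {c c' : (ι → ℕ) → ℚ} {n : ι → ℕ} (h : ∀ a, a < n → c a = c' a) :
    Below n (pU B m c) (pU B m c') := by
  intro a ha
  by_cases h0 : a = 0
  · rw [h0, pU_zero, pU_zero]
  · rw [pU_ne m c h0, pU_ne m c' h0, h a ha]

theorem pZ_below (m : ι → ℤ) {c c' : (ι → ℕ) → ℚ} {n : ι → ℕ} (h : ∀ a, a < n → c a = c' a) :
    Below n (pZ B m c) (pZ B m c') := by
  intro a ha
  by_cases h0 : a = 0
  · rw [h0, pZ_zero, pZ_zero]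
  · rw [pZ_ne m c h0, pZ_ne m c' h0, h a ha]

theorem pW_below (m : ι → ℤ) {c c' : (ι → ℕ) → ℚ} {n : ι → ℕ} (h : ∀ a, a < n → c a = c' a) :
    Below n (pW B m c) (pW B m c') := by
  intro a ha
  by_cases h0 : a = 0
  · rw [h0, pW_zero, pW_zero]
  · rw [pW_ne m c h0, pW_ne m c' h0, h a ha]

theorem p_local (m : ι → ℤ) {c c' : (ι → ℕ) → ℚ} {n : ι → ℕ} (h : ∀ a, a < n → c a = c' a) :
    (pU B m c * pZ B m c * pW B m c) n - (pU B m c n + pZ B m c n + pW B m c n) =
      (pU B m c' * pZ B m c' * pW B m c') n - (pU B m c' n + pZ B m c' n + pW B m c' n) :=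
  mul3_local (pU_zero m c) (pZ_zero m c) (pW_zero m c) (pU_zero m c') (pZ_zero m c')
    (pW_zero m c') (pU_below m h) (pZ_below m h) (pW_below m h)

theorem p_supp (m : ι → ℤ) {c : (ι → ℕ) → ℚ} {S : AddSubmonoid (ι → ℕ)}
    (h : ∀ a, c a ≠ 0 → a ∈ S) :
    SuppIn S (pU B m c) ∧ SuppIn S (pZ B m c) ∧ SuppIn S (pW B m c) := by
  refine ⟨?_, ?_, ?_⟩
  · intro a ha
    by_cases h0 : a = 0
    · rw [h0]; exact S.zero_mem
    · rw [pU_ne m c h0] at ha
      apply h
      intro hc
      apply ha
      rw [hc]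
      simp
  · intro a ha
    by_cases h0 : a = 0
    · rw [h0]; exact S.zero_mem
    · rw [pZ_ne m c h0] at ha
      apply h
      intro hc
      apply ha
      rw [hc]
      simp
  · intro a ha
    by_cases h0 : a = 0
    · rw [h0]; exact S.zero_mem
    · rw [pW_ne m c h0] at ha
      apply h
      intro hc
      apply ha
      rw [hc]
      simp

theorem fac_exists (m : ι → ℤ) (g : TS B) (hg : g 0 = 1) :
    ∃ u z w : TS B, UP m u ∧ UZ m z ∧ UN m w ∧ g = u * z * w ∧
      ∀ S : AddSubmonoid (ι → ℕ), SuppIn S g → SuppIn S u ∧ SuppIn S z ∧ SuppIn S w := by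
  classical
  obtain ⟨c, hc, -⟩ := fix_exists (fun (c : (ι → ℕ) → ℚ) n => if n = 0 then 0 else
    g n - ((pU B m c * pZ B m c * pW B m c) n - (pU B m c n + pZ B m c n + pW B m c n)))
    (by
      intro c c' n h
      by_cases hn : n = 0
      · simp only [hn, if_true]
      · simp only [hn, if_false]
        rw [p_local m h])
  have hcn : ∀ n, n ≠ 0 → (pU B m c * pZ B m c * pW B m c) n = g n := by
    intro n hn
    have h1 := hc n
    simp only [hn, if_false] at h1
    rw [p_sum m c hn] at h1
    linarith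
  have hprod : g = pU B m c * pZ B m c * pW B m c := by
    ext n
    by_cases hn : n = 0
    · subst hn
      rw [mul_apply_zero, mul_apply_zero, pU_zero, pZ_zero, pW_zero, hg]
      norm_num
    · exact (hcn n hn).symm
  refine ⟨pU B m c, pZ B m c, pW B m c, ⟨pU_zero m c, ?_⟩, ⟨pZ_zero m c, ?_⟩, ⟨pW_zero m c, ?_⟩,
    hprod, ?_⟩
  · intro a ha h
    rw [pU_ne m c ha] at h
    by_contra hcon
    rw [if_neg hcon] at h
    exact h rfl
  · intro a h
    by_cases ha : a = 0
    · rw [ha, ev_zero]
    · rw [pZ_ne m c ha] at h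
      by_contra hcon
      rw [if_neg hcon] at h
      exact h rfl
  · intro a ha h
    rw [pW_ne m c ha] at h
    by_contra hcon
    rw [if_neg hcon] at h
    exact h rfl
  · intro S hS
    apply p_supp
    have wf : WellFounded ((· < ·) : (ι → ℕ) → (ι → ℕ) → Prop) := wellFounded_lt
    intro n
    induction n using wf.induction with
    | _ n ih =>
      intro hne
      by_contra hnS
      apply hne
      have hn : n ≠ 0 := by
        rintro rfl
        exact hnS S.zero_mem
      let c' : (ι → ℕ) → ℚ := fun a => if a ∈ S then c a else 0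
      have hc' : ∀ a, a < n → c a = c' a := by
        intro a ha
        by_cases h : a ∈ S
        · simp only [c', h, if_true]
        · simp only [c', h, if_false]
          by_contra h2
          exact h (ih a ha h2)
      have hS' : ∀ a, c' a ≠ 0 → a ∈ S := by
        intro a ha
        by_contra h
        apply ha
        simp only [c', h, if_false]
      obtain ⟨s1, s2, s3⟩ := p_supp (B := B) m hS'
      have h1 := p_local (B := B) m hc'
      have h2 : (pU B m c' * pZ B m c' * pW B m c') n = 0 := by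
        by_contra h
        exact hnS ((s1.mul s2).mul s3 n h)
      have h3 : (pU B m c * pZ B m c * pW B m c) n = 0 := by
        rw [← hprod]
        by_contra h
        exact hnS (hS n h)
      rw [h2, h3, p_sum m c hn, p_sum m c' hn] at h1
      have h4 : c' n = 0 := by
        by_contra h
        exact hnS (hS' n h)
      rw [h4] at h1
      linarith

theorem fac_main : FacStm := by
  intro ι _ _ B m
  refine ⟨fac_exists m, ?_⟩
  intro u z w u' z' w' hu hz hw hu' hz' hw' n hb
  have wf : WellFounded ((· < ·) : (ι → ℕ) → (ι → ℕ) → Prop) := wellFounded_lt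
  have key : ∀ a, a < n → u a = u' a ∧ z a = z' a ∧ w a = w' a := by
    intro a
    induction a using wf.induction with
    | _ a ih =>
      intro ha
      have h1 : Below a u u' := fun b hb => (ih b hb (hb.trans ha)).1
      have h2 : Below a z z' := fun b hb => (ih b hb (hb.trans ha)).2.1
      have h3 : Below a w w' := fun b hb => (ih b hb (hb.trans ha)).2.2
      have h4 := mul3_local hu.1 hz.1 hw.1 hu'.1 hz'.1 hw'.1 h1 h2 h3
      rw [hb a ha] at h4
      by_cases h0 : a = 0
      · rw [h0, hu.1, hz.1, hw.1, hu'.1, hz'.1, hw'.1]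
        exact ⟨rfl, rfl, rfl⟩
      · have nu : ∀ {x : TS B}, UP m x → ¬ 0 < ev m a → x a = 0 := by
          intro x hx hn
          by_contra h
          exact hn (hx.2 a h0 h)
        have nz : ∀ {x : TS B}, UZ m x → ¬ ev m a = 0 → x a = 0 := by
          intro x hx hn
          by_contra h
          exact hn (hx.2 a h)
        have nw : ∀ {x : TS B}, UN m x → ¬ ev m a < 0 → x a = 0 := by
          intro x hx hn
          by_contra h
          exact hn (hx.2 a h0 h)
        rcases lt_trichotomy (ev m a) 0 with h | h | h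
        · have e1 := nu hu (by omega)
          have e2 := nu hu' (by omega)
          have e3 := nz hz (by omega)
          have e4 := nz hz' (by omega)
          refine ⟨by rw [e1, e2], by rw [e3, e4], ?_⟩
          rw [e1, e2, e3, e4] at h4
          linarith
        · have e1 := nu hu (by omega)
          have e2 := nu hu' (by omega)
          have e3 := nw hw (by omega)
          have e4 := nw hw' (by omega)
          refine ⟨by rw [e1, e2], ?_, by rw [e3, e4]⟩
          rw [e1, e2, e3, e4] at h4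
          linarith
        · have e1 := nz hz (by omega)
          have e2 := nz hz' (by omega)
          have e3 := nw hw (by omega)
          have e4 := nw hw' (by omega)
          refine ⟨?_, by rw [e1, e2], by rw [e3, e4]⟩
          rw [e1, e2, e3, e4] at h4
          linarith
  have k1 : Below n u u' := fun a ha => (key a ha).1
  have k2 : Below n z z' := fun a ha => (key a ha).2.1
  have k3 : Below n w w' := fun a ha => (key a ha).2.2
  exact ⟨k1, k2, k3, mul3_local hu.1 hz.1 hw.1 hu'.1 hz'.1 hw'.1 k1 k2 k3⟩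

end

end Pool.Agent.R60.SC
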