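import Pool.Agent.R60.SC.Stm

/-!
# Project SC, piece FIN: no coordinate of the image of a positive vector vanishes
-/

set_option autoImplicit false

namespace Pool.Agent.R60.SC

noncomputable section

namespace FinAux

variable {ι : Type} [Fintype ι] [DecidableEq ι]

theorem ek_apply (B : ι → ι → ℤ) (k : ι) (n : ι → ℕ) :
    Ek B k n = if n = Pi.single k (n k) then eC (n k) else 0 := by
  show (if n = Pi.single k (n k) then PowerSeries.coeff (n k) eS else 0) = _
  rw [eS, PowerSeries.coeff_mk]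

theorem ek_zero (B : ι → ι → ℤ) (k : ι) : Ek B k 0 = 1 := by
  rw [ek_apply, if_pos]
  · rfl
  · simp

theorem ek_supp {B : ι → ι → ℤ} {k : ι} {n : ι → ℕ} (h : Ek B k n ≠ 0) :
    n = Pi.single k (n k) := by
  by_contra hcon
  rw [ek_apply, if_neg hcon] at h
  exact h rfl

theorem ek_ev {B : ι → ι → ℤ} {k : ι} {n : ι → ℕ} (h : Ek B k n ≠ 0) (m : ι → ℤ) :
    ev m n = m k * (n k : ℤ) := by
  have h1 := ek_supp h
  rw [h1, ev_single]
  simp

theorem ek_pos {B : ι → ι → ℤ} {k : ι} {n : ι → ℕ} (hn : n ≠ 0) (h : Ek B k n ≠ 0) :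
    0 < n k := by
  have h1 := ek_supp h
  rcases Nat.eq_zero_or_pos (n k) with h0 | h0
  · exfalso
    apply hn
    rw [h1, h0]
    simp
  · exact h0

theorem ek_UP (B : ι → ι → ℤ) (k : ι) (m : ι → ℤ) (hm : 0 < m k) : UP m (Ek B k) := by
  refine ⟨ek_zero B k, fun a ha h => ?_⟩
  rw [ek_ev h]
  have := ek_pos ha h
  positivity

theorem ek_UN (B : ι → ι → ℤ) (k : ι) (m : ι → ℤ) (hm : m k < 0) : UN m (Ek B k) := by
  refine ⟨ek_zero B k, fun a ha h => ?_⟩
  rw [ek_ev h]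
  have h1 := ek_pos ha h
  have h2 : (0 : ℤ) < (a k : ℤ) := by exact_mod_cast h1
  nlinarith

theorem ek_UZ (B : ι → ι → ℤ) (k : ι) (m : ι → ℤ) (hm : m k = 0) : UZ m (Ek B k) := by
  refine ⟨ek_zero B k, fun a h => ?_⟩
  rw [ek_ev h, hm, zero_mul]

omit [Fintype ι] in
theorem skew_mut {B : ι → ι → ℤ} (hB : Skew B) (k : ι) : Skew (mutB k B) := by
  intro i j
  unfold mutB
  have h1 := hB i j
  have h2 := hB j k
  have h3 := hB k i
  by_cases h : i = k ∨ j = k
  · rw [if_pos h, if_pos h.symm, h1]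
  · rw [if_neg h, if_neg (fun h' => h h'.symm), h1, h2, h3]
    have e1 : - - B i k = B i k := neg_neg _
    have e2 : - - B k j = B k j := neg_neg _
    rw [e1, e2]
    ring

theorem mid_one (hMid : MidStm) (B : ι → ι → ℤ) (m : ι → ℤ) : mid m (1 : TS B) = 1 := by
  obtain ⟨h1, h2, _⟩ := hMid ι B m
  have hUZ : UZ m (1 : TS B) := by
    refine ⟨one_apply_zero, fun a ha => ?_⟩
    by_cases h0 : a = 0
    · rw [h0, ev_zero]
    · exact absurd (one_apply_ne h0) ha
  have hUP : UP m (1 : TS B) := ⟨one_apply_zero, fun a h0 ha => absurd (one_apply_ne h0) ha⟩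
  have hUN : UN m (1 : TS B) := ⟨one_apply_zero, fun a h0 ha => absurd (one_apply_ne h0) ha⟩
  have h3 : IsMid m (1 : TS B) 1 := ⟨hUZ, 1, 1, hUP, hUN, by simp⟩
  exact h2 1 _ _ (h1 1 one_apply_zero) h3

/-- the middle factor of the consistent element is trivial -/
def Good (B : ι → ι → ℤ) (m : ι → ℤ) : Prop := ∀ g : TS B, IC g → mid m g = 1

theorem good_ne (hMid : MidStm) (hEx : ExStm) {B : ι → ι → ℤ} (hB : Skew B) {m : ι → ℤ}
    (hG : Good B m) (i : ι) : m i ≠ 0 := by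
  intro hmi
  obtain ⟨⟨g, hg⟩, _, hne⟩ := hEx ι B hB
  obtain ⟨_, _, _, _, _, _, _, h8, _⟩ := hMid ι B m
  have hn0 : (Pi.single i 1 : ι → ℕ) ≠ 0 := by
    intro h
    have := congrFun h i
    simp at this
  have hbelow : Below (Pi.single i 1 : ι → ℕ) g 1 := by
    intro a ha
    have ha0 : a = 0 := by
      have h1 := deg_lt ha
      have h2 : deg (Pi.single i 1 : ι → ℕ) = 1 := by
        unfold deg
        rw [Finset.sum_pi_single']
        simp
      rw [← deg_eq_zero]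
      omega
    rw [ha0, hg.1, one_apply_zero]
  have h1 := (h8 g 1 hg.1 one_apply_zero _ hbelow).2 (by rw [ev_single, hmi, zero_mul])
  rw [hG g hg, mid_one hMid, one_apply_ne hn0] at h1
  apply hne g hg i
  linarith

theorem good_mut (hMid : MidStm) (hEx : ExStm) (hInv : InvStm) (hTr : TrStm) (hSg : SgStm)
    (h1 : Step1Stm) (h2 : Step2Stm) {B : ι → ι → ℤ} (hB : Skew B) {m : ι → ℤ}
    (hG : Good B m) (k : ι) : Good (mutB k B) (mutR k B m) := by
  intro g' hg'
  have hB' := skew_mut hB k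
  obtain ⟨⟨g, hg⟩, _, _⟩ := hEx ι B hB
  obtain ⟨E', hE0, hE1, hE2, _⟩ := hInv ι B (Ek B k) (ek_zero B k)
  obtain ⟨h, hh⟩ : ∃ h, h = E' * g := ⟨_, rfl⟩
  obtain ⟨ht, hht⟩ : ∃ ht, ht = g * E' := ⟨_, rfl⟩
  have hEh : Ek B k * h = g := by rw [hh, ← mul_assoc, hE1, one_mul]
  have hEht : ht * Ek B k = g := by rw [hht, mul_assoc, hE2, mul_one]
  have hh0 : h 0 = 1 := by rw [hh, mul_apply_zero, hE0, hg.1, one_mul]
  have hht0 : ht 0 = 1 := by rw [hht, mul_apply_zero, hE0, hg.1, one_mul]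
  obtain ⟨s1, s2⟩ := h1 ι B hB k g h ht hg hEh hEht
  have hS1 : SuppIn (Sp B k) h := fun a ha => s1 a ha
  have hS2 : SuppIn (Sm B k) ht := fun a ha => s2 a ha
  obtain ⟨t1, t2⟩ := h2 ι B hB k g h ht hg hEh hEht
  have hgg : g' = push (mutB k B) (Sp B k) (sgp B k) h * Ek (mutB k B) k :=
    (hEx ι (mutB k B) hB').2.1 g' _ hg' t2
  obtain ⟨g1, g2, _, _, g5, g6, _⟩ := hSg ι B hB k
  have hmk : mutR k B m k = - m k := by
    unfold mutR
    rw [if_pos rfl]
  obtain ⟨_, _, m3, m4, _⟩ := hMid ι B m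
  obtain ⟨_, _, m3', m4', _⟩ := hMid ι (mutB k B) (mutR k B m)
  rcases lt_trichotomy (m k) 0 with hneg | hz | hpos
  · obtain ⟨_, p2, p3, p4, _⟩ := hTr ι B (mutB k B) (Sm B k) (sgm B k) g2
    have e1 : mid m ht = 1 := by
      rw [← m4 (Ek B k) ht (ek_UN B k m hneg) hht0, hEht]
      exact hG g hg
    have e2 : mid (mutR k B m) (push (mutB k B) (Sm B k) (sgm B k) ht) = 1 := by
      rw [p4 m (mutR k B m) (g6 m hneg.le) ht hht0 hS2, e1, p2]
    rw [hgg, ← t1, m3' _ _ (ek_UP (mutB k B) k _ (by rw [hmk]; omega)) (p3 ht hht0).1, e2]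
  · exact absurd hz (good_ne hMid hEx hB hG k)
  · obtain ⟨_, p2, p3, p4, _⟩ := hTr ι B (mutB k B) (Sp B k) (sgp B k) g1
    have e1 : mid m h = 1 := by
      rw [← m3 (Ek B k) h (ek_UP B k m hpos) hh0, hEh]
      exact hG g hg
    have e2 : mid (mutR k B m) (push (mutB k B) (Sp B k) (sgp B k) h) = 1 := by
      rw [p4 m (mutR k B m) (g5 m hpos.le) h hh0 hS1, e1, p2]
    rw [hgg, m4' _ _ (ek_UN (mutB k B) k _ (by rw [hmk]; omega)) (p3 h hh0).1, e2]

end FinAux

open FinAux in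
theorem fin_main : MidStm → ExStm → InvStm → TrStm → SgStm → Step1Stm → Step2Stm → FinStm := by
  intro hMid hEx hInv hTr hSg h1 h2 ι _ _ B hB w m hm
  have key : ∀ (w : List ι) (B : ι → ι → ℤ) (m : ι → ℤ), Skew B → Good B m →
      ∀ i, runR w B m i ≠ 0 := by
    intro w
    induction w with
    | nil =>
      intro B m hB hG i
      exact good_ne hMid hEx hB hG i
    | cons k w ih =>
      intro B m hB hG i
      exact ih (mutB k B) (mutR k B m) (skew_mut hB k)
        (good_mut hMid hEx hInv hTr hSg h1 h2 hB hG k) i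
  refine key w B m hB ?_
  intro g hg
  obtain ⟨_, _, _, _, _, _, _, _, h9⟩ := hMid ι B m
  exact h9 hm g hg.1

end

end Pool.Agent.R60.SC
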