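import Pool.Agent.R60.SC.Stm

/-! # Project SC: piece IND -/

set_option autoImplicit false

namespace Pool.Agent.R60.SC

open Classical in
theorem ind_main : MidStm → LnStm → IndStm := by
  intro hMid hLn ι _ _ B hB h S n h0 hn hbel
  obtain ⟨m1, m2, m3, m4, m5, m6, m7, m8, m9⟩ := hMid ι B (fn B n)
  obtain ⟨l1, l2, l3⟩ := hLn ι B
  have hn0 : n ≠ 0 := by
    rintro rfl
    exact hn S.zero_mem
  let h' : TS B := ⟨fun a => if a ∈ S then h a else 0⟩
  have hh' : ∀ a, h' a = if a ∈ S then h a else 0 := fun a => rfl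
  have h'0 : h' 0 = 1 := by rw [hh', if_pos S.zero_mem, h0]
  have hS : SuppIn S h' := by
    intro a ha
    by_contra hc
    exact ha (by rw [hh', if_neg hc])
  have hB' : Below n h h' := by
    intro a ha
    rw [hh']
    by_cases hc : a ∈ S
    · rw [if_pos hc]
    · rw [if_neg hc]
      by_contra hne
      exact hc (hbel a ha hne)
  obtain ⟨b1, b2⟩ := m8 h h' h0 h'0 n hB'
  have hev : ev (fn B n) n = 0 := by rw [ev_fn, frm_self hB]
  have b3 := b2 hev
  have hSm := m7 h' h'0 S hS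
  have z1 : (mid (fn B n) h') n = 0 := by
    by_contra hc
    exact hn (hSm n hc)
  have z2 : h' n = 0 := by rw [hh', if_neg hn]
  have f1 : (mid (fn B n) h) 0 = 1 := (m1 h h0).1.1
  have f2 : (mid (fn B n) h') 0 = 1 := (m1 h' h'0).1.1
  have z3 := l1 (mid (fn B n) h') S n f2 hSm hn
  have z4 := l2 _ _ n hn0 f1 f2 b1
  rw [z1, z2] at b3
  rw [z3, z1] at z4
  linarith

end Pool.Agent.R60.SC
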