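import Pool.Agent.R60.SC.Stm

/-!
# Project SC, piece INV: inverses of unipotent series (helper138)
-/

set_option autoImplicit false

namespace Pool.Agent.R60.SC

noncomputable section

set_option linter.unusedSectionVars false

variable {ι : Type} [Fintype ι] [DecidableEq ι] {B : ι → ι → ℤ}

theorem adj_lt {a b n : ι → ℕ} (h : a + b = n) (ha : a ≠ 0) : b < n := by
  refine lt_of_le_of_ne ?_ ?_
  · rw [← h]
    intro i
    simp
  · rintro rfl
    apply ha
    funext i
    have := congrFun h i
    simp only [Pi.add_apply, Pi.zero_apply] at this ⊢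
    omega

/-- a right inverse with the support condition -/
theorem right_inv (f : TS B) (hf : f 0 = 1) : ∃ g : TS B, g 0 = 1 ∧ f * g = 1 ∧
    ∀ S : AddSubmonoid (ι → ℕ), SuppIn S f → SuppIn S g := by
  obtain ⟨c, hc, -⟩ := fix_exists (fun (c : (ι → ℕ) → ℚ) n => if n = 0 then 1 else
    -(∑ p ∈ (adj n).filter (fun p => p.1 ≠ 0), (2 : ℚ) ^ (frm B p.1 p.2) * (f p.1 * c p.2)))
    (by
      intro c c' n h
      by_cases hn : n = 0
      · simp only [hn, if_true]
      · simp only [hn, if_false]
        congr 1
        refine Finset.sum_congr rfl fun p hp => ?_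
        rw [Finset.mem_filter, mem_adj] at hp
        rw [h p.2 (adj_lt hp.1 hp.2)])
  have hc0 : c 0 = 1 := by
    have := hc 0
    simpa using this
  have hcn : ∀ n, n ≠ 0 → c n = -(∑ p ∈ (adj n).filter (fun p => p.1 ≠ 0),
      (2 : ℚ) ^ (frm B p.1 p.2) * (f p.1 * c p.2)) := by
    intro n hn
    have := hc n
    simpa only [hn, if_false] using this
  refine ⟨⟨c⟩, hc0, ?_, ?_⟩
  · ext n
    by_cases hn : n = 0
    · subst hn
      rw [mul_apply_zero, hf, one_apply_zero, one_mul]
      exact hc0
    · rw [one_apply_ne hn, mul_apply,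
        ← Finset.sum_filter_add_sum_filter_not (adj n) (fun p => p.1 ≠ 0)]
      have h1 : ∑ p ∈ (adj n).filter (fun p => ¬ p.1 ≠ 0),
          (2 : ℚ) ^ (frm B p.1 p.2) * (f p.1 * (⟨c⟩ : TS B) p.2) = c n := by
        rw [Finset.sum_eq_single (0, n)]
        · simp [hf]
        · rintro ⟨a, b⟩ h hne
          rw [Finset.mem_filter, mem_adj] at h
          exfalso
          apply hne
          have ha : a = 0 := by simpa using h.2
          rw [ha] at h ⊢
          have := h.1
          simp only [zero_add] at this
          rw [this]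
        · intro h
          simp at h
      rw [h1, hcn n hn]
      change ∑ p ∈ (adj n).filter (fun p => p.1 ≠ 0),
        (2 : ℚ) ^ (frm B p.1 p.2) * (f p.1 * c p.2) + _ = 0
      ring
  · intro S hS
    have wf : WellFounded ((· < ·) : (ι → ℕ) → (ι → ℕ) → Prop) := wellFounded_lt
    intro n
    change c n ≠ 0 → n ∈ S
    induction n using wf.induction with
    | _ n ih =>
      intro hne
      by_cases hn : n = 0
      · rw [hn]
        exact S.zero_mem
      · rw [hcn n hn, neg_ne_zero] at hne
        obtain ⟨⟨a, b⟩, hp, h⟩ := Finset.exists_ne_zero_of_sum_ne_zero hne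
        rw [Finset.mem_filter, mem_adj] at hp
        have hb := adj_lt hp.1 hp.2
        rw [← hp.1]
        refine S.add_mem (hS a ?_) (ih b hb ?_)
        · intro h0
          apply h
          simp [h0]
        · intro h0
          apply h
          simp [h0]

theorem inv_main : InvStm := by
  intro ι _ _ B f hf
  obtain ⟨g, hg0, hfg, hS⟩ := right_inv f hf
  obtain ⟨k, hk0, hgk, -⟩ := right_inv g hg0
  have : f = k := by
    calc f = f * (g * k) := by rw [hgk, mul_one]
      _ = k := by rw [← mul_assoc, hfg, one_mul]
  refine ⟨g, hg0, hfg, ?_, hS⟩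
  rw [this]
  exact hgk

end

end Pool.Agent.R60.SC
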