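import Pool.Agent.R60.SC.Comb

/-!
# Project SC, piece J: sign coherence from `NoZero`
-/

namespace Pool.Agent.R60.SC

namespace PieceJ

section J
variable {ι : Type} [DecidableEq ι]

theorem runB_append (w : List ι) (k : ι) (B : ι → ι → ℤ) :
    runB (w ++ [k]) B = mutB k (runB w B) := by
  induction w generalizing B with
  | nil => rfl
  | cons a w ih => exact ih (mutB a B)

theorem runR_append (w : List ι) (k : ι) (B : ι → ι → ℤ) (r : ι → ℤ) :
    runR (w ++ [k]) B r = mutR k (runB w B) (runR w B r) := by
  induction w generalizing B r with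
  | nil => rfl
  | cons a w ih => exact ih (mutB a B) (mutR a B r)

theorem mutR_mutR (k : ι) (B : ι → ι → ℤ) (r : ι → ℤ) :
    mutR k (mutB k B) (mutR k B r) = r := by
  funext i
  unfold mutR mutB
  by_cases h : i = k
  · subst h; simp
  · simp only [h, if_false, if_true, or_true, neg_neg]
    ring

theorem mutR_injective (k : ι) (B : ι → ι → ℤ) : Function.Injective (mutR k B) :=
  Function.LeftInverse.injective (g := mutR k (mutB k B)) (mutR_mutR k B)

theorem runR_injective (w : List ι) (B : ι → ι → ℤ) : Function.Injective (runR w B) := by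
  induction w generalizing B with
  | nil => exact fun _ _ h => h
  | cons k w ih => exact fun a b h => mutR_injective k B (ih (mutB k B) h)

variable [Fintype ι]

/-- Additivity of the mutation along `w` on the nonnegative orthant. -/
def ADD (w : List ι) (B : ι → ι → ℤ) : Prop :=
  ∀ m : ι → ℤ, (∀ j, 0 ≤ m j) → ∀ i, runR w B m i = ∑ j, m j * cRow w B j i

theorem sign_of_add (hN : NoZero ι) (B : ι → ι → ℤ) (hB : Skew B) (w : List ι)
    (hA : ADD w B) (k : ι) :
    (∀ j, 0 ≤ cRow w B j k) ∨ (∀ j, cRow w B j k ≤ 0) := by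
  by_contra hcon
  push Not at hcon
  obtain ⟨⟨j2, h2⟩, ⟨j1, h1⟩⟩ := hcon
  set c : ι → ℤ := fun j => cRow w B j k with hc
  set S : ℤ := ∑ j, c j with hS
  have hp : 0 < c j1 := h1
  have hq : 0 < - c j2 := by have : c j2 < 0 := h2; linarith
  set t1 : ℤ := max (-S) 0 with ht1
  set t2 : ℤ := max S 0 with ht2
  have ht1' : 0 ≤ t1 := le_max_right _ _
  have ht2' : 0 ≤ t2 := le_max_right _ _
  have ht : t1 - t2 = -S := by
    rcases le_total S 0 with h | h
    · rw [ht1, ht2, max_eq_left (by linarith), max_eq_right h]; ring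
    · rw [ht1, ht2, max_eq_right (by linarith), max_eq_left h]; ring
  let m : ι → ℤ := fun j => c j1 * (- c j2) + (if j = j1 then (- c j2) * t1 else 0)
    + (if j = j2 then c j1 * t2 else 0)
  have hm : ∀ j, 0 < m j := by
    intro j
    have ha : 0 < c j1 * (- c j2) := mul_pos hp hq
    have hb : 0 ≤ (if j = j1 then (- c j2) * t1 else 0) := by
      split_ifs
      · exact mul_nonneg hq.le ht1'
      · exact le_refl _
    have hd : 0 ≤ (if j = j2 then c j1 * t2 else 0) := by
      split_ifs
      · exact mul_nonneg hp.le ht2'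
      · exact le_refl _
    show 0 < c j1 * (- c j2) + (if j = j1 then (- c j2) * t1 else 0)
      + (if j = j2 then c j1 * t2 else 0)
    linarith
  refine hN B hB w m hm k ?_
  rw [hA m (fun j => (hm j).le) k]
  have : ∑ j, m j * c j = c j1 * (- c j2) * S + (- c j2) * t1 * c j1 + c j1 * t2 * c j2 := by
    simp only [m, add_mul, Finset.sum_add_distrib, ite_mul, zero_mul, Finset.sum_ite_eq',
      Finset.mem_univ, if_true, hS, Finset.mul_sum]
  show ∑ j, m j * c j = 0
  rw [this]
  have : c j1 * (- c j2) * S + (- c j2) * t1 * c j1 + c j1 * t2 * c j2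
      = c j1 * (- c j2) * (S + (t1 - t2)) := by ring
  rw [this, ht]; ring

theorem pos_sum_nonneg {m a : ι → ℤ} (hm : ∀ j, 0 ≤ m j) (ha : ∀ j, 0 ≤ a j) :
    pos (∑ j, m j * a j) = ∑ j, m j * pos (a j) := by
  unfold pos
  rw [max_eq_left (Finset.sum_nonneg fun j _ => mul_nonneg (hm j) (ha j))]
  exact Finset.sum_congr rfl fun j _ => by rw [max_eq_left (ha j)]

theorem pos_sum_nonpos {m a : ι → ℤ} (hm : ∀ j, 0 ≤ m j) (ha : ∀ j, a j ≤ 0) :
    pos (∑ j, m j * a j) = ∑ j, m j * pos (a j) := by
  unfold pos
  rw [max_eq_right (Finset.sum_nonpos fun j _ => mul_nonpos_of_nonneg_of_nonpos (hm j) (ha j))]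
  symm
  exact Finset.sum_eq_zero fun j _ => by rw [max_eq_right (ha j), mul_zero]

theorem pos_sum {m a : ι → ℤ} (hm : ∀ j, 0 ≤ m j)
    (ha : (∀ j, 0 ≤ a j) ∨ (∀ j, a j ≤ 0)) :
    pos (∑ j, m j * a j) = ∑ j, m j * pos (a j) := by
  rcases ha with h | h
  · exact pos_sum_nonneg hm h
  · exact pos_sum_nonpos hm h

theorem add_step (hN : NoZero ι) (B : ι → ι → ℤ) (hB : Skew B) (w : List ι)
    (hA : ADD w B) (k : ι) : ADD (w ++ [k]) B := by
  intro m hm i
  have hs := sign_of_add hN B hB w hA k
  have hs' : (∀ j, 0 ≤ -cRow w B j k) ∨ (∀ j, -cRow w B j k ≤ 0) := by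
    rcases hs with h | h
    · right; intro j; have := h j; linarith
    · left; intro j; have := h j; linarith
  have hneg : -(∑ j, m j * cRow w B j k) = ∑ j, m j * (-cRow w B j k) := by
    rw [← Finset.sum_neg_distrib]
    exact Finset.sum_congr rfl fun j _ => by ring
  have hcr : ∀ j, cRow (w ++ [k]) B j = mutR k (runB w B) (cRow w B j) := fun j => by
    unfold cRow; rw [runR_append]
  rw [runR_append]
  simp only [hcr]
  unfold mutR
  by_cases h : i = k
  · simp only [h, if_true]
    rw [hA m hm k, hneg]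
  · simp only [h, if_false]
    rw [hA m hm k, hA m hm i, hneg, pos_sum hm hs, pos_sum hm hs']
    simp only [mul_sub, mul_add, Finset.sum_sub_distrib, Finset.sum_add_distrib, Finset.mul_sum]
    congr 1
    · congr 1
      exact Finset.sum_congr rfl fun j _ => by ring
    · exact Finset.sum_congr rfl fun j _ => by ring

theorem add_all (hN : NoZero ι) (B : ι → ι → ℤ) (hB : Skew B) (w : List ι) : ADD w B := by
  induction w using List.reverseRecOn with
  | nil =>
    intro m _ i
    show m i = ∑ j, m j * (Pi.single j (1:ℤ) : ι → ℤ) i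
    simp [Pi.single_apply]
  | append_singleton w k ih => exact add_step hN B hB w ih k

theorem left_kernel (hN : NoZero ι) (B : ι → ι → ℤ) (hB : Skew B) (w : List ι)
    (m : ι → ℤ) (h : ∀ i, ∑ j, m j * cRow w B j i = 0) : m = 0 := by
  have hA := add_all hN B hB w
  have h1 : runR w B (fun j => max (m j) 0) = runR w B (fun j => max (-(m j)) 0) := by
    funext i
    rw [hA _ (fun j => le_max_right _ _) i, hA _ (fun j => le_max_right _ _) i, ← sub_eq_zero,
      ← Finset.sum_sub_distrib]
    refine Eq.trans ?_ (h i)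
    refine Finset.sum_congr rfl fun j _ => ?_
    rw [← sub_mul]
    congr 1
    rcases le_total (m j) 0 with h | h
    · rw [max_eq_right h, max_eq_left (by linarith)]; ring
    · rw [max_eq_left h, max_eq_right (by linarith)]; ring
  have h2 := runR_injective w B h1
  funext j
  have h3 := congrFun h2 j
  show m j = 0
  rcases le_total (m j) 0 with h | h
  · rw [max_eq_right h, max_eq_left (by linarith)] at h3; linarith
  · rw [max_eq_left h, max_eq_right (by linarith)] at h3; linarith

theorem right_kernel (hN : NoZero ι) (B : ι → ι → ℤ) (hB : Skew B) (w : List ι)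
    (x : ι → ℤ) (h : ∀ j, ∑ i, cRow w B j i * x i = 0) : x = 0 := by
  by_contra hx
  let C : Matrix ι ι ℤ := Matrix.of fun j i => cRow w B j i
  have h1 : C.det = 0 := by
    rw [← Matrix.exists_mulVec_eq_zero_iff]
    refine ⟨x, hx, ?_⟩
    funext j
    simpa [Matrix.mulVec, dotProduct, C] using h j
  rw [← Matrix.exists_vecMul_eq_zero_iff] at h1
  obtain ⟨v, hv, hv2⟩ := h1
  refine hv (left_kernel hN B hB w v fun i => ?_)
  have := congrFun hv2 i
  simpa [Matrix.vecMul, dotProduct, C] using this

end J

end PieceJ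

open PieceJ in
/-- Piece J. -/
theorem j_main : JStm := by
  intro ι _ _ hN B hB w
  have hA := add_all hN B hB w
  have hP2 : ∀ i, ∃ j, cRow w B j i ≠ 0 := by
    intro i
    by_contra hcon
    push Not at hcon
    refine hN B hB w (fun _ => 1) (fun _ => one_pos) i ?_
    rw [hA (fun _ => 1) (fun _ => zero_le_one) i]
    exact Finset.sum_eq_zero fun j _ => by rw [hcon j, mul_zero]
  refine ⟨fun i => sign_of_add hN B hB w hA i, hP2, ?_⟩
  intro k i₀ i₁ h0 h1
  by_contra hne
  have hx : (fun i => if i = i₀ then cRow w B k i₁ else if i = i₁ then - cRow w B k i₀ else 0)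
      = (0 : ι → ℤ) := by
    refine right_kernel hN B hB w _ fun j => ?_
    have hsum : ∑ i, cRow w B j i *
        (if i = i₀ then cRow w B k i₁ else if i = i₁ then - cRow w B k i₀ else 0)
        = cRow w B j i₀ * cRow w B k i₁ - cRow w B j i₁ * cRow w B k i₀ := by
      have : ∀ i, cRow w B j i *
          (if i = i₀ then cRow w B k i₁ else if i = i₁ then - cRow w B k i₀ else 0)
          = (if i = i₀ then cRow w B j i₀ * cRow w B k i₁ else 0)
            + (if i = i₁ then - (cRow w B j i₁ * cRow w B k i₀) else 0) := by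
        intro i
        by_cases ha : i = i₀
        · subst ha
          simp [hne]
        · by_cases hb : i = i₁
          · subst hb; simp [ha]
          · simp [ha, hb]
      rw [Finset.sum_congr rfl fun i _ => this i, Finset.sum_add_distrib]
      simp
      ring
    rw [hsum]
    by_cases hj : j = k
    · subst hj; ring
    · rw [h0 j hj, h1 j hj]; ring
  have hx1 := congrFun hx i₁
  have hne' : i₁ ≠ i₀ := fun h => hne h.symm
  simp [hne'] at hx1
  obtain ⟨j, hj⟩ := hP2 i₀
  by_cases hjk : j = k
  · subst hjk; exact hj hx1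
  · exact hj (h0 j hjk)


end Pool.Agent.R60.SC
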