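import Pool.Agent.R60.SC.Comb

/-! # Project SC: one mutation does not decrease the maximal number of red vertices -/

namespace Pool.Agent.R60.SC

namespace KK

variable {ι : Type} [DecidableEq ι]

theorem pos_zero : pos 0 = 0 := rfl

theorem mutB_mutB (k : ι) (B : ι → ι → ℤ) : mutB k (mutB k B) = B := by
  funext i j
  by_cases h : i = k ∨ j = k
  · simp only [mutB, if_pos h, neg_neg]
  · have hi : mutB k B i k = - B i k := by simp [mutB]
    have hj : mutB k B k j = - B k j := by simp [mutB]
    have e : mutB k (mutB k B) i j = mutB k B i j + pos (mutB k B i k) * pos (mutB k B k j) -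
        pos (-(mutB k B i k)) * pos (-(mutB k B k j)) := by
      rw [mutB, if_neg h]
    rw [e, hi, hj, neg_neg, neg_neg, mutB, if_neg h]
    ring

theorem mutR_zero (k : ι) (B : ι → ι → ℤ) (r : ι → ℤ) (h : r k = 0) : mutR k B r = r := by
  funext i
  unfold mutR
  rw [h, neg_zero, pos_zero, mul_zero, mul_zero]
  split_ifs with hi
  · rw [hi, h]
  · ring

theorem runR_append (w : List ι) (k : ι) : ∀ (B : ι → ι → ℤ) (r : ι → ℤ),
    runR (w ++ [k]) B r = mutR k (runB w B) (runR w B r) := by
  induction w with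
  | nil => intro B r; rfl
  | cons a w ih =>
    intro B r
    exact ih _ _

theorem cRow_cons (k : ι) (w : List ι) (B : ι → ι → ℤ) (j : ι) (hj : j ≠ k) :
    cRow (k :: w) (mutB k B) j = cRow w B j := by
  show runR w (mutB k (mutB k B)) (mutR k (mutB k B) (Pi.single j 1)) = runR w B (Pi.single j 1)
  rw [mutB_mutB, mutR_zero]
  exact Pi.single_eq_of_ne (Ne.symm hj) _

end KK

open KK in
theorem k_main : KStm := by
  intro ι _ _ B _ k hc hc' w
  -- good vertices keep their colour
  have good : ∀ i j, j ≠ k → (∃ l, cRow w B l i < 0) → cRow w B j i ≠ 0 → cRow w B j i < 0 := by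
    intro i j _ ⟨l, hl⟩ hne
    rcases (hc w).1 i with h | h
    · exact absurd hl (not_lt.2 (h l))
    · exact lt_of_le_of_ne (h j) hne
  by_cases hcase : ∃ i, (∀ j, j ≠ k → cRow w B j i = 0) ∧ (∃ l, cRow w B l i < 0) ∧
      ¬ ∃ l, cRow (k :: w) (mutB k B) l i < 0
  · obtain ⟨i₀, hbad, hred, hnred⟩ := hcase
    refine ⟨(k :: w) ++ [i₀], ?_⟩
    unfold redCount
    apply Finset.card_le_card
    intro i hi
    rw [Finset.mem_filter] at hi ⊢
    refine ⟨Finset.mem_univ _, ?_⟩
    have hrow : ∀ j, cRow ((k :: w) ++ [i₀]) (mutB k B) j =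
        mutR i₀ (runB (k :: w) (mutB k B)) (cRow (k :: w) (mutB k B) j) := fun j =>
      runR_append _ _ _ _
    by_cases hii : i = i₀
    · subst hii
      obtain ⟨j, hj⟩ := (hc' (k :: w)).2.1 i
      have hjk : j = k := by
        by_contra hjk
        rw [cRow_cons k w B j hjk] at hj
        exact hj (hbad j hjk)
      subst hjk
      refine ⟨j, ?_⟩
      rw [hrow]
      unfold mutR
      rw [if_pos rfl]
      have h1 : ¬ cRow (j :: w) (mutB j B) j i < 0 := fun h => hnred ⟨j, h⟩
      omega
    · have hnb : ∃ j, j ≠ k ∧ cRow w B j i ≠ 0 := by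
        by_contra hcon
        push Not at hcon
        exact hii ((hc w).2.2 k i i₀ hcon hbad)
      obtain ⟨j, hjk, hj⟩ := hnb
      refine ⟨j, ?_⟩
      rw [hrow, cRow_cons k w B j hjk, mutR_zero _ _ _ (hbad j hjk)]
      exact good i j hjk hi.2 hj
  · push Not at hcase
    refine ⟨k :: w, ?_⟩
    unfold redCount
    apply Finset.card_le_card
    intro i hi
    rw [Finset.mem_filter] at hi ⊢
    refine ⟨Finset.mem_univ _, ?_⟩
    by_cases hb : ∀ j, j ≠ k → cRow w B j i = 0
    · obtain ⟨l, hl⟩ := hi.2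
      exact hcase i hb ⟨l, hl⟩
    · push Not at hb
      obtain ⟨j, hjk, hj⟩ := hb
      refine ⟨j, ?_⟩
      rw [cRow_cons k w B j hjk]
      exact good i j hjk hi.2 hj

end Pool.Agent.R60.SC
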