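import Mathlib

/-!
# Project SC, combinatorial part: definitions

Skew-symmetric integer matrices, their mutation, the mutation of a frozen row, and quivers.
-/

namespace Pool.Agent.R60.SC

/-- The positive part of an integer. -/
def pos (x : ℤ) : ℤ := max x 0

section
variable {ι : Type}

/-- Skew-symmetric matrices. -/
def Skew (B : ι → ι → ℤ) : Prop := ∀ i j, B i j = - B j i

variable [DecidableEq ι]

/-- Matrix mutation; `B i j` is the number of arrows `i → j` minus the number of arrows
`j → i`. -/
def mutB (k : ι) (B : ι → ι → ℤ) : ι → ι → ℤ := fun i j =>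
  if i = k ∨ j = k then - B i j
  else B i j + pos (B i k) * pos (B k j) - pos (-(B i k)) * pos (-(B k j))

/-- Mutation of a frozen row `r`; `r i` is the number of arrows from `i` to the frozen vertex
minus the number of arrows from the frozen vertex to `i`. -/
def mutR (k : ι) (B : ι → ι → ℤ) (r : ι → ℤ) : ι → ℤ := fun i =>
  if i = k then - r k
  else r i + pos (B i k) * pos (r k) - pos (-(B i k)) * pos (-(r k))

/-- Mutation along a word. -/
def runB : List ι → (ι → ι → ℤ) → (ι → ι → ℤ)
  | [], B => B
  | k :: w, B => runB w (mutB k B)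

/-- Mutation of a frozen row along a word. -/
def runR : List ι → (ι → ι → ℤ) → (ι → ℤ) → (ι → ℤ)
  | [], _, r => r
  | k :: w, B, r => runR w (mutB k B) (mutR k B r)

/-- The row of the `j`-th frozen vertex of the framed quiver after the word `w`. -/
def cRow (w : List ι) (B : ι → ι → ℤ) (j : ι) : ι → ℤ := runR w B (Pi.single j 1)

/-- No coordinate of the image of a positive vector under mutations vanishes. -/
def NoZero (ι : Type) [DecidableEq ι] : Prop :=
  ∀ B : ι → ι → ℤ, Skew B → ∀ (w : List ι) (m : ι → ℤ), (∀ i, 0 < m i) →
    ∀ i, runR w B m i ≠ 0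

/-- Sign coherence, no zero column, and no two columns supported on the same single row. -/
def Coherent (B : ι → ι → ℤ) : Prop :=
  ∀ w : List ι,
    (∀ i, (∀ j, 0 ≤ cRow w B j i) ∨ (∀ j, cRow w B j i ≤ 0)) ∧
    (∀ i, ∃ j, cRow w B j i ≠ 0) ∧
    (∀ k i₀ i₁, (∀ j, j ≠ k → cRow w B j i₀ = 0) → (∀ j, j ≠ k → cRow w B j i₁ = 0) → i₀ = i₁)

variable [Fintype ι]

/-- The number of red vertices after the word `w`. -/
def redCount (w : List ι) (B : ι → ι → ℤ) : ℕ :=
  (Finset.univ.filter (fun i => ∃ j, cRow w B j i < 0)).card

end

/-- Statement J: sign coherence from `NoZero`. -/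
def JStm : Prop := ∀ (ι : Type) [Fintype ι] [DecidableEq ι], NoZero ι →
  ∀ B : ι → ι → ℤ, Skew B → Coherent B

/-- Statement K: one mutation does not decrease the maximal number of red vertices. -/
def KStm : Prop := ∀ (ι : Type) [Fintype ι] [DecidableEq ι] (B : ι → ι → ℤ), Skew B →
  ∀ k : ι, Coherent B → Coherent (mutB k B) →
  ∀ w : List ι, ∃ w' : List ι, redCount w B ≤ redCount w' (mutB k B)

/-! ### Quivers -/

/-- A quiver on the vertex set `V`: `arr i j` is the number of arrows from `i` to `j`; there are
no loops and no oriented 2-cycles. -/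
@[ext] structure Quiv (V : Type) where
  /-- the number of arrows -/
  arr : V → V → ℕ
  /-- no loops -/
  loopless : ∀ i, arr i i = 0
  /-- no oriented 2-cycles -/
  no_two_cycle : ∀ i j, arr i j = 0 ∨ arr j i = 0

section
variable {V : Type} [DecidableEq V]

/-- Step 1 of mutation: for every path `i → k → j`, add an arrow `i → j`. -/
def step1 (k : V) (a : V → V → ℕ) : V → V → ℕ := fun i j => a i j + a i k * a k j

/-- Step 2 of mutation: reverse every arrow incident to `k`. -/
def step2 (k : V) (a : V → V → ℕ) : V → V → ℕ := fun i j =>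
  if i = k ∨ j = k then a j i else a i j

/-- Step 3 of mutation: delete a maximal collection of oriented 2-cycles, and delete every arrow
between two frozen vertices (`fz i = true` says that `i` is frozen). -/
def step3 (fz : V → Bool) (a : V → V → ℕ) : V → V → ℕ := fun i j =>
  if fz i = true ∧ fz j = true then 0 else a i j - a j i

/-- Mutation at the vertex `k` of a quiver with frozen vertices `fz`. -/
def Quiv.mut (fz : V → Bool) (k : V) (Q : Quiv V) : Quiv V where
  arr := step3 fz (step2 k (step1 k Q.arr))
  loopless := fun i => by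
    unfold step3
    split_ifs <;> omega
  no_two_cycle := fun i j => by
    unfold step3
    split_ifs <;> omega

/-- The framed quiver: `Sum.inl i` is the mutable vertex `i`, `Sum.inr i` is the frozen vertex
`i'`, and there is one arrow `i → i'` for each `i`. -/
def framed (Q : Quiv V) : Quiv (V ⊕ V) where
  arr := fun x y => match x, y with
    | Sum.inl i, Sum.inl j => Q.arr i j
    | Sum.inl i, Sum.inr j => if i = j then 1 else 0
    | Sum.inr _, _ => 0
  loopless := fun x => by
    rcases x with i | i
    · exact Q.loopless i
    · rfl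
  no_two_cycle := fun x y => by
    rcases x with i | i <;> rcases y with j | j
    · exact Q.no_two_cycle i j
    · exact Or.inr rfl
    · exact Or.inl rfl
    · exact Or.inl rfl

/-- The frozen vertices of a framed quiver. -/
def isFz : V ⊕ V → Bool
  | Sum.inl _ => false
  | Sum.inr _ => true

/-- The quiver obtained from the framed quiver of `Q` by mutating at the (mutable) vertices of
the word, from left to right. -/
def afterWord (w : List V) (Q : Quiv V) : Quiv (V ⊕ V) :=
  w.foldl (fun R k => R.mut isFz (Sum.inl k)) (framed Q)

/-- A mutable vertex `i` is red if there is an arrow `j' → i` with `j'` frozen. -/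
def IsRed (R : Quiv (V ⊕ V)) (i : V) : Prop := ∃ j : V, 0 < R.arr (Sum.inr j) (Sum.inl i)

/-- A mutable vertex `i` is green if there is an arrow `i → j'` with `j'` frozen. -/
def IsGreen (R : Quiv (V ⊕ V)) (i : V) : Prop := ∃ j : V, 0 < R.arr (Sum.inl i) (Sum.inr j)

/-- The number of red vertices after mutating the framed quiver along the word. -/
noncomputable def numRed (w : List V) (Q : Quiv V) : ℕ :=
  Set.ncard {i : V | IsRed (afterWord w Q) i}

/-- The unrestricted red size: the maximum of the number of red vertices over all words. -/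
noncomputable def uRed (Q : Quiv V) : ℕ := sSup (Set.range fun w : List V => numRed w Q)

/-- The signed matrix of a quiver. -/
def matQ (Q : Quiv V) : V → V → ℤ := fun i j => (Q.arr i j : ℤ) - (Q.arr j i : ℤ)

end

/-- Statement M: the dictionary between quivers and matrices. -/
def MStm : Prop := ∀ (V : Type) [Fintype V] [DecidableEq V] (Q : Quiv V),
  Skew (matQ Q) ∧
  (∀ k, matQ (Q.mut (fun _ => false) k) = mutB k (matQ Q)) ∧
  (∀ k, (Q.mut (fun _ => false) k).mut (fun _ => false) k = Q) ∧
  (∀ (w : List V) (i j : V), ((afterWord w Q).arr (Sum.inl i) (Sum.inr j) : ℤ)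
      - ((afterWord w Q).arr (Sum.inr j) (Sum.inl i) : ℤ) = cRow w (matQ Q) j i)

/-- Statement N: the final deduction. -/
def NStm : Prop := (∀ (ι : Type) [Fintype ι] [DecidableEq ι], NoZero ι) →
  ∀ (V : Type) [Fintype V] [DecidableEq V] (Q : Quiv V) (k : V),
    uRed (Q.mut (fun _ => false) k) = uRed Q

end Pool.Agent.R60.SC
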