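import Mathlib
import Pool.Agent.R60.SC.Comb

/-!
# Project SC, algebraic part: the twisted power series ring
-/

namespace Pool.Agent.R60.SC

noncomputable section

set_option linter.unusedSectionVars false

variable {ι : Type} [Fintype ι] [DecidableEq ι]

/-- Pairs with a given sum. -/
def adj (n : ι → ℕ) : Finset ((ι → ℕ) × (ι → ℕ)) :=
  (Finset.Iic n ×ˢ Finset.Iic n).filter (fun p => p.1 + p.2 = n)

@[simp] theorem mem_adj {n : ι → ℕ} {p : (ι → ℕ) × (ι → ℕ)} : p ∈ adj n ↔ p.1 + p.2 = n := by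
  unfold adj
  rw [Finset.mem_filter, Finset.mem_product, Finset.mem_Iic, Finset.mem_Iic]
  constructor
  · exact fun h => h.2
  · intro h
    refine ⟨⟨?_, ?_⟩, h⟩
    · rw [← h]
      intro i
      simp
    · rw [← h]
      intro i
      simp

/-- The bilinear form of a matrix. -/
def frm (B : ι → ι → ℤ) (a b : ι → ℕ) : ℤ := ∑ i, ∑ j, B i j * (a i : ℤ) * (b j : ℤ)

theorem frm_add_left (B : ι → ι → ℤ) (a b c : ι → ℕ) :
    frm B (a + b) c = frm B a c + frm B b c := by
  unfold frm
  rw [← Finset.sum_add_distrib]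
  refine Finset.sum_congr rfl fun i _ => ?_
  rw [← Finset.sum_add_distrib]
  refine Finset.sum_congr rfl fun j _ => ?_
  simp only [Pi.add_apply, Nat.cast_add]
  ring

theorem frm_add_right (B : ι → ι → ℤ) (a b c : ι → ℕ) :
    frm B a (b + c) = frm B a b + frm B a c := by
  unfold frm
  rw [← Finset.sum_add_distrib]
  refine Finset.sum_congr rfl fun i _ => ?_
  rw [← Finset.sum_add_distrib]
  refine Finset.sum_congr rfl fun j _ => ?_
  simp only [Pi.add_apply, Nat.cast_add]
  ring

@[simp] theorem frm_zero_left (B : ι → ι → ℤ) (a : ι → ℕ) : frm B 0 a = 0 := by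
  simp [frm]

@[simp] theorem frm_zero_right (B : ι → ι → ℤ) (a : ι → ℕ) : frm B a 0 = 0 := by
  simp [frm]

theorem frm_swap {B : ι → ι → ℤ} (hB : Skew B) (a b : ι → ℕ) : frm B a b = - frm B b a := by
  unfold frm
  rw [Finset.sum_comm, ← Finset.sum_neg_distrib]
  refine Finset.sum_congr rfl fun i _ => ?_
  rw [← Finset.sum_neg_distrib]
  refine Finset.sum_congr rfl fun j _ => ?_
  rw [hB j i]
  ring

theorem frm_self {B : ι → ι → ℤ} (hB : Skew B) (a : ι → ℕ) : frm B a a = 0 := by
  have := frm_swap hB a a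
  omega

/-- The value of a linear functional. -/
def ev (m : ι → ℤ) (a : ι → ℕ) : ℤ := ∑ i, m i * (a i : ℤ)

theorem ev_add (m : ι → ℤ) (a b : ι → ℕ) : ev m (a + b) = ev m a + ev m b := by
  unfold ev
  rw [← Finset.sum_add_distrib]
  refine Finset.sum_congr rfl fun i _ => ?_
  simp only [Pi.add_apply, Nat.cast_add]
  ring

@[simp] theorem ev_zero (m : ι → ℤ) : ev m 0 = 0 := by simp [ev]

theorem ev_single (m : ι → ℤ) (k : ι) (j : ℕ) : ev m (Pi.single k j) = m k * j := by
  unfold ev
  rw [Finset.sum_eq_single k]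
  · simp
  · intro b _ hb
    simp [Pi.single_eq_of_ne hb]
  · simp

/-- The functional `a ↦ frm B a n`. -/
def fn (B : ι → ι → ℤ) (n : ι → ℕ) : ι → ℤ := fun i => ∑ j, B i j * (n j : ℤ)

theorem ev_fn (B : ι → ι → ℤ) (a n : ι → ℕ) : ev (fn B n) a = frm B a n := by
  unfold ev fn frm
  refine Finset.sum_congr rfl fun i _ => ?_
  rw [Finset.sum_mul]
  refine Finset.sum_congr rfl fun j _ => ?_
  ring

/-- The total degree. -/
def deg (n : ι → ℕ) : ℕ := ∑ i, n i

theorem deg_add (a b : ι → ℕ) : deg (a + b) = deg a + deg b := by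
  simp [deg, Finset.sum_add_distrib]

@[simp] theorem deg_zero : deg (0 : ι → ℕ) = 0 := by simp [deg]

theorem deg_eq_zero {n : ι → ℕ} : deg n = 0 ↔ n = 0 := by
  unfold deg
  rw [Finset.sum_eq_zero_iff]
  constructor
  · intro h
    funext i
    exact h i (Finset.mem_univ i)
  · rintro rfl i _
    rfl

theorem deg_lt {a n : ι → ℕ} (h : a < n) : deg a < deg n := by
  unfold deg
  obtain ⟨hle, i, hi⟩ := Pi.lt_def.1 h
  exact Finset.sum_lt_sum (fun i _ => hle i) ⟨i, Finset.mem_univ i, hi⟩

/-- Twisted power series with matrix `B`: functions on exponent vectors. -/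
structure TS {ι : Type} (B : ι → ι → ℤ) : Type where
  /-- the coefficients -/
  co : (ι → ℕ) → ℚ

variable {B : ι → ι → ℤ}

instance : CoeFun (TS B) (fun _ => (ι → ℕ) → ℚ) := ⟨TS.co⟩

@[ext] theorem TS.ext' {f g : TS B} (h : ∀ n, f n = g n) : f = g := by
  rcases f with ⟨f⟩
  rcases g with ⟨g⟩
  congr
  funext n
  exact h n

instance : Zero (TS B) := ⟨⟨fun _ => 0⟩⟩
instance : Add (TS B) := ⟨fun f g => ⟨fun n => f n + g n⟩⟩
instance : Neg (TS B) := ⟨fun f => ⟨fun n => - f n⟩⟩
instance : Sub (TS B) := ⟨fun f g => ⟨fun n => f n - g n⟩⟩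
instance : SMul ℕ (TS B) := ⟨fun c f => ⟨fun n => c • f n⟩⟩
instance : SMul ℤ (TS B) := ⟨fun c f => ⟨fun n => c • f n⟩⟩
instance : SMul ℚ (TS B) := ⟨fun c f => ⟨fun n => c * f n⟩⟩

theorem co_injective : Function.Injective (TS.co : TS B → (ι → ℕ) → ℚ) :=
  fun f g h => TS.ext' (fun n => congrFun h n)

instance : AddCommGroup (TS B) :=
  co_injective.addCommGroup _ rfl (fun _ _ => rfl) (fun _ => rfl) (fun _ _ => rfl)
    (fun _ _ => rfl) (fun _ _ => rfl)

instance : Mul (TS B) :=
  ⟨fun f g => ⟨fun n => ∑ p ∈ adj n, (2 : ℚ) ^ (frm B p.1 p.2) * (f p.1 * g p.2)⟩⟩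

instance : One (TS B) := ⟨⟨fun n => if n = 0 then 1 else 0⟩⟩

@[simp] theorem add_apply (f g : TS B) (n : ι → ℕ) : (f + g) n = f n + g n := rfl
@[simp] theorem sub_apply (f g : TS B) (n : ι → ℕ) : (f - g) n = f n - g n := rfl
@[simp] theorem neg_apply (f : TS B) (n : ι → ℕ) : (-f) n = - f n := rfl
@[simp] theorem zero_apply (n : ι → ℕ) : (0 : TS B) n = 0 := rfl
@[simp] theorem smul_apply (c : ℚ) (f : TS B) (n : ι → ℕ) : (c • f) n = c * f n := rfl
theorem one_apply (n : ι → ℕ) : (1 : TS B) n = if n = 0 then 1 else 0 := rfl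
@[simp] theorem one_apply_zero : (1 : TS B) 0 = 1 := by simp [one_apply]
theorem one_apply_ne {n : ι → ℕ} (h : n ≠ 0) : (1 : TS B) n = 0 := by simp [one_apply, h]

theorem mul_apply (f g : TS B) (n : ι → ℕ) :
    (f * g) n = ∑ p ∈ adj n, (2 : ℚ) ^ (frm B p.1 p.2) * (f p.1 * g p.2) := rfl

theorem two_zpow_add (x y : ℤ) : (2 : ℚ) ^ (x + y) = 2 ^ x * 2 ^ y :=
  zpow_add₀ (by norm_num) x y

protected theorem TS.mul_assoc (f g h : TS B) : f * g * h = f * (g * h) := by
  ext n
  simp only [mul_apply, Finset.sum_mul, Finset.mul_sum, Finset.sum_sigma']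
  apply Finset.sum_nbij' (fun ⟨⟨_i, j⟩, ⟨k, l⟩⟩ => ⟨(k, l + j), (l, j)⟩)
    (fun ⟨⟨i, _j⟩, ⟨k, l⟩⟩ => ⟨(i + k, l), (i, k)⟩)
  · rintro ⟨⟨a, b⟩, ⟨c, d⟩⟩ h
    simp only [Finset.mem_sigma, mem_adj] at h ⊢
    obtain ⟨h1, h2⟩ := h
    refine ⟨?_, trivial⟩
    rw [← h1, ← h2, add_assoc]
  · rintro ⟨⟨a, b⟩, ⟨c, d⟩⟩ h
    simp only [Finset.mem_sigma, mem_adj] at h ⊢
    obtain ⟨h1, h2⟩ := h
    refine ⟨?_, trivial⟩
    rw [← h1, ← h2, add_assoc]
  · rintro ⟨⟨a, b⟩, ⟨c, d⟩⟩ h
    simp only [Finset.mem_sigma, mem_adj] at h ⊢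
    obtain ⟨h1, h2⟩ := h
    subst h2
    rfl
  · rintro ⟨⟨a, b⟩, ⟨c, d⟩⟩ h
    simp only [Finset.mem_sigma, mem_adj] at h ⊢
    obtain ⟨h1, h2⟩ := h
    subst h2
    rfl
  · rintro ⟨⟨a, b⟩, ⟨c, d⟩⟩ h
    simp only [Finset.mem_sigma, mem_adj] at h ⊢
    obtain ⟨h1, h2⟩ := h
    subst h2
    rw [frm_add_left, frm_add_right, two_zpow_add, two_zpow_add]
    ring

protected theorem TS.one_mul (f : TS B) : 1 * f = f := by
  ext n
  rw [mul_apply, Finset.sum_eq_single (0, n)]
  · simp
  · rintro ⟨a, b⟩ h hne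
    simp only [mem_adj] at h
    have ha : a ≠ 0 := by
      rintro rfl
      apply hne
      rw [zero_add] at h
      rw [h]
    simp [one_apply_ne ha]
  · intro h
    simp at h

protected theorem TS.mul_one (f : TS B) : f * 1 = f := by
  ext n
  rw [mul_apply, Finset.sum_eq_single (n, 0)]
  · simp
  · rintro ⟨a, b⟩ h hne
    simp only [mem_adj] at h
    have hb : b ≠ 0 := by
      rintro rfl
      apply hne
      rw [add_zero] at h
      rw [h]
    simp [one_apply_ne hb]
  · intro h
    simp at h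

instance : Ring (TS B) where
  mul_assoc := TS.mul_assoc
  one_mul := TS.one_mul
  mul_one := TS.mul_one
  left_distrib := fun f g h => by
    ext n
    simp only [mul_apply, add_apply, ← Finset.sum_add_distrib]
    refine Finset.sum_congr rfl fun p _ => ?_
    ring
  right_distrib := fun f g h => by
    ext n
    simp only [mul_apply, add_apply, ← Finset.sum_add_distrib]
    refine Finset.sum_congr rfl fun p _ => ?_
    ring
  zero_mul := fun f => by
    ext n
    simp [mul_apply]
  mul_zero := fun f => by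
    ext n
    simp [mul_apply]
  neg_add_cancel := neg_add_cancel
  zsmul := fun c f => c • f
  zsmul_zero' := fun f => by
    ext n
    show (0 : ℤ) • f n = 0
    simp
  zsmul_succ' := fun c f => by
    ext n
    show ((c.succ : ℤ)) • f n = (c : ℤ) • f n + f n
    simp only [zsmul_eq_mul]
    push_cast
    ring
  zsmul_neg' := fun c f => by
    ext n
    show (Int.negSucc c) • f n = -(((c.succ : ℤ)) • f n)
    simp only [zsmul_eq_mul]
    push_cast
    ring
  sub_eq_add_neg := fun f g => by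
    ext n
    show f n - g n = f n + - g n
    ring

theorem smul_mul' (c : ℚ) (f g : TS B) : (c • f) * g = c • (f * g) := by
  ext n
  simp only [mul_apply, smul_apply, Finset.mul_sum]
  refine Finset.sum_congr rfl fun p _ => ?_
  ring

theorem mul_smul' (c : ℚ) (f g : TS B) : f * (c • g) = c • (f * g) := by
  ext n
  simp only [mul_apply, smul_apply, Finset.mul_sum]
  refine Finset.sum_congr rfl fun p _ => ?_
  ring

@[simp] theorem mul_apply_zero (f g : TS B) : (f * g) 0 = f 0 * g 0 := by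
  rw [mul_apply, Finset.sum_eq_single (0, 0)]
  · simp
  · rintro ⟨a, b⟩ h hne
    simp only [mem_adj] at h
    exfalso
    apply hne
    have ha : a = 0 := by
      funext i
      have := congrFun h i
      simp only [Pi.add_apply, Pi.zero_apply] at this ⊢
      omega
    have hb : b = 0 := by
      funext i
      have := congrFun h i
      simp only [Pi.add_apply, Pi.zero_apply] at this ⊢
      omega
    rw [ha, hb]
  · intro h
    simp at h

/-- All terms of `f` have exponents in `S`. -/
def SuppIn (S : AddSubmonoid (ι → ℕ)) (f : TS B) : Prop := ∀ a, f a ≠ 0 → a ∈ S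

theorem SuppIn.mul {S : AddSubmonoid (ι → ℕ)} {f g : TS B} (hf : SuppIn S f) (hg : SuppIn S g) :
    SuppIn S (f * g) := by
  intro n hn
  rw [mul_apply] at hn
  obtain ⟨⟨a, b⟩, hp, hne⟩ := Finset.exists_ne_zero_of_sum_ne_zero hn
  simp only [mem_adj] at hp
  rw [← hp]
  refine S.add_mem (hf a ?_) (hg b ?_)
  · intro h
    apply hne
    simp [h]
  · intro h
    apply hne
    simp [h]

theorem SuppIn.one {S : AddSubmonoid (ι → ℕ)} : SuppIn S (1 : TS B) := by
  intro n hn
  by_cases h : n = 0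
  · rw [h]
    exact S.zero_mem
  · exact absurd (one_apply_ne h) hn

theorem SuppIn.sub {S : AddSubmonoid (ι → ℕ)} {f g : TS B} (hf : SuppIn S f) (hg : SuppIn S g) :
    SuppIn S (f - g) := by
  intro n hn
  by_cases h : f n = 0
  · apply hg
    intro h'
    apply hn
    simp [h, h']
  · exact hf n h

theorem SuppIn.pow {S : AddSubmonoid (ι → ℕ)} {f : TS B} (hf : SuppIn S f) (j : ℕ) :
    SuppIn S (f ^ j) := by
  induction j with
  | zero =>
    rw [pow_zero]
    exact SuppIn.one
  | succ j ih =>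
    rw [pow_succ]
    exact ih.mul hf

/-- The submonoid of exponents with vanishing functional. -/
def evKer (m : ι → ℤ) : AddSubmonoid (ι → ℕ) where
  carrier := {a | ev m a = 0}
  zero_mem' := ev_zero m
  add_mem' := fun {a b} ha hb => by
    simp only [Set.mem_ofPred_eq] at ha hb ⊢
    rw [ev_add, ha, hb, add_zero]

@[simp] theorem mem_evKer {m : ι → ℤ} {a : ι → ℕ} : a ∈ evKer m ↔ ev m a = 0 := Iff.rfl

/-- Recursion along the order of exponent vectors: an operator whose value at `n` depends only on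
the values below `n` has a unique fixed point. -/
theorem fix_exists (F : ((ι → ℕ) → ℚ) → (ι → ℕ) → ℚ)
    (hF : ∀ c c' n, (∀ a, a < n → c a = c' a) → F c n = F c' n) :
    ∃! c : (ι → ℕ) → ℚ, ∀ n, c n = F c n := by
  classical
  have wf : WellFounded ((· < ·) : (ι → ℕ) → (ι → ℕ) → Prop) := wellFounded_lt
  let c : (ι → ℕ) → ℚ := wf.fix (fun n ih => F (fun a => if h : a < n then ih a h else 0) n)
  have hc : ∀ n, c n = F (fun a => if a < n then c a else 0) n := by
    intro n
    have := wf.fix_eq (fun n ih => F (fun a => if h : a < n then ih a h else 0) n) n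
    simpa [c] using this
  refine ⟨c, fun n => ?_, fun c' hc' => ?_⟩
  · rw [hc n]
    apply hF
    intro a ha
    simp [ha]
  · funext n
    induction n using wf.induction with
    | _ n ih =>
      rw [hc' n, hc n]
      apply hF
      intro a ha
      simp only [ha, if_true]
      exact ih a ha

/-- `f` and `g` agree strictly below `n`. -/
def Below (n : ι → ℕ) (f g : TS B) : Prop := ∀ a, a < n → f a = g a

/-- Lower values determine a product of unipotent series up to the two extreme terms. -/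
theorem mul_local {n : ι → ℕ} {f f' g g' : TS B} (hf : f 0 = 1) (hf' : f' 0 = 1) (hg : g 0 = 1)
    (hg' : g' 0 = 1) (h1 : Below n f f') (h2 : Below n g g') :
    (f * g) n - (f n + g n) = (f' * g') n - (f' n + g' n) := by
  by_cases hn : n = 0
  · subst hn
    simp [hf, hf', hg, hg']
  have key : ∀ x y : TS B, x 0 = 1 → y 0 = 1 → (x * y) n - (x n + y n) =
      ∑ p ∈ ((adj n).erase (0, n)).erase (n, 0),
        (2 : ℚ) ^ (frm B p.1 p.2) * (x p.1 * y p.2) := by
    intro x y hx hy
    have h01 : ((0 : ι → ℕ), n) ∈ adj n := by simp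
    have h02 : (n, (0 : ι → ℕ)) ∈ (adj n).erase (0, n) := by
      rw [Finset.mem_erase]
      refine ⟨?_, by simp⟩
      intro h
      exact hn (Prod.ext_iff.1 h).1
    rw [mul_apply, ← Finset.add_sum_erase _ _ h01, ← Finset.add_sum_erase _ _ h02]
    simp [hx, hy]
    ring
  rw [key f g hf hg, key f' g' hf' hg']
  refine Finset.sum_congr rfl ?_
  rintro ⟨a, b⟩ hp
  simp only [Finset.mem_erase, mem_adj] at hp
  obtain ⟨hne1, hne2, hab⟩ := hp
  have ha : a < n := by
    refine lt_of_le_of_ne ?_ ?_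
    · rw [← hab]
      intro i
      simp
    · rintro rfl
      apply hne1
      have : b = 0 := by
        funext i
        have := congrFun hab i
        simp only [Pi.add_apply, Pi.zero_apply] at this ⊢
        omega
      rw [this]
  have hb : b < n := by
    refine lt_of_le_of_ne ?_ ?_
    · rw [← hab]
      intro i
      simp
    · rintro rfl
      apply hne2
      have : a = 0 := by
        funext i
        have := congrFun hab i
        simp only [Pi.add_apply, Pi.zero_apply] at this ⊢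
        omega
      rw [this]
  simp only
  rw [h1 a ha, h2 b hb]

theorem Below.mul {n : ι → ℕ} {f f' g g' : TS B} (h1 : Below n f f') (h2 : Below n g g') :
    Below n (f * g) (f' * g') := by
  intro a ha
  rw [mul_apply, mul_apply]
  refine Finset.sum_congr rfl ?_
  rintro ⟨x, y⟩ hp
  simp only [mem_adj] at hp
  have hx : x ≤ a := by
    rw [← hp]
    intro i
    simp
  have hy : y ≤ a := by
    rw [← hp]
    intro i
    simp
  simp only
  rw [h1 x (lt_of_le_of_lt hx ha), h2 y (lt_of_le_of_lt hy ha)]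

end

end Pool.Agent.R60.SC
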