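import Mathlib
import Pool.Agent.R60.SC.Defs

/-!
# Project SC: statements of the algebra pieces
-/

namespace Pool.Agent.R60.SC

noncomputable section

set_option linter.unusedSectionVars false

variable {ι : Type} [Fintype ι] [DecidableEq ι] {B : ι → ι → ℤ}

/-- Unipotent, all other exponents have positive value. -/
def UP (m : ι → ℤ) (f : TS B) : Prop := f 0 = 1 ∧ ∀ a, a ≠ 0 → f a ≠ 0 → 0 < ev m a

/-- Unipotent, all exponents have value zero. -/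
def UZ (m : ι → ℤ) (f : TS B) : Prop := f 0 = 1 ∧ ∀ a, f a ≠ 0 → ev m a = 0

/-- Unipotent, all other exponents have negative value. -/
def UN (m : ι → ℤ) (f : TS B) : Prop := f 0 = 1 ∧ ∀ a, a ≠ 0 → f a ≠ 0 → ev m a < 0

/-- `z` is the middle factor of `g` for the functional `m`. -/
def IsMid (m : ι → ℤ) (g z : TS B) : Prop :=
  UZ m z ∧ ∃ u w : TS B, UP m u ∧ UN m w ∧ g = u * z * w

open Classical in
/-- The middle factor. -/
def mid (m : ι → ℤ) (g : TS B) : TS B := if h : ∃ z, IsMid m g z then h.choose else 1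

/-- The coefficient at `n` of the logarithm of a unipotent series. -/
def Ln (n : ι → ℕ) (f : TS B) : ℚ :=
  ∑ j ∈ Finset.Icc 1 (deg n), ((-1 : ℚ) ^ (j + 1) / j) * ((f - 1) ^ j) n

/-- Piece FAC: triangular factorisation and its locality. -/
def FacStm : Prop := ∀ (ι : Type) [Fintype ι] [DecidableEq ι] (B : ι → ι → ℤ) (m : ι → ℤ),
  (∀ g : TS B, g 0 = 1 → ∃ u z w : TS B, UP m u ∧ UZ m z ∧ UN m w ∧ g = u * z * w ∧
    ∀ S : AddSubmonoid (ι → ℕ), SuppIn S g → SuppIn S u ∧ SuppIn S z ∧ SuppIn S w) ∧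
  (∀ u z w u' z' w' : TS B, UP m u → UZ m z → UN m w → UP m u' → UZ m z' → UN m w' →
    ∀ n, Below n (u * z * w) (u' * z' * w') →
      Below n u u' ∧ Below n z z' ∧ Below n w w' ∧
      (u * z * w) n - (u n + z n + w n) = (u' * z' * w') n - (u' n + z' n + w' n))

/-- Piece INV: inverses of unipotent series. -/
def InvStm : Prop := ∀ (ι : Type) [Fintype ι] [DecidableEq ι] (B : ι → ι → ℤ) (f : TS B),
  f 0 = 1 → ∃ g : TS B, g 0 = 1 ∧ f * g = 1 ∧ g * f = 1 ∧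
    ∀ S : AddSubmonoid (ι → ℕ), SuppIn S f → SuppIn S g

/-- Piece MID: properties of the middle factor. -/
def MidStm : Prop := ∀ (ι : Type) [Fintype ι] [DecidableEq ι] (B : ι → ι → ℤ) (m : ι → ℤ),
  (∀ g : TS B, g 0 = 1 → IsMid m g (mid m g)) ∧
  (∀ g z z' : TS B, IsMid m g z → IsMid m g z' → z = z') ∧
  (∀ u g : TS B, UP m u → g 0 = 1 → mid m (u * g) = mid m g) ∧
  (∀ w g : TS B, UN m w → g 0 = 1 → mid m (g * w) = mid m g) ∧
  (∀ e g : TS B, UZ m e → g 0 = 1 → mid m (e * g) = e * mid m g) ∧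
  (∀ e g : TS B, UZ m e → g 0 = 1 → mid m (g * e) = mid m g * e) ∧
  (∀ g : TS B, g 0 = 1 → ∀ S : AddSubmonoid (ι → ℕ), SuppIn S g → SuppIn S (mid m g)) ∧
  (∀ g g' : TS B, g 0 = 1 → g' 0 = 1 → ∀ n, Below n g g' →
    Below n (mid m g) (mid m g') ∧
    (ev m n = 0 → (mid m g) n - g n = (mid m g') n - g' n)) ∧
  ((∀ i, 0 < m i) → ∀ g : TS B, g 0 = 1 → mid m g = 1)

/-- Piece LN: properties of the logarithmic coefficient. -/
def LnStm : Prop := ∀ (ι : Type) [Fintype ι] [DecidableEq ι] (B : ι → ι → ℤ),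
  (∀ (f : TS B) (S : AddSubmonoid (ι → ℕ)) (n : ι → ℕ), f 0 = 1 → SuppIn S f → n ∉ S →
    Ln n f = 0) ∧
  (∀ (f f' : TS B) (n : ι → ℕ), n ≠ 0 → f 0 = 1 → f' 0 = 1 → Below n f f' →
    Ln n f - f n = Ln n f' - f' n) ∧
  (Skew B → ∀ (f g : TS B) (n : ι → ℕ), f 0 = 1 → g 0 = 1 →
    (∀ a, f a ≠ 0 → frm B a n = 0) → (∀ a, g a ≠ 0 → frm B a n = 0) →
    Ln n (f * g) = Ln n f + Ln n g)

/-! ### The one-variable series -/

/-- Coefficients of the quantum dilogarithm at `v = 2`. -/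
def eC : ℕ → ℚ
  | 0 => 1
  | j + 1 => 2 * eC j / (4 ^ (j + 1) - 1)

/-- The quantum dilogarithm as a power series. -/
def eS : PowerSeries ℚ := PowerSeries.mk eC

/-- A one-variable power series in the variable `k`. -/
def psi (B : ι → ι → ℤ) (k : ι) (F : PowerSeries ℚ) : TS B :=
  ⟨fun n => if n = Pi.single k (n k) then PowerSeries.coeff (n k) F else 0⟩

/-- The element `E_k`. -/
def Ek (B : ι → ι → ℤ) (k : ι) : TS B := psi B k eS

/-- The palindromic polynomial `∏_{i<a} (1 + v^{a-1-2i} t)`. -/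
def pal (a : ℕ) : PowerSeries ℚ :=
  ∏ i ∈ Finset.range a, (1 + PowerSeries.C ((2 : ℚ) ^ ((a : ℤ) - 1 - 2 * (i : ℤ))) * PowerSeries.X)

/-- The coefficients of the palindromic polynomial. -/
def pc (a i : ℕ) : ℚ := PowerSeries.coeff i (pal a)

/-- Piece PAL. -/
def PalStm : Prop := ∀ a : ℕ,
  (∀ i, a < i → pc a i = 0) ∧ (∀ i, i ≤ a → pc a i = pc a (a - i)) ∧
  PowerSeries.rescale ((2 : ℚ) ^ (a : ℤ)) eS =
    pal a * PowerSeries.rescale ((2 : ℚ) ^ (-(a : ℤ))) eS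

/-- The series `h` along the line `n₀ + ℕ e_k`. -/
def lin (k : ι) (n₀ : ι → ℕ) (h : TS B) : PowerSeries ℚ :=
  PowerSeries.mk (fun s => h (n₀ + Pi.single k s))

/-- Piece PSI: `psi` is a ring homomorphism and acts on lines by rescaled multiplication. -/
def PsiStm : Prop := ∀ (ι : Type) [Fintype ι] [DecidableEq ι] (B : ι → ι → ℤ), Skew B →
  ∀ k : ι,
  (psi B k 1 = 1) ∧ (∀ F G, psi B k (F * G) = psi B k F * psi B k G) ∧
  (∀ F G, psi B k (F - G) = psi B k F - psi B k G) ∧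
  (∀ (F : PowerSeries ℚ) (h : TS B) (n₀ : ι → ℕ), n₀ k = 0 →
    lin k n₀ (psi B k F * h) =
      PowerSeries.rescale ((2 : ℚ) ^ (frm B (Pi.single k 1) n₀)) F * lin k n₀ h) ∧
  (∀ (F : PowerSeries ℚ) (h : TS B) (n₀ : ι → ℕ), n₀ k = 0 →
    lin k n₀ (h * psi B k F) =
      lin k n₀ h * PowerSeries.rescale ((2 : ℚ) ^ (-(frm B (Pi.single k 1) n₀))) F)

/-- Piece LINE: comparison of `h` and `ht` when `ht * E_k = E_k * h`. -/
def LineStm : Prop := ∀ (ι : Type) [Fintype ι] [DecidableEq ι] (B : ι → ι → ℤ), Skew B →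
  ∀ (k : ι) (h ht : TS B),
  (ht * Ek B k = Ek B k * h ↔
    ∀ n₀ : ι → ℕ, n₀ k = 0 →
      (0 ≤ frm B (Pi.single k 1) n₀ → ∀ s, ht (n₀ + Pi.single k s) =
        ∑ i ∈ Finset.range (s + 1),
          pc (frm B (Pi.single k 1) n₀).natAbs i * h (n₀ + Pi.single k (s - i))) ∧
      (frm B (Pi.single k 1) n₀ ≤ 0 → ∀ s, h (n₀ + Pi.single k s) =
        ∑ i ∈ Finset.range (s + 1),
          pc (frm B (Pi.single k 1) n₀).natAbs i * ht (n₀ + Pi.single k (s - i))))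

/-- Coefficients of the logarithm of `eS`. -/
def lc (j : ℕ) : ℚ :=
  ∑ i ∈ Finset.Icc 1 j, ((-1 : ℚ) ^ (i + 1) / i) * PowerSeries.coeff j ((eS - 1) ^ i)

/-- The prescribed logarithmic coefficients. -/
def rho (n : ι → ℕ) : ℚ :=
  if ∃ i : ι, n = Pi.single i (n i) then lc (deg n) else 0

/-- Piece LNE: the logarithmic coefficients of `E_k`. -/
def LnEStm : Prop := (∀ (ι : Type) [Fintype ι] [DecidableEq ι] (B : ι → ι → ℤ), Skew B →
  ∀ (k : ι) (n : ι → ℕ), n ≠ 0 →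
    Ln n (Ek B k) = if n = Pi.single k (n k) then lc (deg n) else 0) ∧ lc 1 ≠ 0

/-- The initial condition at `n` for `g`. -/
def IC (g : TS B) : Prop := g 0 = 1 ∧ ∀ n, n ≠ 0 → Ln n (mid (fn B n) g) = rho n

/-- Piece EX: existence and uniqueness of the consistent element. -/
def ExStm : Prop := ∀ (ι : Type) [Fintype ι] [DecidableEq ι] (B : ι → ι → ℤ), Skew B →
  (∃ g : TS B, IC g) ∧ (∀ g g' : TS B, IC g → IC g' → g = g') ∧
  (∀ g : TS B, IC g → ∀ i, g (Pi.single i 1) ≠ 0)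

/-- Piece IND: the indecomposable exponent lemma. -/
def IndStm : Prop := ∀ (ι : Type) [Fintype ι] [DecidableEq ι] (B : ι → ι → ℤ), Skew B →
  ∀ (h : TS B) (S : AddSubmonoid (ι → ℕ)) (n : ι → ℕ), h 0 = 1 → n ∉ S →
    (∀ a, a < n → h a ≠ 0 → a ∈ S) → Ln n (mid (fn B n) h) = h n

/-- `C₊(a) = ∑ [b_{ik}]₊ a_i`. -/
def Cp (B : ι → ι → ℤ) (k : ι) (a : ι → ℕ) : ℕ := ∑ i, (pos (B i k)).toNat * a i

/-- `C₋(a) = ∑ [-b_{ik}]₊ a_i`. -/
def Cm (B : ι → ι → ℤ) (k : ι) (a : ι → ℕ) : ℕ := ∑ i, (pos (-(B i k))).toNat * a i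

/-- Piece STEP1: the supports of `E_k⁻¹ g` and `g E_k⁻¹`. -/
def Step1Stm : Prop := ∀ (ι : Type) [Fintype ι] [DecidableEq ι] (B : ι → ι → ℤ), Skew B →
  ∀ (k : ι) (g h ht : TS B), IC g → Ek B k * h = g → ht * Ek B k = g →
    (∀ n, h n ≠ 0 → n k ≤ Cp B k n) ∧ (∀ n, ht n ≠ 0 → n k ≤ Cm B k n)

/-! ### Transport -/

/-- The transport of series along an additive involution `σ` of a submonoid `S`. -/
def push (B' : ι → ι → ℤ) (S : AddSubmonoid (ι → ℕ)) (σ : (ι → ℕ) → (ι → ℕ)) (f : TS B) :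
    TS B' := by
  classical
  exact ⟨fun n => if n ∈ S then f (σ n) else 0⟩

/-- The hypotheses on a transport. -/
structure Tr (B B' : ι → ι → ℤ) (S : AddSubmonoid (ι → ℕ)) (σ : (ι → ℕ) → (ι → ℕ)) : Prop where
  maps : ∀ a ∈ S, σ a ∈ S
  invol : ∀ a ∈ S, σ (σ a) = a
  add : ∀ a ∈ S, ∀ b ∈ S, σ (a + b) = σ a + σ b
  form : ∀ a ∈ S, ∀ b ∈ S, frm B' (σ a) (σ b) = frm B a b

/-- Piece TR: transport of middle factors and of logarithmic coefficients. -/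
def TrStm : Prop := ∀ (ι : Type) [Fintype ι] [DecidableEq ι] (B B' : ι → ι → ℤ)
  (S : AddSubmonoid (ι → ℕ)) (σ : (ι → ℕ) → (ι → ℕ)), Tr B B' S σ →
  (∀ f g : TS B, SuppIn S f → SuppIn S g → push B' S σ (f * g) = push B' S σ f * push B' S σ g) ∧
  (push B' S σ (1 : TS B) = 1) ∧
  (∀ f : TS B, f 0 = 1 → (push B' S σ f) 0 = 1 ∧ SuppIn S (push B' S σ f)) ∧
  (∀ (m m' : ι → ℤ), (∀ a ∈ S, ev m' (σ a) = ev m a) → ∀ f : TS B, f 0 = 1 → SuppIn S f →
    mid m' (push B' S σ f) = push B' S σ (mid m f)) ∧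
  (∀ f : TS B, f 0 = 1 → SuppIn S f → ∀ n ∈ S, Ln (σ n) (push B' S σ f) = Ln n f)

/-- The submonoid `{a_k ≤ C₊(a)}`. -/
def Sp (B : ι → ι → ℤ) (k : ι) : AddSubmonoid (ι → ℕ) where
  carrier := {a | a k ≤ Cp B k a}
  zero_mem' := by simp [Cp]
  add_mem' := fun {a b} ha hb => by
    simp only [Cp, Set.mem_ofPred_eq, Pi.add_apply, mul_add, Finset.sum_add_distrib] at ha hb ⊢
    omega

/-- The submonoid `{a_k ≤ C₋(a)}`. -/
def Sm (B : ι → ι → ℤ) (k : ι) : AddSubmonoid (ι → ℕ) where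
  carrier := {a | a k ≤ Cm B k a}
  zero_mem' := by simp [Cm]
  add_mem' := fun {a b} ha hb => by
    simp only [Cm, Set.mem_ofPred_eq, Pi.add_apply, mul_add, Finset.sum_add_distrib] at ha hb ⊢
    omega

/-- `σ₊`. -/
def sgp (B : ι → ι → ℤ) (k : ι) (a : ι → ℕ) : ι → ℕ := Function.update a k (Cp B k a - a k)

/-- `σ₋`. -/
def sgm (B : ι → ι → ℤ) (k : ι) (a : ι → ℕ) : ι → ℕ := Function.update a k (Cm B k a - a k)

/-- Piece SG: the two concrete transports. -/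
def SgStm : Prop := ∀ (ι : Type) [Fintype ι] [DecidableEq ι] (B : ι → ι → ℤ), Skew B →
  ∀ k : ι,
  Tr B (mutB k B) (Sp B k) (sgp B k) ∧ Tr B (mutB k B) (Sm B k) (sgm B k) ∧
  (Sm (mutB k B) k = Sp B k) ∧ (Sp (mutB k B) k = Sm B k) ∧
  (∀ m : ι → ℤ, 0 ≤ m k → ∀ a ∈ Sp B k, ev (mutR k B m) (sgp B k a) = ev m a) ∧
  (∀ m : ι → ℤ, m k ≤ 0 → ∀ a ∈ Sm B k, ev (mutR k B m) (sgm B k a) = ev m a) ∧
  (∀ a n, a ∈ Sp B k → n ∈ Sp B k →
    ev (fn (mutB k B) (sgp B k n)) (sgp B k a) = ev (fn B n) a) ∧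
  (∀ a n, a ∈ Sm B k → n ∈ Sm B k →
    ev (fn (mutB k B) (sgm B k n)) (sgm B k a) = ev (fn B n) a) ∧
  (∀ n ∈ Sp B k, frm (mutB k B) (Pi.single k 1) (sgp B k n) = - frm B (Pi.single k 1) n) ∧
  (∀ n ∈ Sm B k, frm (mutB k B) (Pi.single k 1) (sgm B k n) = - frm B (Pi.single k 1) n) ∧
  (∀ n ∈ Sp B k, n ≠ 0 → 0 ≤ frm B (Pi.single k 1) n → rho (sgp B k n) = rho n) ∧
  (∀ n ∈ Sm B k, n ≠ 0 → frm B (Pi.single k 1) n ≤ 0 → rho (sgm B k n) = rho n)

/-- Piece STEP2: the mutation rule of the consistent element. -/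
def Step2Stm : Prop := ∀ (ι : Type) [Fintype ι] [DecidableEq ι] (B : ι → ι → ℤ), Skew B →
  ∀ (k : ι) (g h ht : TS B), IC g → Ek B k * h = g → ht * Ek B k = g →
    Ek (mutB k B) k * push (mutB k B) (Sm B k) (sgm B k) ht =
      push (mutB k B) (Sp B k) (sgp B k) h * Ek (mutB k B) k ∧
    IC (push (mutB k B) (Sp B k) (sgp B k) h * Ek (mutB k B) k)

/-- Piece FIN: no coordinate of the image of a positive vector vanishes. -/
def FinStm : Prop := ∀ (ι : Type) [Fintype ι] [DecidableEq ι], NoZero ι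

end

end Pool.Agent.R60.SC
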