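import Mathlib
import Pool.Agent.R60.SC.Stm

/-!
# Project SC, piece LINE
-/

namespace Pool.Agent.R60.SC

noncomputable section

namespace LineAux

variable {ι : Type} [Fintype ι] [DecidableEq ι] {B : ι → ι → ℤ}

omit [Fintype ι] in
/-- decomposition of an exponent vector along the line in direction `k` -/
lemma decomp (k : ι) (n : ι → ℕ) : n = Function.update n k 0 + Pi.single k (n k) := by
  funext i
  by_cases hi : i = k
  · subst hi
    simp
  · simp [Function.update_of_ne hi, Pi.single_eq_of_ne hi]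

omit [Fintype ι] in
lemma lin_coeff (k : ι) (n₀ : ι → ℕ) (h : TS B) (s : ℕ) :
    PowerSeries.coeff s (lin k n₀ h) = h (n₀ + Pi.single k s) := by
  simp [lin]

/-- two series agree iff they agree on all lines -/
lemma eq_iff (k : ι) (f g : TS B) :
    f = g ↔ ∀ n₀ : ι → ℕ, n₀ k = 0 → lin k n₀ f = lin k n₀ g := by
  constructor
  · rintro rfl _ _
    rfl
  · intro h
    ext n
    have h1 := congrArg (PowerSeries.coeff (n k)) (h (Function.update n k 0) (by simp))
    rw [lin_coeff, lin_coeff, ← decomp k n] at h1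
    exact h1

omit [Fintype ι] in
/-- the product with a palindromic polynomial in coefficients -/
lemma pal_mul_iff (k : ι) (n₀ : ι → ℕ) (f g : TS B) (a : ℕ) :
    lin k n₀ f = pal a * lin k n₀ g ↔ ∀ s, f (n₀ + Pi.single k s) =
      ∑ i ∈ Finset.range (s + 1), pc a i * g (n₀ + Pi.single k (s - i)) := by
  have h1 : ∀ s, PowerSeries.coeff s (pal a * lin k n₀ g) =
      ∑ i ∈ Finset.range (s + 1), pc a i * g (n₀ + Pi.single k (s - i)) := by
    intro s
    rw [PowerSeries.coeff_mul]
    have h2 := Finset.Nat.sum_antidiagonal_eq_sum_range_succ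
      (fun i j => PowerSeries.coeff i (pal a) * PowerSeries.coeff j (lin k n₀ g)) s
    rw [h2]
    refine Finset.sum_congr rfl fun i _ => ?_
    rw [lin_coeff]
    rfl
  constructor
  · intro h s
    rw [← h1, ← h, lin_coeff]
  · intro h
    ext s
    rw [h1, ← h, lin_coeff]

lemma resc_ne (c : ℚ) : PowerSeries.rescale c eS ≠ 0 := by
  intro h
  have h1 := congrArg (PowerSeries.coeff 0) h
  rw [PowerSeries.coeff_rescale] at h1
  simp [eS, eC] at h1

end LineAux

open LineAux in
theorem line_main : PalStm → PsiStm → LineStm := by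
  intro hpal hpsi ι _ _ B hB k h ht
  obtain ⟨-, -, -, hl, hr⟩ := hpsi ι B hB k
  rw [eq_iff k]
  refine forall_congr' fun n₀ => forall_congr' fun h0 => ?_
  rw [show Ek B k = psi B k eS from rfl, hl eS h n₀ h0, hr eS ht n₀ h0]
  set a : ℤ := frm B (Pi.single k 1) n₀ with ha
  have hP : 0 ≤ a → (lin k n₀ ht * PowerSeries.rescale ((2 : ℚ) ^ (-a)) eS =
      PowerSeries.rescale ((2 : ℚ) ^ a) eS * lin k n₀ h ↔
      lin k n₀ ht = pal a.natAbs * lin k n₀ h) := by
    intro h1
    have e : ((a.natAbs : ℕ) : ℤ) = a := Int.natAbs_of_nonneg h1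
    have h2 := (hpal a.natAbs).2.2
    rw [e] at h2
    rw [h2]
    constructor
    · intro h3
      apply mul_right_cancel₀ (resc_ne ((2 : ℚ) ^ (-a)))
      rw [h3]
      ring
    · intro h3
      rw [h3]
      ring
  have hQ : a ≤ 0 → (lin k n₀ ht * PowerSeries.rescale ((2 : ℚ) ^ (-a)) eS =
      PowerSeries.rescale ((2 : ℚ) ^ a) eS * lin k n₀ h ↔
      lin k n₀ h = pal a.natAbs * lin k n₀ ht) := by
    intro h1
    have e : ((a.natAbs : ℕ) : ℤ) = -a := by omega
    have h2 := (hpal a.natAbs).2.2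
    rw [e, neg_neg] at h2
    rw [h2]
    constructor
    · intro h3
      apply mul_right_cancel₀ (resc_ne ((2 : ℚ) ^ a))
      rw [mul_comm, ← h3]
      ring
    · intro h3
      rw [h3]
      ring
  rw [← pal_mul_iff, ← pal_mul_iff]
  constructor
  · intro h1
    exact ⟨fun h2 => (hP h2).1 h1, fun h2 => (hQ h2).1 h1⟩
  · rintro ⟨h1, h2⟩
    rcases le_total 0 a with h3 | h3
    · exact (hP h3).2 (h1 h3)
    · exact (hQ h3).2 (h2 h3)

end

end Pool.Agent.R60.SC
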