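import Pool.Agent.R60.SC.Stm

/-!
# Project SC, piece LN: properties of the logarithmic coefficient
-/

namespace Pool.Agent.R60.SC

noncomputable section

set_option linter.unusedSectionVars false

variable {ι : Type} [Fintype ι] [DecidableEq ι] {B : ι → ι → ℤ}

/-- Products of series without constant term are determined by the lower values. -/
theorem ln_mul_local {n : ι → ℕ} {x x' y y' : TS B} (hx : x 0 = 0) (hx' : x' 0 = 0)
    (hy : y 0 = 0) (hy' : y' 0 = 0) (h1 : Below n x x') (h2 : Below n y y') :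
    (x * y) n = (x' * y') n := by
  have e : ∀ u : TS B, u 0 = 0 → (1 + u) 0 = 1 := by
    intro u hu
    simp [hu]
  have b : ∀ u u' : TS B, Below n u u' → Below n (1 + u) (1 + u') := by
    intro u u' hu a ha
    simp [hu a ha]
  have h := mul_local (e x hx) (e x' hx') (e y hy) (e y' hy') (b x x' h1) (b y y' h2)
  have k : ∀ u v : TS B, ((1 + u) * (1 + v)) n - ((1 + u) n + (1 + v) n) =
      (u * v) n - (1 : TS B) n := by
    intro u v
    have : (1 + u) * (1 + v) = 1 + u + v + u * v := by noncomm_ring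
    rw [this]
    simp only [add_apply]
    ring
  rw [k, k] at h
  linarith

theorem ln_pow_zero {x : TS B} (hx : x 0 = 0) (j : ℕ) : (x ^ (j + 1)) 0 = 0 := by
  rw [pow_succ, mul_apply_zero, hx, mul_zero]

theorem ln_below_pow {n : ι → ℕ} {x x' : TS B} (h : Below n x x') (j : ℕ) :
    Below n (x ^ j) (x' ^ j) := by
  induction j with
  | zero =>
    intro a _
    simp
  | succ j ih =>
    rw [pow_succ, pow_succ]
    exact ih.mul h

/-- The degree derivation. -/
def ln_D (f : TS B) : TS B := ⟨fun n => (deg n : ℚ) * f n⟩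

theorem ln_D_apply (f : TS B) (n : ι → ℕ) : ln_D f n = (deg n : ℚ) * f n := rfl

theorem ln_D_mul (f g : TS B) : ln_D (f * g) = ln_D f * g + f * ln_D g := by
  ext n
  rw [ln_D_apply, add_apply, mul_apply, mul_apply, mul_apply, Finset.mul_sum,
    ← Finset.sum_add_distrib]
  refine Finset.sum_congr rfl ?_
  rintro ⟨a, b⟩ hp
  simp only [mem_adj] at hp
  rw [ln_D_apply, ln_D_apply, ← hp, deg_add]
  push_cast
  ring

theorem ln_D_one : ln_D (1 : TS B) = 0 := by
  ext n
  rw [ln_D_apply, zero_apply]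
  by_cases h : n = 0
  · simp [h]
  · simp [one_apply_ne h]

theorem ln_D_sub (f g : TS B) : ln_D (f - g) = ln_D f - ln_D g := by
  ext n
  simp only [ln_D_apply, sub_apply]
  ring

theorem ln_D_supp {S : AddSubmonoid (ι → ℕ)} {f : TS B} (hf : SuppIn S f) : SuppIn S (ln_D f) := by
  intro a ha
  apply hf
  intro h
  apply ha
  rw [ln_D_apply, h, mul_zero]

theorem ln_mul_untwist (hB : Skew B) {n : ι → ℕ} {x : TS B} (y : TS B)
    (hx : SuppIn (evKer (fn B n)) x) : (x * y) n = ∑ p ∈ adj n, x p.1 * y p.2 := by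
  rw [mul_apply]
  refine Finset.sum_congr rfl ?_
  rintro ⟨a, b⟩ hp
  simp only [mem_adj] at hp
  by_cases h : x a = 0
  · simp [h]
  · have h1 := hx a h
    rw [mem_evKer, ev_fn, ← hp, frm_add_right, frm_self hB, zero_add] at h1
    simp [h1]

theorem ln_trace (hB : Skew B) {n : ι → ℕ} {x y : TS B}
    (hx : SuppIn (evKer (fn B n)) x) (hy : SuppIn (evKer (fn B n)) y) :
    (x * y) n = (y * x) n := by
  rw [ln_mul_untwist hB y hx, ln_mul_untwist hB x hy]
  refine Finset.sum_nbij' Prod.swap Prod.swap ?_ ?_ ?_ ?_ ?_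
  · rintro ⟨a, b⟩ hp
    simp only [mem_adj, Prod.swap_prod_mk] at hp ⊢
    rw [add_comm]
    exact hp
  · rintro ⟨a, b⟩ hp
    simp only [mem_adj, Prod.swap_prod_mk] at hp ⊢
    rw [add_comm]
    exact hp
  · rintro ⟨a, b⟩ _
    rfl
  · rintro ⟨a, b⟩ _
    rfl
  · rintro ⟨a, b⟩ _
    simp only [Prod.swap_prod_mk]
    ring

theorem ln_D_pow (hB : Skew B) {n : ι → ℕ} {x : TS B} (hx : SuppIn (evKer (fn B n)) x) (j : ℕ) :
    ∀ k, (ln_D (x ^ j) * x ^ k) n = (j : ℚ) * (x ^ (j + k - 1) * ln_D x) n := by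
  induction j with
  | zero =>
    intro k
    rw [pow_zero, ln_D_one, zero_mul]
    simp
  | succ j ih =>
    intro k
    have h1 : ln_D (x ^ (j + 1)) * x ^ k =
        ln_D (x ^ j) * x ^ (k + 1) + x ^ j * (ln_D x * x ^ k) := by
      rw [pow_succ, ln_D_mul, add_mul, mul_assoc, ← pow_succ' x k, mul_assoc]
    have h2 : (x ^ j * (ln_D x * x ^ k)) n = (x ^ (j + k) * ln_D x) n := by
      rw [ln_trace hB (hx.pow j) ((ln_D_supp hx).mul (hx.pow k)), mul_assoc, ← pow_add,
        ln_trace hB (ln_D_supp hx) (hx.pow _), add_comm k j]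
    rw [h1, add_apply, ih (k + 1), h2]
    have e1 : j + (k + 1) - 1 = j + k := by omega
    have e2 : j + 1 + k - 1 = j + k := by omega
    rw [e1, e2]
    push_cast
    ring

theorem ln_pow_deg {x : TS B} (hx : x 0 = 0) (j : ℕ) : ∀ a, (x ^ j) a ≠ 0 → j ≤ deg a := by
  induction j with
  | zero => intro a _; exact Nat.zero_le _
  | succ j ih =>
    intro a ha
    rw [pow_succ, mul_apply] at ha
    obtain ⟨⟨b, c⟩, hp, hne⟩ := Finset.exists_ne_zero_of_sum_ne_zero ha
    simp only [mem_adj] at hp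
    have hb : (x ^ j) b ≠ 0 := by
      intro h
      apply hne
      simp [h]
    have hc : x c ≠ 0 := by
      intro h
      apply hne
      simp [h]
    have hc0 : c ≠ 0 := by
      rintro rfl
      exact hc hx
    have h1 := ih b hb
    have h2 : deg c ≠ 0 := fun h => hc0 (deg_eq_zero.1 h)
    rw [← hp, deg_add]
    omega

/-- The logarithmic coefficient as a trace. -/
theorem ln_eq (hB : Skew B) {n : ι → ℕ} {f F : TS B} (hf0 : f 0 = 1)
    (hf : SuppIn (evKer (fn B n)) f) (hF : f * F = 1) :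
    (deg n : ℚ) * Ln n f = (F * ln_D f) n := by
  set x := f - 1 with hx
  have hx0 : x 0 = 0 := by simp [hx, hf0]
  have hxN : SuppIn (evKer (fn B n)) x := hf.sub SuppIn.one
  have hDx : ln_D x = ln_D f := by rw [hx, ln_D_sub, ln_D_one, sub_zero]
  -- the sum as a geometric sum
  have h1 : (deg n : ℚ) * Ln n f = ((∑ i ∈ Finset.range (deg n), (-x) ^ i) * ln_D f) n := by
    have hsum : ∀ (s : Finset ℕ) (w : ℕ → TS B), (∑ i ∈ s, w i) n = ∑ i ∈ s, (w i) n := by
      intro s w
      induction s using Finset.cons_induction with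
      | empty => simp
      | cons a s ha ih => rw [Finset.sum_cons, Finset.sum_cons, add_apply, ih]
    have hneg : ∀ (i : ℕ) (y : TS B), ((-x) ^ i * y) n = (-1 : ℚ) ^ i * (x ^ i * y) n := by
      intro i y
      rcases Nat.even_or_odd i with h | h
      · rw [h.neg_pow, h.neg_one_pow, one_mul]
      · rw [h.neg_pow, h.neg_one_pow, neg_mul, neg_apply, neg_one_mul]
    have hIcc : Finset.Icc 1 (deg n) = Finset.Ico 1 (deg n + 1) := by
      ext i
      simp only [Finset.mem_Ico, Finset.mem_Icc]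
      omega
    rw [Finset.sum_mul, hsum, Ln, Finset.mul_sum, hIcc, Finset.sum_Ico_eq_sum_range,
      Nat.add_sub_cancel]
    refine Finset.sum_congr rfl fun i _ => ?_
    rw [hneg, ← hx, ← hDx]
    have h2 := ln_D_pow hB hxN (1 + i) 0
    rw [pow_zero, mul_one, ln_D_apply] at h2
    have e1 : 1 + i + 0 - 1 = i := by omega
    rw [e1] at h2
    have h3 : ((1 + i : ℕ) : ℚ) ≠ 0 := by positivity
    calc (deg n : ℚ) * ((-1 : ℚ) ^ (1 + i + 1) / ((1 + i : ℕ) : ℚ) * (x ^ (1 + i)) n)
        = (-1 : ℚ) ^ (1 + i + 1) / ((1 + i : ℕ) : ℚ) * ((deg n : ℚ) * (x ^ (1 + i)) n) := by ring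
      _ = (-1 : ℚ) ^ (1 + i + 1) / ((1 + i : ℕ) : ℚ) * (((1 + i : ℕ) : ℚ) * (x ^ i * ln_D x) n) := by
          rw [h2]
      _ = (-1 : ℚ) ^ i * (x ^ i * ln_D x) n := by
          field_simp
          ring
  rw [h1]
  -- the geometric sum is the inverse up to terms of high degree
  have h2 : (∑ i ∈ Finset.range (deg n), (-x) ^ i) * f = 1 - (-x) ^ (deg n) := by
    have h3 := geom_sum_mul_neg (-x) (deg n)
    have h4 : (1 : TS B) - -x = f := by rw [hx]; noncomm_ring
    rw [h4] at h3
    exact h3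
  have h3 : (∑ i ∈ Finset.range (deg n), (-x) ^ i) = F - (-x) ^ (deg n) * F := by
    calc (∑ i ∈ Finset.range (deg n), (-x) ^ i)
        = (∑ i ∈ Finset.range (deg n), (-x) ^ i) * (f * F) := by rw [hF, mul_one]
      _ = ((∑ i ∈ Finset.range (deg n), (-x) ^ i) * f) * F := by rw [mul_assoc]
      _ = F - (-x) ^ (deg n) * F := by rw [h2, sub_mul, one_mul]
  rw [h3, sub_mul, sub_apply, mul_assoc]
  have h4 : ((-x) ^ (deg n) * (F * ln_D f)) n = 0 := by
    rw [mul_apply]
    apply Finset.sum_eq_zero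
    rintro ⟨a, b⟩ hp
    simp only [mem_adj] at hp
    by_cases ha : ((-x) ^ (deg n)) a = 0
    · simp [ha]
    · have h5 := ln_pow_deg (x := -x) (by simp [hx0]) (deg n) a ha
      rw [← hp, deg_add] at h5
      have h6 : b = 0 := deg_eq_zero.1 (by omega)
      have h7 : (F * ln_D f) 0 = 0 := by
        rw [mul_apply_zero, ln_D_apply]
        simp
      simp only
      rw [h6, h7]
      simp
  rw [h4, sub_zero]

theorem ln_main : InvStm → LnStm := by
  intro hInv ι _ _ B
  refine ⟨?_, ?_, ?_⟩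
  · intro f S n hf0 hf hn
    rw [Ln]
    apply Finset.sum_eq_zero
    intro j _
    have h1 : ((f - 1) ^ j) n = 0 := by
      by_contra h
      exact hn ((hf.sub SuppIn.one).pow j n h)
    rw [h1, mul_zero]
  · intro f f' n hn hf0 hf0' h
    have hx0 : (f - 1) 0 = 0 := by simp [hf0]
    have hx0' : (f' - 1) 0 = 0 := by simp [hf0']
    have hb : Below n (f - 1) (f' - 1) := by
      intro a ha
      simp [h a ha]
    have hd : 1 ≤ deg n := by
      have : deg n ≠ 0 := fun h => hn (deg_eq_zero.1 h)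
      omega
    have key : Ln n f - Ln n f' = f n - f' n := by
      rw [Ln, Ln, ← Finset.sum_sub_distrib, Finset.sum_eq_single 1]
      · simp only [pow_one, sub_apply]
        norm_num
      · intro j hj hj1
        rw [Finset.mem_Icc] at hj
        obtain ⟨i, rfl⟩ : ∃ i, j = i + 2 := ⟨j - 2, by omega⟩
        have h1 : ((f - 1) ^ (i + 2)) n = ((f' - 1) ^ (i + 2)) n := by
          rw [pow_succ (f - 1) (i + 1), pow_succ (f' - 1) (i + 1)]
          exact ln_mul_local (ln_pow_zero hx0 i) (ln_pow_zero hx0' i) hx0 hx0'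
            (ln_below_pow hb (i + 1)) hb
        rw [h1, sub_self]
      · intro h1
        exact absurd (Finset.mem_Icc.2 ⟨le_rfl, hd⟩) h1
    linarith
  · intro hB f g n hf0 hg0 hf hg
    by_cases hn : n = 0
    · subst hn
      simp [Ln]
    have hd : (deg n : ℚ) ≠ 0 := by
      have : deg n ≠ 0 := fun h => hn (deg_eq_zero.1 h)
      exact_mod_cast this
    have hfN : SuppIn (evKer (fn B n)) f := by
      intro a ha
      rw [mem_evKer, ev_fn]
      exact hf a ha
    have hgN : SuppIn (evKer (fn B n)) g := by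
      intro a ha
      rw [mem_evKer, ev_fn]
      exact hg a ha
    obtain ⟨F, hF0, hfF, hFf, hFs⟩ := hInv ι B f hf0
    obtain ⟨H, hH0, hgH, hHg, hHs⟩ := hInv ι B g hg0
    have hFN := hFs _ hfN
    have hHN := hHs _ hgN
    have e1 := ln_eq hB hf0 hfN hfF
    have e2 := ln_eq hB hg0 hgN hgH
    have e3 : (deg n : ℚ) * Ln n (f * g) = ((H * F) * ln_D (f * g)) n := by
      apply ln_eq hB (by simp [hf0, hg0]) (hfN.mul hgN)
      calc f * g * (H * F) = f * (g * H) * F := by noncomm_ring
        _ = 1 := by rw [hgH, mul_one, hfF]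
    have e4 : (H * F) * ln_D (f * g) = H * ((F * ln_D f) * g) + H * ln_D g := by
      rw [ln_D_mul]
      calc (H * F) * (ln_D f * g + f * ln_D g)
          = H * ((F * ln_D f) * g) + H * (F * f) * ln_D g := by noncomm_ring
        _ = _ := by rw [hFf, mul_one]
    have e5 : (H * ((F * ln_D f) * g)) n = (F * ln_D f) n := by
      have hN := hFN.mul (ln_D_supp hfN)
      rw [ln_trace hB hHN (hN.mul hgN), mul_assoc, hgH, mul_one]
    rw [e4, add_apply, e5, ← e1, ← e2] at e3
    have e6 : (deg n : ℚ) * (Ln n (f * g) - (Ln n f + Ln n g)) = 0 := by linarith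
    rcases mul_eq_zero.1 e6 with h | h
    · exact absurd h hd
    · linarith

end

end Pool.Agent.R60.SC
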