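import Pool.Agent.R60.SC.Stm

/-!
# Project SC: the logarithmic coefficients of `E_k`
-/

set_option autoImplicit false

namespace Pool.Agent.R60.SC

noncomputable section

theorem lne_main : PsiStm → LnEStm := by
  intro hpsi
  refine ⟨?_, ?_⟩
  · intro ι _ _ B hB k n _
    obtain ⟨h1, h2, h3, -, -⟩ := hpsi ι B hB k
    have hpow : ∀ j : ℕ, (Ek B k - 1) ^ j = psi B k ((eS - 1) ^ j) := by
      intro j
      induction j with
      | zero => rw [pow_zero, pow_zero, h1]
      | succ j ih =>
        rw [pow_succ, pow_succ, h2, ← ih, h3, h1]
        rfl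
    unfold Ln
    by_cases hn : n = Pi.single k (n k)
    · rw [if_pos hn]
      have hd : deg n = n k := by
        conv_lhs => rw [hn]
        unfold deg
        rw [Finset.sum_pi_single']
        simp
      unfold lc
      rw [hd]
      refine Finset.sum_congr rfl fun j _ => ?_
      rw [hpow]
      congr 1
      exact if_pos hn
    · rw [if_neg hn]
      refine Finset.sum_eq_zero fun j _ => ?_
      rw [hpow]
      have h4 : (psi B k ((eS - 1) ^ j)) n = 0 := if_neg hn
      rw [h4, mul_zero]
  · have h1 : lc 1 = 2 / 3 := by
      unfold lc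
      rw [Finset.Icc_self, Finset.sum_singleton, pow_one, map_sub]
      have h2 : PowerSeries.coeff 1 eS = 2 / 3 := by
        unfold eS
        rw [PowerSeries.coeff_mk]
        norm_num [eC]
      have h3 : PowerSeries.coeff 1 (1 : PowerSeries ℚ) = 0 := by
        rw [PowerSeries.coeff_one]
        simp
      rw [h2, h3]
      norm_num
    rw [h1]
    norm_num

end

end Pool.Agent.R60.SC
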