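import Pool.Agent.R60.SC.Comb

/-! SC-M (helper164): dictionary between quivers and matrices. -/

namespace Pool.Agent.R60.SC

namespace M

theorem pos_sub_of {a b : ℕ} (h : a = 0 ∨ b = 0) : pos ((a : ℤ) - (b : ℤ)) = a := by
  unfold pos
  rcases h with h | h <;> rw [h] <;> simp

theorem mat_mut {X : Type} [DecidableEq X] (fz : X → Bool) (k : X) (R : Quiv X) (x y : X)
    (hf : ¬ (fz x = true ∧ fz y = true)) :
    matQ (R.mut fz k) x y = mutB k (matQ R) x y := by
  have hf' : ¬ (fz y = true ∧ fz x = true) := fun h => hf ⟨h.2, h.1⟩
  have hm : matQ (R.mut fz k) x y =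
      (step2 k (step1 k R.arr) x y : ℤ) - (step2 k (step1 k R.arr) y x : ℤ) := by
    show ((step3 fz (step2 k (step1 k R.arr)) x y : ℕ) : ℤ) -
      ((step3 fz (step2 k (step1 k R.arr)) y x : ℕ) : ℤ) = _
    unfold step3
    rw [if_neg hf, if_neg hf']
    generalize step2 k (step1 k R.arr) x y = a
    generalize step2 k (step1 k R.arr) y x = b
    omega
  rw [hm]
  unfold mutB
  by_cases hx : x = k
  · subst hx
    rw [if_pos (Or.inl rfl)]
    unfold step2
    rw [if_pos (Or.inl rfl), if_pos (Or.inr rfl)]
    unfold step1
    rw [R.loopless x]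
    unfold matQ
    simp
  · by_cases hy : y = k
    · subst hy
      rw [if_pos (Or.inr rfl)]
      unfold step2
      rw [if_pos (Or.inr rfl), if_pos (Or.inl rfl)]
      unfold step1
      rw [R.loopless y]
      unfold matQ
      simp
    · rw [if_neg (by rintro (h | h) <;> contradiction)]
      unfold step2
      rw [if_neg (by rintro (h | h) <;> contradiction), if_neg (by rintro (h | h) <;> contradiction)]
      unfold step1
      have e1 : pos (matQ R x k) = R.arr x k := pos_sub_of (R.no_two_cycle x k)
      have e2 : pos (matQ R k y) = R.arr k y := pos_sub_of (R.no_two_cycle k y)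
      have e3 : pos (-(matQ R x k)) = R.arr k x := by
        unfold matQ
        rw [neg_sub]
        exact pos_sub_of (R.no_two_cycle k x)
      have e4 : pos (-(matQ R k y)) = R.arr y k := by
        unfold matQ
        rw [neg_sub]
        exact pos_sub_of (R.no_two_cycle y k)
      rw [e1, e2, e3, e4]
      unfold matQ
      push_cast
      ring

theorem ext_mat {X : Type} (Q R : Quiv X) (h : matQ Q = matQ R) : Q = R := by
  apply Quiv.ext
  funext i j
  have h1 : matQ Q i j = matQ R i j := by rw [h]
  unfold matQ at h1
  rcases Q.no_two_cycle i j with h2 | h2 <;> rcases R.no_two_cycle i j with h3 | h3 <;> omega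

theorem mutB_mutB {X : Type} [DecidableEq X] (k : X) (B : X → X → ℤ) :
    mutB k (mutB k B) = B := by
  funext i j
  by_cases hi : i = k
  · simp [mutB, hi]
  · by_cases hj : j = k
    · simp [mutB, hj]
    · simp [mutB, hi, hj]

theorem runB_append {X : Type} [DecidableEq X] (w : List X) (k : X) (B : X → X → ℤ) :
    runB (w ++ [k]) B = mutB k (runB w B) := by
  induction w generalizing B with
  | nil => rfl
  | cons a w ih => exact ih (mutB a B)

theorem runR_append {X : Type} [DecidableEq X] (w : List X) (k : X) (B : X → X → ℤ) (r : X → ℤ) :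
    runR (w ++ [k]) B r = mutR k (runB w B) (runR w B r) := by
  induction w generalizing B r with
  | nil => rfl
  | cons a w ih => exact ih (mutB a B) (mutR a B r)

theorem inv {V : Type} [DecidableEq V] (Q : Quiv V) (w : List V) :
    (∀ i j, matQ (afterWord w Q) (Sum.inl i) (Sum.inl j) = runB w (matQ Q) i j) ∧
    (∀ i j, matQ (afterWord w Q) (Sum.inl i) (Sum.inr j) = cRow w (matQ Q) j i) := by
  induction w using List.reverseRecOn with
  | nil =>
    constructor
    · intro i j
      rfl
    · intro i j
      show (((if i = j then 1 else 0 : ℕ)) : ℤ) - ((0 : ℕ) : ℤ) = (Pi.single j 1 : V → ℤ) i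
      by_cases h : i = j
      · subst h
        simp
      · rw [if_neg h, Pi.single_eq_of_ne h]
        rfl
  | append_singleton w k ih =>
    obtain ⟨ih1, ih2⟩ := ih
    have he : afterWord (w ++ [k]) Q = (afterWord w Q).mut isFz (Sum.inl k) := by
      unfold afterWord
      rw [List.foldl_append]
      rfl
    constructor
    · intro i j
      rw [he, mat_mut isFz (Sum.inl k) _ _ _ (by simp [isFz]), runB_append]
      unfold mutB
      rw [ih1, ih1, ih1]
      by_cases hi : i = k
      · rw [if_pos (Or.inl (by rw [hi])), if_pos (Or.inl hi)]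
      · by_cases hj : j = k
        · rw [if_pos (Or.inr (by rw [hj])), if_pos (Or.inr hj)]
        · rw [if_neg (by rintro (h | h) <;> simp_all), if_neg (by rintro (h | h) <;> contradiction)]
    · intro i j
      rw [he, mat_mut isFz (Sum.inl k) _ _ _ (by simp [isFz])]
      unfold cRow at ih2 ⊢
      rw [runR_append]
      unfold mutB mutR
      rw [ih1, ih2, ih2]
      by_cases hi : i = k
      · subst hi
        rw [if_pos (Or.inl rfl), if_pos rfl]
      · rw [if_neg (by rintro (h | h) <;> simp_all), if_neg hi]

end M

theorem m_main : MStm := by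
  intro V _ _ Q
  refine ⟨?_, ?_, ?_, ?_⟩
  · intro i j
    unfold matQ
    ring
  · intro k
    funext i j
    exact M.mat_mut _ _ _ _ _ (by simp)
  · intro k
    apply M.ext_mat
    have h1 : ∀ R : Quiv V, matQ (R.mut (fun _ => false) k) = mutB k (matQ R) := by
      intro R
      funext i j
      exact M.mat_mut _ _ _ _ _ (by simp)
    rw [h1, h1, M.mutB_mutB]
  · intro w i j
    exact (M.inv Q w).2 i j

end Pool.Agent.R60.SC
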