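import Mathlib
import Pool.Agent.R60.SC.Stm

/-!
# Project SC: the middle factor
-/

namespace Pool.Agent.R60.SC

noncomputable section

set_option linter.unusedSectionVars false

variable {ι : Type} [Fintype ι] [DecidableEq ι] {B : ι → ι → ℤ}

theorem UZ.suppIn {m : ι → ℤ} {f : TS B} (h : UZ m f) : SuppIn (evKer m) f := fun a ha =>
  h.2 a ha

theorem UP.mul {m : ι → ℤ} {f g : TS B} (hf : UP m f) (hg : UP m g) : UP m (f * g) := by
  refine ⟨by rw [mul_apply_zero, hf.1, hg.1, one_mul], fun n hn hne => ?_⟩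
  rw [mul_apply] at hne
  obtain ⟨⟨a, b⟩, hp, hne'⟩ := Finset.exists_ne_zero_of_sum_ne_zero hne
  simp only [mem_adj] at hp
  have h1 : f a ≠ 0 := fun h => hne' (by simp [h])
  have h2 : g b ≠ 0 := fun h => hne' (by simp [h])
  rw [← hp, ev_add]
  by_cases ha : a = 0
  · by_cases hb : b = 0
    · exact absurd (by rw [← hp, ha, hb, add_zero]) hn
    · rw [ha, ev_zero, zero_add]
      exact hg.2 b hb h2
  · by_cases hb : b = 0
    · rw [hb, ev_zero, add_zero]
      exact hf.2 a ha h1
    · exact add_pos (hf.2 a ha h1) (hg.2 b hb h2)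

theorem UN.mul {m : ι → ℤ} {f g : TS B} (hf : UN m f) (hg : UN m g) : UN m (f * g) := by
  refine ⟨by rw [mul_apply_zero, hf.1, hg.1, one_mul], fun n hn hne => ?_⟩
  rw [mul_apply] at hne
  obtain ⟨⟨a, b⟩, hp, hne'⟩ := Finset.exists_ne_zero_of_sum_ne_zero hne
  simp only [mem_adj] at hp
  have h1 : f a ≠ 0 := fun h => hne' (by simp [h])
  have h2 : g b ≠ 0 := fun h => hne' (by simp [h])
  rw [← hp, ev_add]
  by_cases ha : a = 0
  · by_cases hb : b = 0
    · exact absurd (by rw [← hp, ha, hb, add_zero]) hn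
    · rw [ha, ev_zero, zero_add]
      exact hg.2 b hb h2
  · by_cases hb : b = 0
    · rw [hb, ev_zero, add_zero]
      exact hf.2 a ha h1
    · exact add_neg (hf.2 a ha h1) (hg.2 b hb h2)

theorem UZ.mul {m : ι → ℤ} {f g : TS B} (hf : UZ m f) (hg : UZ m g) : UZ m (f * g) :=
  ⟨by rw [mul_apply_zero, hf.1, hg.1, one_mul], hf.suppIn.mul hg.suppIn⟩

/-- Values of the functional on the support of a triple product `e * x * e'`. -/
theorem conj_supp {m : ι → ℤ} {e e' x : TS B} (he : UZ m e) (he' : UZ m e') {n : ι → ℕ}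
    (hne : (e * x * e') n ≠ 0) : ∃ b, x b ≠ 0 ∧ ev m n = ev m b := by
  rw [mul_apply] at hne
  obtain ⟨⟨a, c⟩, hp, hne'⟩ := Finset.exists_ne_zero_of_sum_ne_zero hne
  simp only [mem_adj] at hp
  have h1 : (e * x) a ≠ 0 := fun h => hne' (by simp [h])
  have h2 : e' c ≠ 0 := fun h => hne' (by simp [h])
  rw [mul_apply] at h1
  obtain ⟨⟨a', b⟩, hp', hne''⟩ := Finset.exists_ne_zero_of_sum_ne_zero h1
  simp only [mem_adj] at hp'
  have h3 : e a' ≠ 0 := fun h => hne'' (by simp [h])
  have h4 : x b ≠ 0 := fun h => hne'' (by simp [h])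
  refine ⟨b, h4, ?_⟩
  rw [← hp, ev_add, ← hp', ev_add, he.2 a' h3, he'.2 c h2]
  ring

theorem UP.conj {m : ι → ℤ} {e e' u : TS B} (he : UZ m e) (he' : UZ m e') (hee : e * e' = 1)
    (hu : UP m u) : UP m (e * u * e') := by
  refine ⟨by rw [mul_apply_zero, mul_apply_zero, he.1, hu.1, he'.1]; norm_num, fun n hn hne => ?_⟩
  have e1 : e * u * e' = 1 + e * (u - 1) * e' := by
    rw [mul_sub, sub_mul, mul_one, hee]
    abel
  rw [e1, add_apply, one_apply_ne hn, zero_add] at hne
  obtain ⟨b, hb, hev⟩ := conj_supp he he' hne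
  have hb0 : b ≠ 0 := by
    rintro rfl
    apply hb
    rw [sub_apply, hu.1, one_apply_zero, sub_self]
  rw [hev]
  apply hu.2 b hb0
  rw [sub_apply, one_apply_ne hb0, sub_zero] at hb
  exact hb

theorem UN.conj {m : ι → ℤ} {e e' u : TS B} (he : UZ m e) (he' : UZ m e') (hee : e * e' = 1)
    (hu : UN m u) : UN m (e * u * e') := by
  refine ⟨by rw [mul_apply_zero, mul_apply_zero, he.1, hu.1, he'.1]; norm_num, fun n hn hne => ?_⟩
  have e1 : e * u * e' = 1 + e * (u - 1) * e' := by
    rw [mul_sub, sub_mul, mul_one, hee]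
    abel
  rw [e1, add_apply, one_apply_ne hn, zero_add] at hne
  obtain ⟨b, hb, hev⟩ := conj_supp he he' hne
  have hb0 : b ≠ 0 := by
    rintro rfl
    apply hb
    rw [sub_apply, hu.1, one_apply_zero, sub_self]
  rw [hev]
  apply hu.2 b hb0
  rw [sub_apply, one_apply_ne hb0, sub_zero] at hb
  exact hb

/-- Piece MID. -/
theorem mid_main : InvStm → FacStm → MidStm := by
  intro hInv hFac ι _ _ B m
  obtain ⟨fac1, fac2⟩ := hFac ι B m
  have ex : ∀ g : TS B, g 0 = 1 → IsMid m g (mid m g) := by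
    intro g hg
    obtain ⟨u, z, w, hu, hz, hw, hgu, -⟩ := fac1 g hg
    have h : ∃ z, IsMid m g z := ⟨z, hz, u, w, hu, hw, hgu⟩
    unfold mid
    rw [dif_pos h]
    exact h.choose_spec
  have uniq3 : ∀ u z w u' z' w' : TS B, UP m u → UZ m z → UN m w → UP m u' → UZ m z' →
      UN m w' → u * z * w = u' * z' * w' → ∀ n, u n = u' n ∧ z n = z' n ∧ w n = w' n := by
    intro u z w u' z' w' hu hz hw hu' hz' hw' heq n
    by_cases hι : Nonempty ι
    · obtain ⟨i⟩ := hι
      have hlt : n < n + Pi.single i 1 := by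
        refine Pi.lt_def.2 ⟨fun j => by simp, i, by simp⟩
      obtain ⟨h1, h2, h3, -⟩ := fac2 u z w u' z' w' hu hz hw hu' hz' hw' (n + Pi.single i 1)
        (fun a _ => by rw [heq])
      exact ⟨h1 n hlt, h2 n hlt, h3 n hlt⟩
    · have hn : n = 0 := by
        funext i
        exact absurd ⟨i⟩ hι
      subst hn
      exact ⟨by rw [hu.1, hu'.1], by rw [hz.1, hz'.1], by rw [hw.1, hw'.1]⟩
  have uniq : ∀ g z z' : TS B, IsMid m g z → IsMid m g z' → z = z' := by
    rintro g z z' ⟨hz, u, w, hu, hw, h1⟩ ⟨hz', u', w', hu', hw', h2⟩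
    ext n
    exact (uniq3 u z w u' z' w' hu hz hw hu' hz' hw' (h1.symm.trans h2) n).2.1
  have mid_eq : ∀ g z : TS B, g 0 = 1 → IsMid m g z → mid m g = z := fun g z hg hz =>
    uniq g _ _ (ex g hg) hz
  refine ⟨ex, uniq, ?_, ?_, ?_, ?_, ?_, ?_, ?_⟩
  · intro u g hu hg
    obtain ⟨hz, u', w, hu', hw, h1⟩ := ex g hg
    apply mid_eq
    · rw [mul_apply_zero, hu.1, hg, one_mul]
    · refine ⟨hz, u * u', w, hu.mul hu', hw, ?_⟩
      calc u * g = u * (u' * mid m g * w) := by rw [← h1]
        _ = _ := by simp only [mul_assoc]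
  · intro w g hw hg
    obtain ⟨hz, u, w', hu, hw', h1⟩ := ex g hg
    apply mid_eq
    · rw [mul_apply_zero, hw.1, hg, one_mul]
    · refine ⟨hz, u, w' * w, hu, hw'.mul hw, ?_⟩
      calc g * w = (u * mid m g * w') * w := by rw [← h1]
        _ = _ := by simp only [mul_assoc]
  · intro e g he hg
    obtain ⟨hz, u, w, hu, hw, h1⟩ := ex g hg
    obtain ⟨e', he'0, hee', he'e, hsup⟩ := hInv ι B e he.1
    have he' : UZ m e' := ⟨he'0, hsup _ he.suppIn⟩
    apply mid_eq
    · rw [mul_apply_zero, he.1, hg, one_mul]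
    · refine ⟨he.mul hz, e * u * e', w, hu.conj he he' hee', hw, ?_⟩
      calc e * g = e * (u * mid m g * w) := by rw [← h1]
        _ = e * u * 1 * (mid m g * w) := by simp only [mul_assoc, one_mul]
        _ = e * u * (e' * e) * (mid m g * w) := by rw [he'e]
        _ = _ := by simp only [mul_assoc]
  · intro e g he hg
    obtain ⟨hz, u, w, hu, hw, h1⟩ := ex g hg
    obtain ⟨e', he'0, hee', he'e, hsup⟩ := hInv ι B e he.1
    have he' : UZ m e' := ⟨he'0, hsup _ he.suppIn⟩
    apply mid_eq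
    · rw [mul_apply_zero, he.1, hg, one_mul]
    · refine ⟨hz.mul he, u, e' * w * e, hu, hw.conj he' he he'e, ?_⟩
      calc g * e = (u * mid m g * w) * e := by rw [← h1]
        _ = u * mid m g * 1 * (w * e) := by simp only [mul_assoc, one_mul]
        _ = u * mid m g * (e * e') * (w * e) := by rw [hee']
        _ = _ := by simp only [mul_assoc]
  · intro g hg S hS
    obtain ⟨u, z, w, hu, hz, hw, hgu, hsup⟩ := fac1 g hg
    rw [mid_eq g z hg ⟨hz, u, w, hu, hw, hgu⟩]
    exact (hsup S hS).2.1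
  · intro g g' hg hg' n hb
    obtain ⟨hz, u, w, hu, hw, h1⟩ := ex g hg
    obtain ⟨hz', u', w', hu', hw', h1'⟩ := ex g' hg'
    have hb' : Below n (u * mid m g * w) (u' * mid m g' * w') := by
      rw [← h1, ← h1']
      exact hb
    obtain ⟨-, h2, -, h4⟩ := fac2 u (mid m g) w u' (mid m g') w' hu hz hw hu' hz' hw' n hb'
    refine ⟨h2, fun hev => ?_⟩
    rw [← h1, ← h1'] at h4
    by_cases hn : n = 0
    · subst hn
      rw [hz.1, hz'.1, hg, hg']
    · have e1 : u n = 0 := by
        by_contra h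
        have := hu.2 n hn h
        omega
      have e2 : w n = 0 := by
        by_contra h
        have := hw.2 n hn h
        omega
      have e3 : u' n = 0 := by
        by_contra h
        have := hu'.2 n hn h
        omega
      have e4 : w' n = 0 := by
        by_contra h
        have := hw'.2 n hn h
        omega
      rw [e1, e2, e3, e4] at h4
      linarith
  · intro hpos g hg
    have hz := (ex g hg).1
    ext n
    by_cases hn : n = 0
    · rw [hn, hz.1, one_apply_zero]
    · rw [one_apply_ne hn]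
      by_contra h
      have h0 := hz.2 n h
      unfold ev at h0
      rw [Finset.sum_eq_zero_iff_of_nonneg] at h0
      · apply hn
        funext i
        have := h0 i (Finset.mem_univ i)
        rcases mul_eq_zero.1 this with h | h
        · have := hpos i
          omega
        · simpa using h
      · intro i _
        exact mul_nonneg (hpos i).le (by positivity)

end

end Pool.Agent.R60.SC
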