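import Pool.Agent.R60.SC.Comb

/-!
# Project SC, the final deduction (SC-N)
-/

namespace Pool.Agent.R60.SC

lemma isRed_iff (hM : MStm) {V : Type} [Fintype V] [DecidableEq V] (Q : Quiv V) (w : List V)
    (i : V) : IsRed (afterWord w Q) i ↔ ∃ j, cRow w (matQ Q) j i < 0 := by
  unfold IsRed
  refine exists_congr fun j => ?_
  have h := (hM V Q).2.2.2 w i j
  have h2 := (afterWord w Q).no_two_cycle (Sum.inl i) (Sum.inr j)
  rw [← h]
  omega

lemma numRed_eq (hM : MStm) {V : Type} [Fintype V] [DecidableEq V] (Q : Quiv V) (w : List V) :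
    numRed w Q = redCount w (matQ Q) := by
  unfold numRed redCount
  rw [← Set.ncard_coe_finset]
  congr 1
  ext i
  simp only [Finset.coe_filter, Finset.mem_univ, true_and]
  exact isRed_iff hM Q w i

lemma numRed_le {V : Type} [Fintype V] [DecidableEq V] (Q : Quiv V) (w : List V) :
    numRed w Q ≤ Fintype.card V := by
  unfold numRed
  calc Set.ncard {i : V | IsRed (afterWord w Q) i} ≤ Set.ncard (Set.univ : Set V) :=
        Set.ncard_le_ncard (Set.subset_univ _) (Set.toFinite _)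
    _ = Fintype.card V := by rw [Set.ncard_univ, Nat.card_eq_fintype_card]

lemma bddAbove_numRed {V : Type} [Fintype V] [DecidableEq V] (Q : Quiv V) :
    BddAbove (Set.range fun w : List V => numRed w Q) := by
  refine ⟨Fintype.card V, ?_⟩
  rintro _ ⟨w, rfl⟩
  exact numRed_le Q w

/-- The unrestricted red size is a maximum. -/
theorem uRed_isGreatest {V : Type} [Fintype V] [DecidableEq V] (Q : Quiv V) :
    IsGreatest (Set.range fun w : List V => numRed w Q) (uRed Q) :=
  ⟨Nat.sSup_mem ⟨_, ⟨[], rfl⟩⟩ (bddAbove_numRed Q), fun _ hx => le_csSup (bddAbove_numRed Q) hx⟩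

lemma uRed_le_mut (hJ : JStm) (hK : KStm) (hM : MStm)
    (h0 : ∀ (ι : Type) [Fintype ι] [DecidableEq ι], NoZero ι)
    {V : Type} [Fintype V] [DecidableEq V] (Q : Quiv V) (k : V) :
    uRed Q ≤ uRed (Q.mut (fun _ => false) k) := by
  obtain ⟨w, hw⟩ := (uRed_isGreatest Q).1
  have hs := (hM V Q).1
  have hk := (hM V Q).2.1 k
  have hs' : Skew (mutB k (matQ Q)) := by
    rw [← hk]
    exact (hM V (Q.mut (fun _ => false) k)).1
  obtain ⟨w', hw'⟩ := hK V (matQ Q) hs k (hJ V (h0 V) _ hs) (hJ V (h0 V) _ hs') w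
  have h1 : numRed w Q = uRed Q := hw
  rw [← h1, numRed_eq hM]
  refine hw'.trans ?_
  rw [← hk, ← numRed_eq hM]
  exact (uRed_isGreatest (Q.mut (fun _ => false) k)).2 ⟨w', rfl⟩

/-- SC-N. -/
theorem n_main : JStm → KStm → MStm → NStm := by
  intro hJ hK hM h0 V _ _ Q k
  refine le_antisymm ?_ (uRed_le_mut hJ hK hM h0 Q k)
  have h := uRed_le_mut hJ hK hM h0 (Q.mut (fun _ => false) k) k
  rwa [(hM V Q).2.2.1 k] at h

end Pool.Agent.R60.SC
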