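import Mathlib
import Pool.Agent.R60.SC.Stm

/-!
# Project SC, piece PAL
-/

namespace Pool.Agent.R60.SC

noncomputable section

namespace PalAux

open PowerSeries

/-- the coefficients of a power series, extended by zero to all integers -/
def q (F : PowerSeries ℚ) (z : ℤ) : ℚ := if z < 0 then 0 else PowerSeries.coeff z.toNat F

lemma q_nat (F : PowerSeries ℚ) (n : ℕ) : q F (n : ℤ) = PowerSeries.coeff n F := by
  simp [q]

lemma q_neg (F : PowerSeries ℚ) {z : ℤ} (h : z < 0) : q F z = 0 := by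
  simp [q, h]

lemma coeff_lin_mul (c : ℚ) (F : PowerSeries ℚ) (z : ℤ) :
    q ((1 + PowerSeries.C c * PowerSeries.X) * F) z = q F z + c * q F (z - 1) := by
  rcases lt_or_ge z 0 with h | h
  · rw [q_neg _ h, q_neg _ h, q_neg _ (by omega)]
    simp
  · obtain ⟨n, rfl⟩ := Int.eq_ofNat_of_zero_le h
    rcases n with _ | n
    · rw [q_neg F (z := ((0 : ℕ) : ℤ) - 1) (by simp), q_nat, q_nat]
      simp [add_mul, mul_assoc]
    · have e : ((n + 1 : ℕ) : ℤ) - 1 = (n : ℤ) := by push_cast; ring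
      rw [e, q_nat, q_nat, q_nat, add_mul, one_mul, map_add, mul_assoc, PowerSeries.coeff_C_mul,
        PowerSeries.coeff_succ_X_mul]

lemma pal_zero : pal 0 = 1 := by simp [pal]

lemma pal_one : pal 1 = 1 + PowerSeries.X := by simp [pal]

lemma pal_add_two (a : ℕ) : pal (a + 2) =
    (1 + PowerSeries.C ((2 : ℚ) ^ ((a : ℤ) + 1)) * PowerSeries.X) *
      ((1 + PowerSeries.C ((2 : ℚ) ^ (-((a : ℤ) + 1))) * PowerSeries.X) * pal a) := by
  unfold pal
  rw [Finset.prod_range_succ, Finset.prod_range_succ']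
  have e1 : ((a + 2 : ℕ) : ℤ) - 1 - 2 * ((0 : ℕ) : ℤ) = (a : ℤ) + 1 := by push_cast; ring
  have e2 : ((a + 2 : ℕ) : ℤ) - 1 - 2 * ((a + 1 : ℕ) : ℤ) = -((a : ℤ) + 1) := by push_cast; ring
  have e3 : ∀ i : ℕ, ((a + 2 : ℕ) : ℤ) - 1 - 2 * ((i + 1 : ℕ) : ℤ) = (a : ℤ) - 1 - 2 * (i : ℤ) := by
    intro i
    push_cast
    ring
  rw [e1, e2]
  simp only [e3]
  ring

lemma sym (a : ℕ) : ∀ z : ℤ, q (pal a) z = q (pal a) ((a : ℤ) - z) := by
  induction a using Nat.twoStepInduction with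
  | zero =>
    intro z
    rw [pal_zero]
    rcases lt_trichotomy z 0 with h | h | h
    · rw [q_neg _ h]
      obtain ⟨n, hn⟩ := Int.eq_ofNat_of_zero_le (show 0 ≤ ((0 : ℕ) : ℤ) - z by simp; omega)
      rw [hn, q_nat, PowerSeries.coeff_one, if_neg]
      rintro rfl
      simp at hn
      omega
    · subst h
      simp
    · rw [q_neg _ (show ((0 : ℕ) : ℤ) - z < 0 by simp; omega)]
      obtain ⟨n, hn⟩ := Int.eq_ofNat_of_zero_le h.le
      rw [hn, q_nat, PowerSeries.coeff_one, if_neg]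
      rintro rfl
      simp at hn
      omega
  | one =>
    intro z
    have h0 : ∀ z : ℤ, q (pal 1) z = if z = 0 ∨ z = 1 then 1 else 0 := by
      intro z
      rcases lt_or_ge z 0 with h | h
      · rw [q_neg _ h, if_neg (by omega)]
      · obtain ⟨n, rfl⟩ := Int.eq_ofNat_of_zero_le h
        rw [q_nat, pal_one, map_add, PowerSeries.coeff_one, PowerSeries.coeff_X]
        rcases n with _ | _ | n
        · simp
        · simp
        · rw [if_neg (by omega), if_neg (by omega), if_neg (by push_cast; omega), add_zero]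
    rw [h0, h0]
    have h1 : (z = 0 ∨ z = 1) ↔ (((1 : ℕ) : ℤ) - z = 0 ∨ ((1 : ℕ) : ℤ) - z = 1) := by
      push_cast
      omega
    by_cases h2 : z = 0 ∨ z = 1
    · rw [if_pos h2, if_pos (h1.1 h2)]
    · rw [if_neg h2, if_neg (fun h => h2 (h1.2 h))]
  | more a ih _ =>
    intro z
    have huw : (2 : ℚ) ^ ((a : ℤ) + 1) * (2 : ℚ) ^ (-((a : ℤ) + 1)) = 1 := by
      rw [← zpow_add₀ (by norm_num)]
      simp
    rw [pal_add_two, coeff_lin_mul, coeff_lin_mul, coeff_lin_mul, coeff_lin_mul, coeff_lin_mul,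
      coeff_lin_mul]
    have e1 : ((a + 2 : ℕ) : ℤ) - z = (a : ℤ) - (z - 1 - 1) := by push_cast; ring
    have e2 : (a : ℤ) - (z - 1 - 1) - 1 = (a : ℤ) - (z - 1) := by ring
    have e3 : (a : ℤ) - (z - 1) - 1 = (a : ℤ) - z := by ring
    rw [e1, e2, e3, ← ih, ← ih, ← ih]
    linear_combination (q (pal a) (z - 1 - 1) - q (pal a) z) * huw

lemma key : PowerSeries.rescale (2 : ℚ) eS =
    (1 + PowerSeries.X) * PowerSeries.rescale ((2 : ℚ)⁻¹) eS := by
  ext n
  rw [PowerSeries.coeff_rescale, add_mul, one_mul, map_add, PowerSeries.coeff_rescale]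
  rcases n with _ | n
  · simp [eS]
  · rw [PowerSeries.coeff_succ_X_mul, PowerSeries.coeff_rescale]
    simp only [eS, PowerSeries.coeff_mk]
    have h1 : eC (n + 1) = 2 * eC n / (4 ^ (n + 1) - 1) := rfl
    have h2 : (4 : ℚ) ^ (n + 1) - 1 ≠ 0 := by
      have : (1 : ℚ) < 4 ^ (n + 1) := one_lt_pow₀ (by norm_num) (by omega)
      linarith
    have h4 : (4 : ℚ) ^ (n + 1) = 2 ^ (n + 1) * 2 ^ (n + 1) := by
      rw [← mul_pow]
      norm_num
    have h5 : (2 : ℚ) ^ (n + 1) ≠ 0 := by positivity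
    have h6 : (2 : ℚ) ^ n ≠ 0 := by positivity
    have h3 : eC (n + 1) * (4 ^ (n + 1) - 1) = 2 * eC n := by
      rw [h1]
      field_simp
    rw [inv_pow, inv_pow]
    have h7 : (2 : ℚ) ^ (n + 1) = 2 * 2 ^ n := by ring
    rw [h4] at h3
    rw [h7] at h3 ⊢
    field_simp
    linear_combination h3

lemma key2 (c : ℚ) : PowerSeries.rescale (c * 2) eS =
    (1 + PowerSeries.C c * PowerSeries.X) * PowerSeries.rescale (c * (2 : ℚ)⁻¹) eS := by
  have h := congrArg (PowerSeries.rescale c) key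
  rw [map_mul, map_add, map_one, PowerSeries.rescale_X, PowerSeries.rescale_rescale,
    PowerSeries.rescale_rescale] at h
  rw [mul_comm c 2, mul_comm c 2⁻¹]
  exact h

lemma three (a : ℕ) : PowerSeries.rescale ((2 : ℚ) ^ (a : ℤ)) eS =
    pal a * PowerSeries.rescale ((2 : ℚ) ^ (-(a : ℤ))) eS := by
  induction a using Nat.twoStepInduction with
  | zero => simp [pal_zero]
  | one =>
    rw [pal_one]
    simpa using key
  | more a ih _ =>
    have h1 := key2 ((2 : ℚ) ^ ((a : ℤ) + 1))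
    have h2 := key2 ((2 : ℚ) ^ (-((a : ℤ) + 1)))
    have e1 : (2 : ℚ) ^ ((a : ℤ) + 1) * 2 = 2 ^ ((a + 2 : ℕ) : ℤ) := by
      rw [← zpow_add_one₀ (by norm_num)]
      congr 1
    have e2 : (2 : ℚ) ^ ((a : ℤ) + 1) * 2⁻¹ = 2 ^ (a : ℤ) := by
      rw [← zpow_sub_one₀ (by norm_num), add_sub_cancel_right]
    have e3 : (2 : ℚ) ^ (-((a : ℤ) + 1)) * 2 = 2 ^ (-(a : ℤ)) := by
      rw [← zpow_add_one₀ (by norm_num)]
      congr 1
      ring
    have e4 : (2 : ℚ) ^ (-((a : ℤ) + 1)) * 2⁻¹ = 2 ^ (-((a + 2 : ℕ) : ℤ)) := by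
      rw [← zpow_sub_one₀ (by norm_num)]
      congr 1
    rw [e1, e2] at h1
    rw [e3, e4] at h2
    rw [h1, ih, h2, pal_add_two]
    ring

end PalAux

theorem pal_main : PalStm := by
  intro a
  refine ⟨fun i hi => ?_, fun i hi => ?_, PalAux.three a⟩
  · have h := PalAux.sym a (i : ℤ)
    rw [PalAux.q_nat, PalAux.q_neg _ (by omega)] at h
    exact h
  · have h := PalAux.sym a (i : ℤ)
    have e : (a : ℤ) - (i : ℤ) = ((a - i : ℕ) : ℤ) := by omega
    rw [e, PalAux.q_nat, PalAux.q_nat] at h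
    exact h

end

end Pool.Agent.R60.SC
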