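import Mathlib
import Pool.Agent.R60.SC.Stm

/-!
# Project SC, piece PSI
-/

namespace Pool.Agent.R60.SC

noncomputable section

namespace PsiAux

variable {ι : Type} [Fintype ι] [DecidableEq ι] {B : ι → ι → ℤ}

lemma psi_apply (k : ι) (F : PowerSeries ℚ) (n : ι → ℕ) :
    (psi B k F) n = if n = Pi.single k (n k) then PowerSeries.coeff (n k) F else 0 := rfl

lemma psi_single (k : ι) (F : PowerSeries ℚ) (j : ℕ) :
    (psi B k F) (Pi.single k j) = PowerSeries.coeff j F := by
  rw [psi_apply, if_pos (by simp)]
  simp

lemma psi_ne (k : ι) (F : PowerSeries ℚ) {n : ι → ℕ} (h : (psi B k F) n ≠ 0) :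
    n = Pi.single k (n k) := by
  rw [psi_apply] at h
  by_contra h'
  exact h (if_neg h')

lemma frm_single_left (hB : Skew B) (k : ι) (j : ℕ) (n₀ : ι → ℕ) (t : ℕ) :
    frm B (Pi.single k j) (n₀ + Pi.single k t) = j * frm B (Pi.single k 1) n₀ := by
  rw [frm_add_right]
  have h1 : ∀ (x : ℕ) (b : ι → ℕ), frm B (Pi.single k x) b = x * ∑ i, B k i * (b i : ℤ) := by
    intro x b
    unfold frm
    rw [Finset.sum_eq_single k]
    · rw [Finset.mul_sum]
      refine Finset.sum_congr rfl fun i _ => ?_
      rw [Pi.single_eq_same]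
      ring
    · intro i _ hi
      refine Finset.sum_eq_zero fun l _ => ?_
      rw [Pi.single_eq_of_ne hi]
      simp
    · intro h
      exact absurd (Finset.mem_univ k) h
  have h2 : B k k = 0 := by
    have := hB k k
    omega
  have h3 : ∑ i, B k i * ((Pi.single k t : ι → ℕ) i : ℤ) = 0 := by
    refine Finset.sum_eq_zero fun i _ => ?_
    by_cases hi : i = k
    · subst hi
      rw [h2]
      simp
    · rw [Pi.single_eq_of_ne hi]
      simp
  rw [h1 j, h1 j, h1 1, h3]
  push_cast
  ring

lemma two_zpow_nat_mul (j : ℕ) (z : ℤ) : (2 : ℚ) ^ ((j : ℤ) * z) = ((2 : ℚ) ^ z) ^ j := by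
  rw [mul_comm, zpow_mul, zpow_natCast]

omit [Fintype ι] in
/-- decomposition of an exponent vector along the line in direction `k` -/
lemma decomp (k : ι) (n : ι → ℕ) : n = Function.update n k 0 + Pi.single k (n k) := by
  funext i
  by_cases hi : i = k
  · subst hi
    simp
  · simp [Function.update_of_ne hi, Pi.single_eq_of_ne hi]

lemma left (hB : Skew B) (k : ι) (F : PowerSeries ℚ) (h : TS B) (n₀ : ι → ℕ) (h0 : n₀ k = 0) :
    lin k n₀ (psi B k F * h) =
      PowerSeries.rescale ((2 : ℚ) ^ (frm B (Pi.single k 1) n₀)) F * lin k n₀ h := by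
  ext s
  rw [PowerSeries.coeff_mul]
  simp only [lin, PowerSeries.coeff_mk, PowerSeries.coeff_rescale]
  rw [mul_apply]
  symm
  refine Finset.sum_of_injOn (fun p : ℕ × ℕ => ((Pi.single k p.1 : ι → ℕ), n₀ + Pi.single k p.2))
    ?_ ?_ ?_ ?_
  · rintro ⟨a, b⟩ _ ⟨c, d⟩ _ hp
    simp only [Prod.mk.injEq] at hp
    have h1 := congrFun hp.1 k
    have h2 := congrFun hp.2 k
    simp only [Pi.single_eq_same, Pi.add_apply] at h1 h2
    ext
    · exact h1
    · simpa using h2
  · rintro ⟨a, b⟩ hp
    have hp := Finset.HasAntidiagonal.mem_antidiagonal.1 (Finset.mem_coe.1 hp)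
    rw [Finset.mem_coe, mem_adj]
    simp only at hp
    rw [← hp]
    funext i
    by_cases hi : i = k
    · subst hi
      simp [Pi.single_eq_same]
      ring
    · simp [Pi.single_eq_of_ne hi]
  · rintro ⟨a, b⟩ hp hnot
    simp only [mem_adj] at hp
    by_cases ha : (psi B k F) a = 0
    · simp only
      rw [ha]
      simp
    · exfalso
      apply hnot
      have h1 := psi_ne k F ha
      refine ⟨(a k, b k), ?_, ?_⟩
      · have h2 := congrFun hp k
        simp only [Pi.add_apply, Pi.single_eq_same, h0, zero_add] at h2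
        simpa using h2
      · simp only [Prod.mk.injEq]
        refine ⟨h1.symm, ?_⟩
        funext i
        have h2 := congrFun hp i
        by_cases hi : i = k
        · subst hi
          simp [h0]
        · rw [h1] at h2
          simp only [Pi.add_apply, Pi.single_eq_of_ne hi, zero_add, add_zero] at h2 ⊢
          exact h2.symm
  · rintro ⟨a, b⟩ _
    simp only
    rw [psi_single, frm_single_left hB, two_zpow_nat_mul]
    ring

lemma right (hB : Skew B) (k : ι) (F : PowerSeries ℚ) (h : TS B) (n₀ : ι → ℕ) (h0 : n₀ k = 0) :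
    lin k n₀ (h * psi B k F) =
      lin k n₀ h * PowerSeries.rescale ((2 : ℚ) ^ (-(frm B (Pi.single k 1) n₀))) F := by
  ext s
  rw [PowerSeries.coeff_mul]
  simp only [lin, PowerSeries.coeff_mk, PowerSeries.coeff_rescale]
  rw [mul_apply]
  symm
  refine Finset.sum_of_injOn (fun p : ℕ × ℕ => (n₀ + Pi.single k p.1, (Pi.single k p.2 : ι → ℕ)))
    ?_ ?_ ?_ ?_
  · rintro ⟨a, b⟩ _ ⟨c, d⟩ _ hp
    simp only [Prod.mk.injEq] at hp
    have h1 := congrFun hp.1 k
    have h2 := congrFun hp.2 k
    simp only [Pi.single_eq_same, Pi.add_apply] at h1 h2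
    ext
    · simpa using h1
    · exact h2
  · rintro ⟨a, b⟩ hp
    have hp := Finset.HasAntidiagonal.mem_antidiagonal.1 (Finset.mem_coe.1 hp)
    rw [Finset.mem_coe, mem_adj]
    simp only at hp
    rw [← hp]
    funext i
    by_cases hi : i = k
    · subst hi
      simp [Pi.single_eq_same]
      ring
    · simp [Pi.single_eq_of_ne hi]
  · rintro ⟨a, b⟩ hp hnot
    simp only [mem_adj] at hp
    by_cases ha : (psi B k F) b = 0
    · simp only
      rw [ha]
      simp
    · exfalso
      apply hnot
      have h1 := psi_ne k F ha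
      refine ⟨(a k, b k), ?_, ?_⟩
      · have h2 := congrFun hp k
        simp only [Pi.add_apply, Pi.single_eq_same, h0, zero_add] at h2
        simpa using h2
      · simp only [Prod.mk.injEq]
        refine ⟨?_, h1.symm⟩
        funext i
        have h2 := congrFun hp i
        by_cases hi : i = k
        · subst hi
          simp [h0]
        · rw [h1] at h2
          simp only [Pi.add_apply, Pi.single_eq_of_ne hi, zero_add, add_zero] at h2 ⊢
          exact h2.symm
  · rintro ⟨a, b⟩ _
    simp only
    have e : frm B (n₀ + (Pi.single k a : ι → ℕ)) (Pi.single k b) =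
        (b : ℤ) * -frm B (Pi.single k 1) n₀ := by
      rw [frm_swap hB, frm_single_left hB, mul_neg]
    rw [psi_single, e, two_zpow_nat_mul]
    ring

end PsiAux

open PsiAux in
theorem psi_main : PsiStm := by
  intro ι _ _ B hB k
  refine ⟨?_, ?_, ?_, fun F h n₀ h0 => left hB k F h n₀ h0, fun F h n₀ h0 => right hB k F h n₀ h0⟩
  · ext n
    rw [psi_apply, one_apply]
    by_cases h : n = Pi.single k (n k)
    · rw [if_pos h, PowerSeries.coeff_one]
      by_cases h1 : n k = 0
      · rw [if_pos h1, if_pos]
        rw [h, h1]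
        simp
      · rw [if_neg h1, if_neg]
        rintro rfl
        exact h1 rfl
    · rw [if_neg h, if_neg]
      rintro rfl
      apply h
      simp
  · intro F G
    ext n
    have hn := decomp k n
    set n₀ : ι → ℕ := Function.update n k 0 with hn0
    have h0 : n₀ k = 0 := by simp [hn0]
    have e1 : (psi B k F * psi B k G) n = PowerSeries.coeff (n k) (lin k n₀ (psi B k F * psi B k G)) := by
      simp only [lin, PowerSeries.coeff_mk]
      rw [← hn]
    rw [e1, left hB k F _ n₀ h0]
    by_cases hz : n₀ = 0
    · have h1 : frm B (Pi.single k 1) n₀ = 0 := by rw [hz]; simp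
      have h2 : lin k n₀ (psi B k G) = G := by
        ext s
        simp only [lin, PowerSeries.coeff_mk]
        rw [hz, zero_add, psi_single]
      rw [h1, h2]
      simp only [zpow_zero, PowerSeries.rescale_one, RingHom.id_apply]
      rw [psi_apply, if_pos]
      rw [hz, zero_add] at hn
      exact hn
    · have h2 : lin k n₀ (psi B k G) = 0 := by
        ext s
        simp only [lin, PowerSeries.coeff_mk, map_zero]
        by_contra h3
        have h4 := psi_ne k G h3
        apply hz
        funext i
        by_cases hi : i = k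
        · subst hi
          exact h0
        · have h5 := congrFun h4 i
          simp only [Pi.add_apply, Pi.single_eq_of_ne hi, add_zero] at h5
          exact h5
      rw [h2, mul_zero, map_zero, psi_apply, if_neg]
      intro h3
      apply hz
      funext i
      by_cases hi : i = k
      · subst hi
        exact h0
      · have h5 := congrFun h3 i
        rw [Pi.single_eq_of_ne hi] at h5
        rw [hn0, Function.update_of_ne hi, h5]
        rfl
  · intro F G
    ext n
    rw [sub_apply, psi_apply, psi_apply, psi_apply]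
    by_cases h : n = Pi.single k (n k)
    · rw [if_pos h, if_pos h, if_pos h, map_sub]
    · rw [if_neg h, if_neg h, if_neg h, sub_zero]

end

end Pool.Agent.R60.SC
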