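import Pool.Agent.R60.SC.Stm

/-!
# Project SC: the two concrete transports (piece SG)
-/

namespace Pool.Agent.R60.SC

namespace SGx

set_option linter.unusedSectionVars false

variable {ι : Type} [Fintype ι] [DecidableEq ι]

/-- The weight functional. -/
def CC (p : ι → ℕ) (a : ι → ℕ) : ℕ := ∑ i, p i * a i

/-- The reflection. -/
def sg (p : ι → ℕ) (k : ι) (a : ι → ℕ) : ι → ℕ := Function.update a k (CC p a - a k)

theorem sg_same (p : ι → ℕ) (k : ι) (a : ι → ℕ) : sg p k a k = CC p a - a k := by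
  simp [sg]

theorem sg_ne (p : ι → ℕ) {k i : ι} (h : i ≠ k) (a : ι → ℕ) : sg p k a i = a i := by
  simp [sg, h]

theorem CC_sg {p : ι → ℕ} {k : ι} (hk : p k = 0) (a : ι → ℕ) : CC p (sg p k a) = CC p a := by
  unfold CC
  refine Finset.sum_congr rfl fun i _ => ?_
  by_cases h : i = k
  · rw [h, hk, zero_mul, zero_mul]
  · rw [sg_ne p h]

theorem CC_add (p a b : ι → ℕ) : CC p (a + b) = CC p a + CC p b := by
  unfold CC
  rw [← Finset.sum_add_distrib]
  exact Finset.sum_congr rfl fun i _ => Nat.mul_add _ _ _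

theorem sg_maps {p : ι → ℕ} {k : ι} (hk : p k = 0) (a : ι → ℕ) :
    sg p k a k ≤ CC p (sg p k a) := by
  rw [CC_sg hk, sg_same]
  omega

theorem sg_invol {p : ι → ℕ} {k : ι} (hk : p k = 0) (a : ι → ℕ) (h : a k ≤ CC p a) :
    sg p k (sg p k a) = a := by
  funext i
  by_cases hi : i = k
  · subst hi
    rw [sg_same, CC_sg hk, sg_same]
    omega
  · rw [sg_ne p hi, sg_ne p hi]

theorem sg_add {p : ι → ℕ} {k : ι} (a b : ι → ℕ) (ha : a k ≤ CC p a) (hb : b k ≤ CC p b) :
    sg p k (a + b) = sg p k a + sg p k b := by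
  funext i
  by_cases hi : i = k
  · subst hi
    rw [sg_same, CC_add, Pi.add_apply, Pi.add_apply, sg_same, sg_same]
    omega
  · rw [sg_ne p hi, Pi.add_apply, Pi.add_apply, sg_ne p hi, sg_ne p hi]

theorem frm_split {B : ι → ι → ℤ} {k : ι} (h0 : B k k = 0) (a b : ι → ℕ) :
    frm B a b = (∑ i ∈ Finset.univ.erase k, ∑ j ∈ Finset.univ.erase k, B i j * (a i : ℤ) * (b j : ℤ))
      + (∑ i ∈ Finset.univ.erase k, B i k * (a i : ℤ)) * (b k : ℤ)
      + (a k : ℤ) * (∑ j ∈ Finset.univ.erase k, B k j * (b j : ℤ)) := by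
  unfold frm
  rw [← Finset.add_sum_erase _ _ (Finset.mem_univ k)]
  have h1 : ∀ i : ι, ∑ j, B i j * (a i : ℤ) * (b j : ℤ) = B i k * (a i : ℤ) * (b k : ℤ) +
      ∑ j ∈ Finset.univ.erase k, B i j * (a i : ℤ) * (b j : ℤ) := fun i =>
    (Finset.add_sum_erase _ _ (Finset.mem_univ k)).symm
  simp only [h1]
  rw [h0, Finset.sum_add_distrib, Finset.sum_mul, Finset.mul_sum]
  have h2 : ∑ j ∈ Finset.univ.erase k, B k j * (a k : ℤ) * (b j : ℤ) =
      ∑ j ∈ Finset.univ.erase k, (a k : ℤ) * (B k j * (b j : ℤ)) :=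
    Finset.sum_congr rfl fun j _ => by ring
  rw [h2]
  ring

theorem CC_erase {p : ι → ℕ} {k : ι} (hk : p k = 0) (a : ι → ℕ) :
    ((CC p a : ℕ) : ℤ) = ∑ i ∈ Finset.univ.erase k, (p i : ℤ) * (a i : ℤ) := by
  unfold CC
  rw [← Finset.add_sum_erase _ _ (Finset.mem_univ k), hk]
  push_cast
  ring

theorem sg_cast {p : ι → ℕ} {k : ι} (a : ι → ℕ) (ha : a k ≤ CC p a) :
    ((sg p k a k : ℕ) : ℤ) = (CC p a : ℤ) - (a k : ℤ) := by
  rw [sg_same]
  push_cast [ha]
  ring

theorem form {B B' : ι → ι → ℤ} {p : ι → ℕ} {k : ι} (h0 : B k k = 0) (hk : p k = 0)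
    (h1 : ∀ i j, i ≠ k → j ≠ k → B' i j = B i j + p i * B k j + B i k * p j)
    (h2 : ∀ i, B' i k = - B i k) (h3 : ∀ j, B' k j = - B k j)
    (a b : ι → ℕ) (ha : a k ≤ CC p a) (hb : b k ≤ CC p b) :
    frm B' (sg p k a) (sg p k b) = frm B a b := by
  have h0' : B' k k = 0 := by rw [h2, h0, neg_zero]
  rw [frm_split h0' (sg p k a) (sg p k b), frm_split h0 a b, sg_cast a ha, sg_cast b hb]
  have e1 : ∑ i ∈ Finset.univ.erase k, B' i k * ((sg p k a i : ℕ) : ℤ) =
      - ∑ i ∈ Finset.univ.erase k, B i k * (a i : ℤ) := by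
    rw [← Finset.sum_neg_distrib]
    refine Finset.sum_congr rfl fun i hi => ?_
    rw [sg_ne p (Finset.ne_of_mem_erase hi), h2]
    ring
  have e2 : ∑ j ∈ Finset.univ.erase k, B' k j * ((sg p k b j : ℕ) : ℤ) =
      - ∑ j ∈ Finset.univ.erase k, B k j * (b j : ℤ) := by
    rw [← Finset.sum_neg_distrib]
    refine Finset.sum_congr rfl fun i hi => ?_
    rw [sg_ne p (Finset.ne_of_mem_erase hi), h3]
    ring
  have e3 : ∑ i ∈ Finset.univ.erase k, ∑ j ∈ Finset.univ.erase k,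
      B' i j * ((sg p k a i : ℕ) : ℤ) * ((sg p k b j : ℕ) : ℤ) =
      (∑ i ∈ Finset.univ.erase k, ∑ j ∈ Finset.univ.erase k, B i j * (a i : ℤ) * (b j : ℤ)) +
      (∑ i ∈ Finset.univ.erase k, (p i : ℤ) * (a i : ℤ)) *
        (∑ j ∈ Finset.univ.erase k, B k j * (b j : ℤ)) +
      (∑ i ∈ Finset.univ.erase k, B i k * (a i : ℤ)) *
        (∑ j ∈ Finset.univ.erase k, (p j : ℤ) * (b j : ℤ)) := by
    rw [Finset.sum_mul_sum, Finset.sum_mul_sum, ← Finset.sum_add_distrib,
      ← Finset.sum_add_distrib]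
    refine Finset.sum_congr rfl fun i hi => ?_
    rw [← Finset.sum_add_distrib, ← Finset.sum_add_distrib]
    refine Finset.sum_congr rfl fun j hj => ?_
    rw [sg_ne p (Finset.ne_of_mem_erase hi), sg_ne p (Finset.ne_of_mem_erase hj),
      h1 i j (Finset.ne_of_mem_erase hi) (Finset.ne_of_mem_erase hj)]
    ring
  rw [e1, e2, e3, CC_erase hk a, CC_erase hk b]
  ring

theorem ev_sg {m m' : ι → ℤ} {p : ι → ℕ} {k : ι} (hk : p k = 0) (h1 : m' k = - m k)
    (h2 : ∀ i, i ≠ k → m' i = m i + p i * m k) (a : ι → ℕ) (ha : a k ≤ CC p a) :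
    ev m' (sg p k a) = ev m a := by
  unfold ev
  rw [← Finset.add_sum_erase _ _ (Finset.mem_univ k),
    ← Finset.add_sum_erase _ (fun i => m i * (a i : ℤ)) (Finset.mem_univ k)]
  rw [sg_cast a ha, h1, CC_erase hk a]
  have e : ∑ i ∈ Finset.univ.erase k, m' i * ((sg p k a i : ℕ) : ℤ) =
      (∑ i ∈ Finset.univ.erase k, m i * (a i : ℤ)) +
      m k * ∑ i ∈ Finset.univ.erase k, (p i : ℤ) * (a i : ℤ) := by
    rw [Finset.mul_sum, ← Finset.sum_add_distrib]
    refine Finset.sum_congr rfl fun i hi => ?_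
    rw [sg_ne p (Finset.ne_of_mem_erase hi), h2 i (Finset.ne_of_mem_erase hi)]
    ring
  rw [e]
  ring

theorem frm_ek (B : ι → ι → ℤ) (k : ι) (n : ι → ℕ) :
    frm B (Pi.single k 1) n = ∑ j, B k j * (n j : ℤ) := by
  unfold frm
  rw [Finset.sum_eq_single k]
  · simp
  · intro i _ hi
    simp [Pi.single_eq_of_ne hi]
  · simp

theorem frm_ek_sg {B : ι → ι → ℤ} (p : ι → ℕ) {k : ι} (h0 : B k k = 0) (n : ι → ℕ) :
    frm B (Pi.single k 1) (sg p k n) = frm B (Pi.single k 1) n := by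
  rw [frm_ek, frm_ek]
  refine Finset.sum_congr rfl fun i _ => ?_
  by_cases h : i = k
  · rw [h, h0, zero_mul, zero_mul]
  · rw [sg_ne p h]

theorem frm_ek_sg' {B B' : ι → ι → ℤ} (p : ι → ℕ) {k : ι} (h0 : B k k = 0)
    (h3 : ∀ j, B' k j = - B k j) (n : ι → ℕ) :
    frm B' (Pi.single k 1) (sg p k n) = - frm B (Pi.single k 1) n := by
  rw [← frm_ek_sg p h0 n, frm_ek, frm_ek, ← Finset.sum_neg_distrib]
  refine Finset.sum_congr rfl fun i _ => ?_
  rw [h3]
  ring

theorem sg_fix {B : ι → ι → ℤ} {p : ι → ℕ} {k : ι} (s : ℤ) (hk : p k = 0)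
    (hp : ∀ i, 0 ≤ s * B k i → p i = 0) (n : ι → ℕ) (hn : n k ≤ CC p n) (hne : n ≠ 0)
    (hs : 0 ≤ s * frm B (Pi.single k 1) n) (i : ι) (hi : n = Pi.single i (n i)) :
    sg p k n = n := by
  have hCC : CC p n = p i * n i := by
    unfold CC
    rw [Finset.sum_eq_single i]
    · intro j _ hj
      rw [hi]
      simp [Pi.single_eq_of_ne hj]
    · simp
  have hni : n i ≠ 0 := by
    intro h
    apply hne
    rw [hi, h, Pi.single_zero]
  have hik : i ≠ k := by
    rintro rfl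
    rw [hCC, hk, zero_mul] at hn
    omega
  have hfrm : frm B (Pi.single k 1) n = B k i * (n i : ℤ) := by
    rw [frm_ek, Finset.sum_eq_single i]
    · intro j _ hj
      rw [hi]
      simp [Pi.single_eq_of_ne hj]
    · simp
  have hpi : p i = 0 := by
    apply hp
    rw [hfrm, ← mul_assoc] at hs
    by_contra hneg
    have h1 : s * B k i < 0 := not_le.1 hneg
    have h2 : (0 : ℤ) < (n i : ℤ) := by positivity
    have := mul_neg_of_neg_of_pos h1 h2
    omega
  have hnk : n k = 0 := by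
    rw [hi]
    simp [Pi.single_eq_of_ne hik.symm]
  funext j
  by_cases hj : j = k
  · subst hj
    rw [sg_same, hCC, hpi, zero_mul, hnk, Nat.sub_zero]
  · rw [sg_ne p hj]

theorem sg_zero (p : ι → ℕ) (k : ι) : sg p k 0 = 0 := by
  funext j
  by_cases hj : j = k
  · subst hj
    rw [sg_same]
    simp [CC]
  · rw [sg_ne p hj]

theorem rho_sg {B : ι → ι → ℤ} {p : ι → ℕ} {k : ι} (s : ℤ) (h0 : B k k = 0) (hk : p k = 0)
    (hp : ∀ i, 0 ≤ s * B k i → p i = 0) (n : ι → ℕ) (hn : n k ≤ CC p n) (hne : n ≠ 0)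
    (hs : 0 ≤ s * frm B (Pi.single k 1) n) : rho (sg p k n) = rho n := by
  by_cases h1 : ∃ i, n = Pi.single i (n i)
  · obtain ⟨i, hi⟩ := h1
    rw [sg_fix s hk hp n hn hne hs i hi]
  · by_cases h2 : ∃ i, sg p k n = Pi.single i (sg p k n i)
    · obtain ⟨i, hi⟩ := h2
      have hne' : sg p k n ≠ 0 := by
        intro h
        apply hne
        rw [← sg_invol hk n hn, h, sg_zero]
      have h := sg_fix s hk hp (sg p k n) (sg_maps hk n) hne' (by rw [frm_ek_sg p h0]; exact hs) i hi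
      rw [sg_invol hk n hn] at h
      rw [← h]
    · unfold rho
      rw [if_neg h1, if_neg h2]

theorem tr {B B' : ι → ι → ℤ} {p : ι → ℕ} {k : ι} (h0 : B k k = 0) (hk : p k = 0)
    (h1 : ∀ i j, i ≠ k → j ≠ k → B' i j = B i j + p i * B k j + B i k * p j)
    (h2 : ∀ i, B' i k = - B i k) (h3 : ∀ j, B' k j = - B k j)
    (S : AddSubmonoid (ι → ℕ)) (hS : ∀ a, a ∈ S ↔ a k ≤ CC p a) : Tr B B' S (sg p k) where
  maps := fun a _ => (hS _).2 (sg_maps hk a)
  invol := fun a ha => sg_invol hk a ((hS a).1 ha)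
  add := fun a ha b hb => sg_add a b ((hS a).1 ha) ((hS b).1 hb)
  form := fun a ha b hb => form h0 hk h1 h2 h3 a b ((hS a).1 ha) ((hS b).1 hb)

theorem mutB_left (k : ι) (B : ι → ι → ℤ) (j : ι) : mutB k B k j = - B k j := by
  simp [mutB]

theorem mutB_right (k : ι) (B : ι → ι → ℤ) (i : ι) : mutB k B i k = - B i k := by
  simp [mutB]

theorem pos_sub (x : ℤ) : pos x - pos (-x) = x := by
  unfold pos
  omega

theorem pos_nonneg (x : ℤ) : 0 ≤ pos x := le_max_right _ _

theorem mutB_p {B : ι → ι → ℤ} (hB : Skew B) (k : ι) (i j : ι) (hi : i ≠ k) (hj : j ≠ k) :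
    mutB k B i j = B i j + ((pos (B i k)).toNat : ℤ) * B k j + B i k * ((pos (B j k)).toNat : ℤ) := by
  rw [Int.toNat_of_nonneg (pos_nonneg _), Int.toNat_of_nonneg (pos_nonneg _)]
  unfold mutB
  rw [if_neg (by tauto)]
  have e1 := pos_sub (B i k)
  have e2 := pos_sub (B k j)
  have e3 : pos (B j k) = pos (-(B k j)) := by rw [hB j k]
  rw [e3]
  have e4 : B i j + pos (B i k) * B k j + B i k * pos (-(B k j)) =
    B i j + pos (B i k) * (pos (B k j) - pos (-(B k j))) +
      (pos (B i k) - pos (-(B i k))) * pos (-(B k j)) := by rw [e1, e2]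
  rw [e4]
  ring

theorem mutB_m {B : ι → ι → ℤ} (hB : Skew B) (k : ι) (i j : ι) (hi : i ≠ k) (hj : j ≠ k) :
    mutB k B i j = B i j + ((pos (-(B i k))).toNat : ℤ) * B k j
      + B i k * ((pos (-(B j k))).toNat : ℤ) := by
  rw [Int.toNat_of_nonneg (pos_nonneg _), Int.toNat_of_nonneg (pos_nonneg _)]
  unfold mutB
  rw [if_neg (by tauto)]
  have e1 := pos_sub (B i k)
  have e2 := pos_sub (B k j)
  have e3 : pos (-(B j k)) = pos (B k j) := by rw [hB k j]
  rw [e3]
  have e4 : B i j + pos (-(B i k)) * B k j + B i k * pos (B k j) =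
    B i j + pos (-(B i k)) * (pos (B k j) - pos (-(B k j))) +
      (pos (B i k) - pos (-(B i k))) * pos (B k j) := by rw [e1, e2]
  rw [e4]
  ring

end SGx

open SGx in
theorem sg_main : SgStm := by
  intro ι _ _ B hB k
  have h0 : B k k = 0 := by
    have := hB k k
    omega
  have hkp : (fun i => (pos (B i k)).toNat) k = 0 := by
    simp [h0, pos]
  have hkm : (fun i => (pos (-(B i k))).toNat) k = 0 := by
    simp [h0, pos]
  have trp : Tr B (mutB k B) (Sp B k) (sgp B k) :=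
    tr (p := fun i => (pos (B i k)).toNat) h0 hkp (mutB_p hB k) (mutB_right k B) (mutB_left k B)
      (Sp B k) (fun a => Iff.rfl)
  have trm : Tr B (mutB k B) (Sm B k) (sgm B k) :=
    tr (p := fun i => (pos (-(B i k))).toNat) h0 hkm (mutB_m hB k) (mutB_right k B)
      (mutB_left k B) (Sm B k) (fun a => Iff.rfl)
  refine ⟨trp, trm, ?_, ?_, ?_, ?_, ?_, ?_, ?_, ?_, ?_, ?_⟩
  · ext a
    show a k ≤ Cm (mutB k B) k a ↔ a k ≤ Cp B k a
    simp only [Cm, Cp, mutB_right, neg_neg]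
  · ext a
    show a k ≤ Cp (mutB k B) k a ↔ a k ≤ Cm B k a
    simp only [Cm, Cp, mutB_right]
  · intro m hm a ha
    refine ev_sg (p := fun i => (pos (B i k)).toNat) hkp ?_ ?_ a ha
    · simp [mutR]
    · intro i hi
      show mutR k B m i = m i + ((pos (B i k)).toNat : ℤ) * m k
      rw [Int.toNat_of_nonneg (pos_nonneg _)]
      have e1 : pos (m k) = m k := max_eq_left hm
      have e2 : pos (-(m k)) = 0 := max_eq_right (by omega)
      simp only [mutR, if_neg hi, e1, e2]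
      ring
  · intro m hm a ha
    refine ev_sg (p := fun i => (pos (-(B i k))).toNat) hkm ?_ ?_ a ha
    · simp [mutR]
    · intro i hi
      show mutR k B m i = m i + ((pos (-(B i k))).toNat : ℤ) * m k
      rw [Int.toNat_of_nonneg (pos_nonneg _)]
      have e1 : pos (m k) = 0 := max_eq_right hm
      have e2 : pos (-(m k)) = -(m k) := max_eq_left (by omega)
      simp only [mutR, if_neg hi, e1, e2]
      ring
  · intro a n ha hn
    rw [ev_fn, ev_fn]
    exact trp.form a ha n hn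
  · intro a n ha hn
    rw [ev_fn, ev_fn]
    exact trm.form a ha n hn
  · intro n _
    exact frm_ek_sg' (fun i => (pos (B i k)).toNat) h0 (mutB_left k B) n
  · intro n _
    exact frm_ek_sg' (fun i => (pos (-(B i k))).toNat) h0 (mutB_left k B) n
  · intro n hn hne hs
    refine rho_sg (p := fun i => (pos (B i k)).toNat) 1 h0 hkp ?_ n hn hne (by rw [one_mul]; exact hs)
    intro i hi
    rw [one_mul] at hi
    have e := hB i k
    show (pos (B i k)).toNat = 0
    have : pos (B i k) = 0 := max_eq_right (by omega)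
    rw [this]
    rfl
  · intro n hn hne hs
    refine rho_sg (p := fun i => (pos (-(B i k))).toNat) (-1) h0 hkm ?_ n hn hne (by omega)
    intro i hi
    have e := hB i k
    show (pos (-(B i k))).toNat = 0
    have : pos (-(B i k)) = 0 := max_eq_right (by omega)
    rw [this]
    rfl

end Pool.Agent.R60.SC
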