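import Pool.Agent.R60.SC.Stm

/-!
# Project SC, piece STEP1: the supports of `E_k⁻¹ g` and `g E_k⁻¹`
-/

set_option autoImplicit false

namespace Pool.Agent.R60.SC

noncomputable section

namespace Step1Aux

variable {ι : Type} [Fintype ι] [DecidableEq ι]

theorem ek_apply (B : ι → ι → ℤ) (k : ι) (n : ι → ℕ) :
    Ek B k n = if n = Pi.single k (n k) then eC (n k) else 0 := by
  show (if n = Pi.single k (n k) then PowerSeries.coeff (n k) eS else 0) = _
  rw [eS, PowerSeries.coeff_mk]

theorem ek_zero (B : ι → ι → ℤ) (k : ι) : Ek B k 0 = 1 := by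
  rw [ek_apply, if_pos]
  · rfl
  · simp

theorem ek_supp {B : ι → ι → ℤ} {k : ι} {n : ι → ℕ} (h : Ek B k n ≠ 0) :
    n = Pi.single k (n k) := by
  by_contra hcon
  rw [ek_apply, if_neg hcon] at h
  exact h rfl

theorem ek_ev {B : ι → ι → ℤ} {k : ι} {n : ι → ℕ} (h : Ek B k n ≠ 0) (m : ι → ℤ) :
    ev m n = m k * (n k : ℤ) := by
  have h1 := ek_supp h
  rw [h1, ev_single]
  simp

theorem ek_pos {B : ι → ι → ℤ} {k : ι} {n : ι → ℕ} (hn : n ≠ 0) (h : Ek B k n ≠ 0) :
    0 < n k := by
  have h1 := ek_supp h
  rcases Nat.eq_zero_or_pos (n k) with h0 | h0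
  · exfalso
    apply hn
    rw [h1, h0]
    simp
  · exact h0

theorem ek_UP (B : ι → ι → ℤ) (k : ι) (m : ι → ℤ) (hm : 0 < m k) : UP m (Ek B k) := by
  refine ⟨ek_zero B k, fun a ha h => ?_⟩
  rw [ek_ev h]
  have := ek_pos ha h
  positivity

theorem ek_UN (B : ι → ι → ℤ) (k : ι) (m : ι → ℤ) (hm : m k < 0) : UN m (Ek B k) := by
  refine ⟨ek_zero B k, fun a ha h => ?_⟩
  rw [ek_ev h]
  have h1 := ek_pos ha h
  have h2 : (0 : ℤ) < (a k : ℤ) := by exact_mod_cast h1
  nlinarith

theorem ek_UZ (B : ι → ι → ℤ) (k : ι) (m : ι → ℤ) (hm : m k = 0) : UZ m (Ek B k) := by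
  refine ⟨ek_zero B k, fun a h => ?_⟩
  rw [ek_ev h, hm, zero_mul]

theorem cm_sub_cp {B : ι → ι → ℤ} (hB : Skew B) (k : ι) (n : ι → ℕ) :
    (Cm B k n : ℤ) - Cp B k n = fn B n k := by
  unfold Cm Cp fn
  push_cast
  rw [← Finset.sum_sub_distrib]
  refine Finset.sum_congr rfl fun i _ => ?_
  have h1 := hB k i
  unfold pos
  rw [h1, Int.toNat_of_nonneg (le_max_right _ _), Int.toNat_of_nonneg (le_max_right _ _)]
  rcases le_total (B i k) 0 with h | h
  · rw [max_eq_right h, max_eq_left (by omega : (0 : ℤ) ≤ -(B i k))]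
    ring
  · rw [max_eq_left h, max_eq_right (by omega : -(B i k) ≤ 0)]
    ring

theorem bkk {B : ι → ι → ℤ} (hB : Skew B) (k : ι) : B k k = 0 := by
  have := hB k k
  omega

theorem sum_update (c : ι → ℕ) (k : ι) (hc : c k = 0) (n : ι → ℕ) (s : ℕ) :
    ∑ i, c i * (Function.update n k 0 + Pi.single k s : ι → ℕ) i = ∑ i, c i * n i := by
  refine Finset.sum_congr rfl fun i _ => ?_
  by_cases hi : i = k
  · subst hi
    rw [hc, zero_mul, zero_mul]
  · rw [Pi.add_apply, Function.update_of_ne hi, Pi.single_eq_of_ne hi, add_zero]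

theorem cp_line {B : ι → ι → ℤ} (hB : Skew B) (k : ι) (n : ι → ℕ) (s : ℕ) :
    Cp B k (Function.update n k 0 + Pi.single k s) = Cp B k n := by
  unfold Cp
  apply sum_update
  rw [bkk hB k]
  rfl

theorem cm_line {B : ι → ι → ℤ} (hB : Skew B) (k : ι) (n : ι → ℕ) (s : ℕ) :
    Cm B k (Function.update n k 0 + Pi.single k s) = Cm B k n := by
  unfold Cm
  apply sum_update
  rw [bkk hB k]
  rfl

omit [Fintype ι] in
theorem line_self (k : ι) (n : ι → ℕ) : Function.update n k 0 + Pi.single k (n k) = n := by
  funext i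
  by_cases hi : i = k
  · subst hi
    simp
  · rw [Pi.add_apply, Function.update_of_ne hi, Pi.single_eq_of_ne hi, add_zero]

omit [Fintype ι] in
theorem line_le (k : ι) (n : ι → ℕ) {s : ℕ} (hs : s ≤ n k) :
    Function.update n k 0 + Pi.single k s ≤ n := by
  intro i
  by_cases hi : i = k
  · subst hi
    simpa using hs
  · rw [Pi.add_apply, Function.update_of_ne hi, Pi.single_eq_of_ne hi, add_zero]

omit [Fintype ι] in
theorem line_k (k : ι) (n : ι → ℕ) (s : ℕ) :
    (Function.update n k 0 + Pi.single k s : ι → ℕ) k = s := by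
  simp

theorem frm_single (B : ι → ι → ℤ) (k : ι) (n : ι → ℕ) :
    frm B (Pi.single k 1) n = fn B n k := by
  rw [← ev_fn, ev_single]
  simp

theorem fn_line {B : ι → ι → ℤ} (hB : Skew B) (k : ι) (n : ι → ℕ) :
    fn B (Function.update n k 0) k = fn B n k := by
  unfold fn
  refine Finset.sum_congr rfl fun i _ => ?_
  by_cases hi : i = k
  · subst hi
    rw [bkk hB i]
    simp
  · rw [Function.update_of_ne hi]

/-- from `h` to `ht` along a line -/
theorem lineA (hPal : PalStm) {B : ι → ι → ℤ} (hB : Skew B) (k : ι) {h ht : TS B} (n : ι → ℕ)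
    (ha : 0 ≤ fn B n k)
    (hL : ∀ s, ht (Function.update n k 0 + Pi.single k s) =
      ∑ i ∈ Finset.range (s + 1),
        pc (fn B n k).natAbs i * h (Function.update n k 0 + Pi.single k (s - i)))
    (hh : ∀ x, x ≤ n → h x ≠ 0 → x k ≤ Cp B k x) (hn : ht n ≠ 0) : n k ≤ Cm B k n := by
  have h1 := hL (n k)
  rw [line_self] at h1
  rw [h1] at hn
  obtain ⟨i, hi, hne⟩ := Finset.exists_ne_zero_of_sum_ne_zero hn
  rw [Finset.mem_range] at hi
  have h2 : i ≤ (fn B n k).natAbs := by
    by_contra hcon
    push Not at hcon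
    apply hne
    rw [(hPal _).1 i hcon, zero_mul]
  have h3 : h (Function.update n k 0 + Pi.single k (n k - i)) ≠ 0 := right_ne_zero_of_mul hne
  have h4 := hh _ (line_le k n (Nat.sub_le _ _)) h3
  rw [line_k, cp_line hB] at h4
  have h5 := cm_sub_cp hB k n
  omega

/-- from `ht` to `h` along a line -/
theorem lineB (hPal : PalStm) {B : ι → ι → ℤ} (hB : Skew B) (k : ι) {h ht : TS B} (n : ι → ℕ)
    (ha : fn B n k ≤ 0)
    (hL : ∀ s, h (Function.update n k 0 + Pi.single k s) =
      ∑ i ∈ Finset.range (s + 1),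
        pc (fn B n k).natAbs i * ht (Function.update n k 0 + Pi.single k (s - i)))
    (hh : ∀ x, x ≤ n → ht x ≠ 0 → x k ≤ Cm B k x) (hn : h n ≠ 0) : n k ≤ Cp B k n := by
  have h1 := hL (n k)
  rw [line_self] at h1
  rw [h1] at hn
  obtain ⟨i, hi, hne⟩ := Finset.exists_ne_zero_of_sum_ne_zero hn
  rw [Finset.mem_range] at hi
  have h2 : i ≤ (fn B n k).natAbs := by
    by_contra hcon
    push Not at hcon
    apply hne
    rw [(hPal _).1 i hcon, zero_mul]
  have h3 : ht (Function.update n k 0 + Pi.single k (n k - i)) ≠ 0 := right_ne_zero_of_mul hne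
  have h4 := hh _ (line_le k n (Nat.sub_le _ _)) h3
  rw [line_k, cm_line hB] at h4
  have h5 := cm_sub_cp hB k n
  omega

theorem rho_zero {B : ι → ι → ℤ} (hB : Skew B) (k : ι) {n : ι → ℕ} (ha : fn B n k ≠ 0)
    (hk : 0 < n k) : rho n = 0 := by
  unfold rho
  rw [if_neg]
  rintro ⟨i, hi⟩
  by_cases hik : i = k
  · subst hik
    apply ha
    unfold fn
    apply Finset.sum_eq_zero
    intro j _
    by_cases hj : j = i
    · subst hj
      rw [bkk hB j, zero_mul]
    · rw [hi, Pi.single_eq_of_ne hj]
      simp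
  · rw [hi, Pi.single_eq_of_ne (Ne.symm hik)] at hk
    exact lt_irrefl _ hk

theorem rho_zero' {k : ι} {n : ι → ℕ} (hk : 0 < n k) (hn : n ≠ Pi.single k (n k)) :
    rho n = 0 := by
  unfold rho
  rw [if_neg]
  rintro ⟨i, hi⟩
  by_cases hik : i = k
  · subst hik
    exact hn hi
  · rw [hi, Pi.single_eq_of_ne (Ne.symm hik)] at hk
    exact lt_irrefl _ hk

end Step1Aux

open Step1Aux in
theorem step1_main : InvStm → MidStm → LnStm → LnEStm → PalStm → LineStm → IndStm →
    Step1Stm := by
  intro _ hMid hLn hLnE hPal hLine hInd ι _ _ B hB k g h ht hg hEh hEht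
  have hg0 : g 0 = 1 := hg.1
  have hh0 : h 0 = 1 := by
    rw [← hEh, mul_apply_zero, ek_zero, one_mul] at hg0
    exact hg0
  have hht0 : ht 0 = 1 := by
    rw [← hEht, mul_apply_zero, ek_zero, mul_one] at hg0
    exact hg0
  have hL := (hLine ι B hB k h ht).1 (hEht.trans hEh.symm)
  -- the induction
  have key : ∀ n : ι → ℕ, (h n ≠ 0 → n k ≤ Cp B k n) ∧ (ht n ≠ 0 → n k ≤ Cm B k n) := by
    intro n
    induction n using (wellFounded_lt (α := ι → ℕ)).induction with
    | _ n ih =>
      by_cases hn0 : n = 0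
      · subst hn0
        exact ⟨fun _ => Nat.zero_le _, fun _ => Nat.zero_le _⟩
      obtain ⟨m1, m2, m3, m4, m5, m6, m7, m8, m9⟩ := hMid ι B (fn B n)
      obtain ⟨hL1, hL2⟩ := hL (Function.update n k 0) (by simp)
      rw [frm_single, fn_line hB] at hL1 hL2
      have hIC := hg.2 n hn0
      rcases lt_trichotomy (fn B n k) 0 with ha | ha | ha
      · -- negative
        have hmid : mid (fn B n) g = mid (fn B n) ht := by
          rw [← hEht]
          exact m4 (Ek B k) ht (ek_UN B k _ ha) hht0
        have hS2 : ht n ≠ 0 → n k ≤ Cm B k n := by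
          intro hne
          by_contra hcon
          push Not at hcon
          have h1 := hInd ι B hB ht (Sm B k) n hht0 (fun h' => by
            have : n k ≤ Cm B k n := h'
            omega) (fun a ha' hane => (ih a ha').2 hane)
          rw [← hmid, hIC, rho_zero hB k ha.ne (by omega)] at h1
          exact hne h1.symm
        refine ⟨?_, hS2⟩
        apply lineB hPal hB k n ha.le (hL2 ha.le)
        intro x hx hne
        rcases eq_or_lt_of_le hx with rfl | hx
        · exact hS2 hne
        · exact (ih x hx).2 hne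
      · -- zero
        have hmid : mid (fn B n) g = Ek B k * mid (fn B n) h := by
          rw [← hEh]
          exact m5 (Ek B k) h (ek_UZ B k _ ha) hh0
        have hUZ : UZ (fn B n) (mid (fn B n) h) := (m1 h hh0).1
        have hadd := (hLn ι B).2.2 hB (Ek B k) (mid (fn B n) h) n (ek_zero B k) hUZ.1
          (fun a hane => by
            rw [← ev_fn]
            exact (ek_UZ B k (fn B n) ha).2 a hane)
          (fun a hane => by
            rw [← ev_fn]
            exact hUZ.2 a hane)
        rw [← hmid, hIC, (hLnE.1 ι B hB k n hn0)] at hadd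
        have hS1 : h n ≠ 0 → n k ≤ Cp B k n := by
          intro hne
          by_contra hcon
          push Not at hcon
          have h1 := hInd ι B hB h (Sp B k) n hh0 (fun h' => by
            have : n k ≤ Cp B k n := h'
            omega) (fun a ha' hane => (ih a ha').1 hane)
          have h2 : Ln n (mid (fn B n) h) = 0 := by
            by_cases hns : n = Pi.single k (n k)
            · have h3 : rho n = lc (deg n) := by
                unfold rho
                rw [if_pos ⟨k, hns⟩]
              rw [if_pos hns, h3] at hadd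
              linarith
            · rw [if_neg hns, rho_zero' (by omega) hns] at hadd
              linarith
          rw [h2] at h1
          exact hne h1.symm
        refine ⟨hS1, ?_⟩
        apply lineA hPal hB k n ha.ge (hL1 ha.ge)
        intro x hx hne
        rcases eq_or_lt_of_le hx with rfl | hx
        · exact hS1 hne
        · exact (ih x hx).1 hne
      · -- positive
        have hmid : mid (fn B n) g = mid (fn B n) h := by
          rw [← hEh]
          exact m3 (Ek B k) h (ek_UP B k _ ha) hh0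
        have hS1 : h n ≠ 0 → n k ≤ Cp B k n := by
          intro hne
          by_contra hcon
          push Not at hcon
          have h1 := hInd ι B hB h (Sp B k) n hh0 (fun h' => by
            have : n k ≤ Cp B k n := h'
            omega) (fun a ha' hane => (ih a ha').1 hane)
          rw [← hmid, hIC, rho_zero hB k ha.ne' (by omega)] at h1
          exact hne h1.symm
        refine ⟨hS1, ?_⟩
        apply lineA hPal hB k n ha.le (hL1 ha.le)
        intro x hx hne
        rcases eq_or_lt_of_le hx with rfl | hx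
        · exact hS1 hne
        · exact (ih x hx).1 hne
  exact ⟨fun n => (key n).1, fun n => (key n).2⟩

end

end Pool.Agent.R60.SC
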