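import Mathlib
import Pool.Agent.R60.SC.Stm

/-!
# Project SC: the mutation rule of the consistent element
-/

namespace Pool.Agent.R60.SC

noncomputable section

set_option linter.unusedSectionVars false

theorem skew_mut {ι : Type} [DecidableEq ι] {B : ι → ι → ℤ} (hB : Skew B) (k : ι) :
    Skew (mutB k B) := by
  intro i j
  unfold mutB
  by_cases h : i = k ∨ j = k
  · rw [if_pos h, if_pos (Or.symm h), hB i j]
  · rw [if_neg h, if_neg (fun h' => h (Or.symm h')), hB i j, hB i k, hB k j]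
    simp only [neg_neg]
    ring

/-- Expansion of a truncated convolution. -/
theorem conv_trunc (P X : ℕ → ℚ) (c d t : ℕ) (hP : ∀ i, d < i → P i = 0)
    (hX : ∀ i, c < i → X i = 0) :
    ∑ i ∈ Finset.range (t + 1), P i * X (t - i) =
      ∑ i ∈ Finset.range (d + 1), if i ≤ t ∧ t ≤ c + i then P i * X (t - i) else 0 := by
  have h1 : ∑ i ∈ Finset.range (t + 1), P i * X (t - i) =
      ∑ i ∈ Finset.range (t + d + 1), if i ≤ t ∧ t ≤ c + i then P i * X (t - i) else 0 := by
    rw [← Finset.sum_subset (s₁ := Finset.range (t + 1)) (s₂ := Finset.range (t + d + 1))]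
    · refine Finset.sum_congr rfl fun i hi => ?_
      rw [Finset.mem_range] at hi
      by_cases h : t ≤ c + i
      · rw [if_pos ⟨by omega, h⟩]
      · rw [if_neg (fun h' => h h'.2), hX (t - i) (by omega), mul_zero]
    · intro i hi
      rw [Finset.mem_range] at hi ⊢
      omega
    · intro i _ hi
      rw [Finset.mem_range] at hi
      rw [if_neg]
      rintro ⟨h, _⟩
      omega
  rw [h1]
  symm
  apply Finset.sum_subset
  · intro i hi
    rw [Finset.mem_range] at hi ⊢
    omega
  · intro i _ hi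
    rw [Finset.mem_range] at hi
    rw [hP i (by omega)]
    simp

/-- Reversal of a convolution with a palindromic polynomial. -/
theorem conv_rev (P X Y : ℕ → ℚ) (c d : ℕ) (hP : ∀ i, d < i → P i = 0)
    (hPal : ∀ i, i ≤ d → P i = P (d - i))
    (hX : ∀ i, c < i → X i = 0)
    (hXY : ∀ s, Y s = ∑ i ∈ Finset.range (s + 1), P i * X (s - i)) (s : ℕ) :
    (if s ≤ c + d then Y (c + d - s) else 0) =
      ∑ i ∈ Finset.range (s + 1), P i * (if s - i ≤ c then X (c - (s - i)) else 0) := by
  have hX' : ∀ i, c < i → (fun i => if i ≤ c then X (c - i) else 0) i = 0 := by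
    intro i hi
    simp only
    rw [if_neg (by omega)]
  have h2 := conv_trunc P (fun i => if i ≤ c then X (c - i) else 0) c d s hP hX'
  rw [h2]
  by_cases hs : s ≤ c + d
  · rw [if_pos hs, hXY, conv_trunc P X c d _ hP hX, ← Finset.sum_range_reflect]
    refine Finset.sum_congr rfl fun j hj => ?_
    rw [Finset.mem_range] at hj
    have e : d + 1 - 1 - j = d - j := by omega
    rw [e]
    by_cases h : j ≤ s ∧ s ≤ c + j
    · rw [if_pos h, if_pos (by omega), if_pos (by omega), ← hPal j (by omega)]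
      congr 2
      omega
    · rw [if_neg h, if_neg (by omega)]
  · rw [if_neg hs]
    symm
    apply Finset.sum_eq_zero
    intro i hi
    rw [Finset.mem_range] at hi
    rw [if_neg (by omega)]

variable {ι : Type} [Fintype ι] [DecidableEq ι] {B : ι → ι → ℤ}

theorem skew_diag (hB : Skew B) (k : ι) : B k k = 0 := by
  have := hB k k
  omega

theorem Cp_line (hB : Skew B) (k : ι) (n₀ : ι → ℕ) (s : ℕ) :
    Cp B k (n₀ + Pi.single k s) = Cp B k n₀ := by
  unfold Cp
  refine Finset.sum_congr rfl fun i _ => ?_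
  by_cases h : i = k
  · subst h
    simp [skew_diag hB, pos]
  · simp [Pi.single_eq_of_ne h]

theorem Cm_line (hB : Skew B) (k : ι) (n₀ : ι → ℕ) (s : ℕ) :
    Cm B k (n₀ + Pi.single k s) = Cm B k n₀ := by
  unfold Cm
  refine Finset.sum_congr rfl fun i _ => ?_
  by_cases h : i = k
  · subst h
    simp [skew_diag hB, pos]
  · simp [Pi.single_eq_of_ne h]

theorem frm_single (B : ι → ι → ℤ) (k : ι) (n : ι → ℕ) :
    frm B (Pi.single k 1) n = ∑ j, B k j * (n j : ℤ) := by
  rw [← ev_fn, ev_single]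
  simp [fn]

theorem frm_eq_C (hB : Skew B) (k : ι) (n : ι → ℕ) :
    frm B (Pi.single k 1) n = (Cm B k n : ℤ) - (Cp B k n : ℤ) := by
  rw [frm_single]
  unfold Cm Cp
  push_cast
  rw [← Finset.sum_sub_distrib]
  refine Finset.sum_congr rfl fun i _ => ?_
  rw [← sub_mul, hB k i]
  congr 1
  simp only [pos]
  omega

theorem frm_line (hB : Skew B) (k : ι) (n₀ : ι → ℕ) (s : ℕ) :
    frm B (Pi.single k 1) (n₀ + Pi.single k s) = frm B (Pi.single k 1) n₀ := by
  rw [frm_eq_C hB, frm_eq_C hB, Cp_line hB, Cm_line hB]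

theorem sgp_line (hB : Skew B) (k : ι) (n₀ : ι → ℕ) (h0 : n₀ k = 0) (s : ℕ) :
    sgp B k (n₀ + Pi.single k s) = n₀ + Pi.single k (Cp B k n₀ - s) := by
  unfold sgp
  rw [Cp_line hB]
  funext i
  by_cases h : i = k
  · subst h
    simp [h0]
  · simp [Function.update_of_ne h, Pi.single_eq_of_ne h]

theorem sgm_line (hB : Skew B) (k : ι) (n₀ : ι → ℕ) (h0 : n₀ k = 0) (s : ℕ) :
    sgm B k (n₀ + Pi.single k s) = n₀ + Pi.single k (Cm B k n₀ - s) := by
  unfold sgm
  rw [Cm_line hB]
  funext i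
  by_cases h : i = k
  · subst h
    simp [h0]
  · simp [Function.update_of_ne h, Pi.single_eq_of_ne h]

theorem mem_Sp {k : ι} {n : ι → ℕ} : n ∈ Sp B k ↔ n k ≤ Cp B k n := Iff.rfl

theorem mem_Sm {k : ι} {n : ι → ℕ} : n ∈ Sm B k ↔ n k ≤ Cm B k n := Iff.rfl

theorem push_apply (B' : ι → ι → ℤ) (S : AddSubmonoid (ι → ℕ)) (σ : (ι → ℕ) → (ι → ℕ))
    (f : TS B) (n : ι → ℕ) [Decidable (n ∈ S)] :
    (push B' S σ f) n = if n ∈ S then f (σ n) else 0 := by
  unfold push
  simp only
  congr

theorem push_sp_line (hB : Skew B) (B' : ι → ι → ℤ) (k : ι) (h : TS B) (n₀ : ι → ℕ)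
    (h0 : n₀ k = 0) (s : ℕ) :
    (push B' (Sp B k) (sgp B k) h) (n₀ + Pi.single k s) =
      if s ≤ Cp B k n₀ then h (n₀ + Pi.single k (Cp B k n₀ - s)) else 0 := by
  classical
  rw [push_apply, sgp_line hB k n₀ h0]
  have : (n₀ + Pi.single k s ∈ Sp B k) ↔ s ≤ Cp B k n₀ := by
    rw [mem_Sp, Cp_line hB]
    simp [h0]
  simp only [this]

theorem push_sm_line (hB : Skew B) (B' : ι → ι → ℤ) (k : ι) (h : TS B) (n₀ : ι → ℕ)
    (h0 : n₀ k = 0) (s : ℕ) :
    (push B' (Sm B k) (sgm B k) h) (n₀ + Pi.single k s) =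
      if s ≤ Cm B k n₀ then h (n₀ + Pi.single k (Cm B k n₀ - s)) else 0 := by
  classical
  rw [push_apply, sgm_line hB k n₀ h0]
  have : (n₀ + Pi.single k s ∈ Sm B k) ↔ s ≤ Cm B k n₀ := by
    rw [mem_Sm, Cm_line hB]
    simp [h0]
  simp only [this]

theorem Ek_zero (B : ι → ι → ℤ) (k : ι) : (Ek B k) 0 = 1 := by
  unfold Ek psi eS
  simp [eC]

theorem Ek_supp {k : ι} {a : ι → ℕ} (h : (Ek B k) a ≠ 0) : a = Pi.single k (a k) := by
  unfold Ek psi at h
  simp only at h
  by_contra hne
  rw [if_neg hne] at h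
  exact h rfl

theorem ev_Ek (m : ι → ℤ) {k : ι} {a : ι → ℕ} (h : (Ek B k) a ≠ 0) : ev m a = m k * (a k : ℤ) := by
  have h1 := Ek_supp h
  calc ev m a = ev m (Pi.single k (a k)) := by rw [← h1]
    _ = _ := ev_single m k (a k)

theorem Ek_pos {k : ι} {a : ι → ℕ} (h : (Ek B k) a ≠ 0) (ha : a ≠ 0) : 0 < (a k : ℤ) := by
  have h1 := Ek_supp h
  have : a k ≠ 0 := by
    intro h0
    apply ha
    rw [h1, h0]
    simp
  omega

theorem Ek_UP {m : ι → ℤ} {k : ι} (h : 0 < m k) : UP m (Ek B k) := by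
  refine ⟨Ek_zero B k, fun a ha hne => ?_⟩
  rw [ev_Ek m hne]
  exact mul_pos h (Ek_pos hne ha)

theorem Ek_UZ {m : ι → ℤ} {k : ι} (h : m k = 0) : UZ m (Ek B k) := by
  refine ⟨Ek_zero B k, fun a hne => ?_⟩
  rw [ev_Ek m hne, h, zero_mul]

theorem Ek_UN {m : ι → ℤ} {k : ι} (h : m k < 0) : UN m (Ek B k) := by
  refine ⟨Ek_zero B k, fun a ha hne => ?_⟩
  rw [ev_Ek m hne]
  exact mul_neg_of_neg_of_pos h (Ek_pos hne ha)

theorem fn_k (B : ι → ι → ℤ) (k : ι) (n : ι → ℕ) : fn B n k = frm B (Pi.single k 1) n := by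
  rw [frm_single]
  rfl

theorem frm_single_single (hB : Skew B) (k : ι) (j : ℕ) :
    frm B (Pi.single k 1) (Pi.single k j) = 0 := by
  have := frm_line hB k 0 j
  rw [zero_add, frm_zero_right] at this
  exact this

theorem Cm_single (hB : Skew B) (k : ι) (j : ℕ) : Cm B k (Pi.single k j) = 0 := by
  have := Cm_line hB k 0 j
  rw [zero_add] at this
  rw [this]
  simp [Cm]

theorem Cp_single (hB : Skew B) (k : ι) (j : ℕ) : Cp B k (Pi.single k j) = 0 := by
  have := Cp_line hB k 0 j
  rw [zero_add] at this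
  rw [this]
  simp [Cp]

/-- Comparison along lines of the transported factors. -/
theorem push_line (hPal : PalStm) (hLine : LineStm) (hB : Skew B) (k : ι) (h ht : TS B)
    (hS1 : ∀ n, h n ≠ 0 → n k ≤ Cp B k n) (hS2 : ∀ n, ht n ≠ 0 → n k ≤ Cm B k n)
    (hEq : ht * Ek B k = Ek B k * h) :
    push (mutB k B) (Sp B k) (sgp B k) h * Ek (mutB k B) k =
      Ek (mutB k B) k * push (mutB k B) (Sm B k) (sgm B k) ht := by
  have hB' : Skew (mutB k B) := skew_mut hB k
  have hL := (hLine ι B hB k h ht).1 hEq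
  refine (hLine ι (mutB k B) hB' k _ _).2 ?_
  intro n₀ h0
  obtain ⟨hLp, hLm⟩ := hL n₀ h0
  have hneg : frm (mutB k B) (Pi.single k 1) n₀ = - frm B (Pi.single k 1) n₀ := by
    rw [frm_single, frm_single, ← Finset.sum_neg_distrib]
    refine Finset.sum_congr rfl fun j _ => ?_
    simp [mutB]
  have hC := frm_eq_C hB k n₀
  have hH0 : ∀ i, Cp B k n₀ < i → h (n₀ + Pi.single k i) = 0 := by
    intro i hi
    by_contra hne
    have := hS1 _ hne
    rw [Cp_line hB] at this
    simp [h0] at this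
    omega
  have hHt0 : ∀ i, Cm B k n₀ < i → ht (n₀ + Pi.single k i) = 0 := by
    intro i hi
    by_contra hne
    have := hS2 _ hne
    rw [Cm_line hB] at this
    simp [h0] at this
    omega
  rw [hneg]
  constructor
  · intro ha s
    have ha' : frm B (Pi.single k 1) n₀ ≤ 0 := by omega
    have hd : Cp B k n₀ = Cm B k n₀ + (frm B (Pi.single k 1) n₀).natAbs := by omega
    rw [Int.natAbs_neg]
    obtain ⟨hP1, hP2, -⟩ := hPal (frm B (Pi.single k 1) n₀).natAbs
    have key := conv_rev (pc (frm B (Pi.single k 1) n₀).natAbs)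
      (fun s => ht (n₀ + Pi.single k s)) (fun s => h (n₀ + Pi.single k s)) (Cm B k n₀)
      (frm B (Pi.single k 1) n₀).natAbs hP1 hP2 hHt0 (hLm ha') s
    rw [← hd] at key
    rw [push_sp_line hB _ k h n₀ h0 s]
    rw [key]
    refine Finset.sum_congr rfl fun i _ => ?_
    rw [push_sm_line hB _ k ht n₀ h0 (s - i)]
  · intro ha s
    have ha' : 0 ≤ frm B (Pi.single k 1) n₀ := by omega
    have hd : Cm B k n₀ = Cp B k n₀ + (frm B (Pi.single k 1) n₀).natAbs := by omega
    rw [Int.natAbs_neg]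
    obtain ⟨hP1, hP2, -⟩ := hPal (frm B (Pi.single k 1) n₀).natAbs
    have key := conv_rev (pc (frm B (Pi.single k 1) n₀).natAbs)
      (fun s => h (n₀ + Pi.single k s)) (fun s => ht (n₀ + Pi.single k s)) (Cp B k n₀)
      (frm B (Pi.single k 1) n₀).natAbs hP1 hP2 hH0 (hLp ha') s
    rw [← hd] at key
    rw [push_sm_line hB _ k ht n₀ h0 s]
    rw [key]
    refine Finset.sum_congr rfl fun i _ => ?_
    rw [push_sp_line hB _ k h n₀ h0 (s - i)]

/-- Piece STEP2. -/
theorem step2_main : MidStm → LnStm → LnEStm → PalStm → LineStm → Step1Stm → TrStm → SgStm →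
    Step2Stm := by
  intro hMid hLn hLnE hPal hLine hStep1 hTr hSg ι _ _ B hB k g h ht hg hh hht
  have hB' : Skew (mutB k B) := skew_mut hB k
  obtain ⟨hS1, hS2⟩ := hStep1 ι B hB k g h ht hg hh hht
  have hEq : ht * Ek B k = Ek B k * h := by rw [hh, hht]
  have hpl := push_line hPal hLine hB k h ht hS1 hS2 hEq
  refine ⟨hpl.symm, ?_⟩
  obtain ⟨sg1, sg2, sg3, sg4, sg5, sg6, sg7, sg8, sg9, sg10, sg11, sg12⟩ := hSg ι B hB k
  obtain ⟨trp1, trp2, trp3, trp4, trp5⟩ := hTr ι B (mutB k B) (Sp B k) (sgp B k) sg1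
  obtain ⟨trm1, trm2, trm3, trm4, trm5⟩ := hTr ι B (mutB k B) (Sm B k) (sgm B k) sg2
  have hg0 : g 0 = 1 := hg.1
  have hh0 : h 0 = 1 := by
    have := mul_apply_zero (Ek B k) h
    rw [hh, hg0, Ek_zero, one_mul] at this
    exact this.symm
  have hht0 : ht 0 = 1 := by
    have := mul_apply_zero ht (Ek B k)
    rw [hht, hg0, Ek_zero, mul_one] at this
    exact this.symm
  have hSh : SuppIn (Sp B k) h := fun a ha => hS1 a ha
  have hSht : SuppIn (Sm B k) ht := fun a ha => hS2 a ha
  set hp : TS (mutB k B) := push (mutB k B) (Sp B k) (sgp B k) h with hpdef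
  set htp : TS (mutB k B) := push (mutB k B) (Sm B k) (sgm B k) ht with htpdef
  obtain ⟨hp0, hpS⟩ := trp3 h hh0
  obtain ⟨htp0, htpS⟩ := trm3 ht hht0
  refine ⟨?_, ?_⟩
  · rw [mul_apply_zero, hp0, Ek_zero, one_mul]
  intro n' hn'
  obtain ⟨-, -, mid3, mid4, mid5, mid6, mid7, -, -⟩ := hMid ι (mutB k B) (fn (mutB k B) n')
  have hmk : fn (mutB k B) n' k = frm (mutB k B) (Pi.single k 1) n' := fn_k _ _ _
  -- the value for `htp` when `n'` lies in `Sm`
  have valm : ∀ n, n ∈ Sm B k → sgm B k n = n' → Ln n' (mid (fn (mutB k B) n') htp) =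
      Ln n (mid (fn B n) ht) := by
    intro n hn hnn
    have e1 : mid (fn (mutB k B) n') htp =
        push (mutB k B) (Sm B k) (sgm B k) (mid (fn B n) ht) := by
      rw [htpdef]
      apply trm4 (fn B n) (fn (mutB k B) n') _ ht hht0 hSht
      intro a ha
      rw [← hnn]
      exact sg8 a n ha hn
    rw [e1]
    obtain ⟨m1, -, -, -, -, -, m7, -, -⟩ := hMid ι B (fn B n)
    have := trm5 (mid (fn B n) ht) (m1 ht hht0).1.1 (m7 ht hht0 _ hSht) n hn
    rw [hnn] at this
    exact this
  have valp : ∀ n, n ∈ Sp B k → sgp B k n = n' → Ln n' (mid (fn (mutB k B) n') hp) =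
      Ln n (mid (fn B n) h) := by
    intro n hn hnn
    have e1 : mid (fn (mutB k B) n') hp =
        push (mutB k B) (Sp B k) (sgp B k) (mid (fn B n) h) := by
      rw [hpdef]
      apply trp4 (fn B n) (fn (mutB k B) n') _ h hh0 hSh
      intro a ha
      rw [← hnn]
      exact sg7 a n ha hn
    rw [e1]
    obtain ⟨m1, -, -, -, -, -, m7, -, -⟩ := hMid ι B (fn B n)
    have := trp5 (mid (fn B n) h) (m1 h hh0).1.1 (m7 h hh0 _ hSh) n hn
    rw [hnn] at this
    exact this
  have hne_of : ∀ (σ : (ι → ℕ) → (ι → ℕ)) (S : AddSubmonoid (ι → ℕ)), Tr B (mutB k B) S σ →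
      ∀ n ∈ S, σ n = n' → n ≠ 0 := by
    intro σ S tr n hn hnn h0
    subst h0
    have := tr.add 0 S.zero_mem 0 S.zero_mem
    rw [add_zero] at this
    have h00 : σ 0 = 0 := by
      funext i
      have := congrFun this i
      simp only [Pi.add_apply, Pi.zero_apply] at this ⊢
      omega
    exact hn' (by rw [← hnn, h00])
  have single_of : ∀ i : ι, n' = Pi.single i (n' i) → i ≠ k → n' k = 0 := by
    intro i hi hik
    rw [hi]
    simp [Pi.single_eq_of_ne (Ne.symm hik)]
  rcases lt_trichotomy (frm (mutB k B) (Pi.single k 1) n') 0 with hlt | heq | hgt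
  · -- negative: `E_k` on the right
    rw [mid4 (Ek (mutB k B) k) hp (Ek_UN (by rw [hmk]; exact hlt)) hp0]
    by_cases hmem : n' ∈ Sp B k
    · have hnS : sgp B k n' ∈ Sp B k := sg1.maps n' hmem
      have hinv : sgp B k (sgp B k n') = n' := sg1.invol n' hmem
      set n := sgp B k n' with hn
      rw [valp n hnS hinv]
      have hnne := hne_of (sgp B k) (Sp B k) sg1 n hnS hinv
      have hfr := sg9 n hnS
      rw [hinv] at hfr
      have hpos : 0 < frm B (Pi.single k 1) n := by omega
      obtain ⟨-, -, m3, -, -, -, -, -, -⟩ := hMid ι B (fn B n)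
      have e := m3 (Ek B k) h (Ek_UP (by rw [fn_k]; exact hpos)) hh0
      rw [hh] at e
      rw [← e, hg.2 n hnne, ← sg11 n hnS hnne hpos.le, hinv]
    · rw [(hLn ι (mutB k B)).1 _ (Sp B k) n' ?_ ?_ hmem]
      · symm
        unfold rho
        rw [if_neg]
        rintro ⟨i, hi⟩
        by_cases hik : i = k
        · subst hik
          rw [hi, frm_single_single hB'] at hlt
          omega
        · have h0 := single_of i hi hik
          apply hmem
          rw [mem_Sp, h0]
          exact Nat.zero_le _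
      · exact ((hMid ι (mutB k B) (fn (mutB k B) n')).1 hp hp0).1.1
      · exact mid7 hp hp0 _ hpS
  · -- zero
    have hz : fn (mutB k B) n' k = 0 := by rw [hmk]; exact heq
    rw [hpl, mid5 (Ek (mutB k B) k) htp (Ek_UZ hz) htp0]
    have hmz := ((hMid ι (mutB k B) (fn (mutB k B) n')).1 htp htp0).1
    rw [(hLn ι (mutB k B)).2.2 hB' _ _ n' (Ek_zero _ _) hmz.1 ?_ ?_]
    · rw [hLnE.1 ι (mutB k B) hB' k n' hn']
      by_cases hmem : n' ∈ Sm B k
      · have hnS : sgm B k n' ∈ Sm B k := sg2.maps n' hmem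
        have hinv : sgm B k (sgm B k n') = n' := sg2.invol n' hmem
        set n := sgm B k n' with hn
        rw [valm n hnS hinv]
        have hnne := hne_of (sgm B k) (Sm B k) sg2 n hnS hinv
        have hfr := sg10 n hnS
        rw [hinv] at hfr
        have hzero : frm B (Pi.single k 1) n = 0 := by omega
        have hz2 : fn B n k = 0 := by rw [fn_k]; exact hzero
        obtain ⟨m1, -, -, -, -, m6, -, -, -⟩ := hMid ι B (fn B n)
        have e := m6 (Ek B k) ht (Ek_UZ hz2) hht0
        rw [hht] at e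
        have hmz2 := (m1 ht hht0).1
        have h1 := hg.2 n hnne
        rw [e, (hLn ι B).2.2 hB _ _ n hmz2.1 (Ek_zero _ _) ?_ ?_] at h1
        · have nks : ∀ x : ι → ℕ, x ∈ Sm B k → x ≠ 0 → ¬ (x = Pi.single k (x k)) := by
            intro x hx hx0 hxs
            rw [mem_Sm] at hx
            have : Cm B k x = 0 := by
              rw [hxs]
              exact Cm_single hB k _
            apply hx0
            rw [hxs]
            have : x k = 0 := by omega
            rw [this]
            simp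
          rw [hLnE.1 ι B hB k n hnne, if_neg (nks n hnS hnne), add_zero] at h1
          rw [if_neg (nks n' hmem hn'), zero_add, h1, ← sg12 n hnS hnne hzero.le, hinv]
        · intro a ha
          rw [← ev_fn]
          exact hmz2.2 a ha
        · intro a ha
          rw [← ev_fn]
          exact (Ek_UZ hz2).2 a ha
      · rw [(hLn ι (mutB k B)).1 _ (Sm B k) n' hmz.1 (mid7 htp htp0 _ htpS) hmem, add_zero]
        unfold rho
        by_cases hs : n' = Pi.single k (n' k)
        · rw [if_pos hs, if_pos ⟨k, hs⟩]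
        · rw [if_neg hs, if_neg]
          rintro ⟨i, hi⟩
          by_cases hik : i = k
          · subst hik
            exact hs hi
          · have h0 := single_of i hi hik
            apply hmem
            rw [mem_Sm, h0]
            exact Nat.zero_le _
    · intro a ha
      rw [← ev_fn]
      exact (Ek_UZ hz).2 a ha
    · intro a ha
      rw [← ev_fn]
      exact hmz.2 a ha
  · -- positive: `E_k` on the left
    rw [hpl, mid3 (Ek (mutB k B) k) htp (Ek_UP (by rw [hmk]; exact hgt)) htp0]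
    by_cases hmem : n' ∈ Sm B k
    · have hnS : sgm B k n' ∈ Sm B k := sg2.maps n' hmem
      have hinv : sgm B k (sgm B k n') = n' := sg2.invol n' hmem
      set n := sgm B k n' with hn
      rw [valm n hnS hinv]
      have hnne := hne_of (sgm B k) (Sm B k) sg2 n hnS hinv
      have hfr := sg10 n hnS
      rw [hinv] at hfr
      have hneg : frm B (Pi.single k 1) n < 0 := by omega
      obtain ⟨-, -, -, m4, -, -, -, -, -⟩ := hMid ι B (fn B n)
      have e := m4 (Ek B k) ht (Ek_UN (by rw [fn_k]; exact hneg)) hht0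
      rw [hht] at e
      rw [← e, hg.2 n hnne, ← sg12 n hnS hnne hneg.le, hinv]
    · rw [(hLn ι (mutB k B)).1 _ (Sm B k) n' ?_ ?_ hmem]
      · symm
        unfold rho
        rw [if_neg]
        rintro ⟨i, hi⟩
        by_cases hik : i = k
        · subst hik
          rw [hi, frm_single_single hB'] at hgt
          omega
        · have h0 := single_of i hi hik
          apply hmem
          rw [mem_Sm, h0]
          exact Nat.zero_le _
      · exact ((hMid ι (mutB k B) (fn (mutB k B) n')).1 htp htp0).1.1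
      · exact mid7 htp htp0 _ htpS

end

end Pool.Agent.R60.SC
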