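import Mathlib
import Pool.Agent.R60.SC.Stm

/-!
# Project SC: transport of middle factors and of logarithmic coefficients
-/

namespace Pool.Agent.R60.SC

noncomputable section

set_option linter.unusedSectionVars false

section

variable {ι : Type} [Fintype ι] [DecidableEq ι] {B B' : ι → ι → ℤ} {S : AddSubmonoid (ι → ℕ)}
  {σ : (ι → ℕ) → (ι → ℕ)}

theorem Tr_zero (T : Tr B B' S σ) : σ 0 = 0 := by
  have h := T.add 0 S.zero_mem 0 S.zero_mem
  rw [add_zero] at h
  funext i
  have := congrFun h i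
  simp only [Pi.add_apply, Pi.zero_apply] at this ⊢
  omega

theorem Tr_eq_zero (T : Tr B B' S σ) {n : ι → ℕ} (hn : n ∈ S) : σ n = 0 ↔ n = 0 := by
  constructor
  · intro h
    rw [← T.invol n hn, h, Tr_zero T]
  · rintro rfl
    exact Tr_zero T

theorem Tr_push_mem {f : TS B} {n : ι → ℕ} (hn : n ∈ S) : (push B' S σ f) n = f (σ n) := by
  classical
  exact if_pos hn

theorem Tr_push_not {f : TS B} {n : ι → ℕ} (hn : n ∉ S) : (push B' S σ f) n = 0 := by
  classical
  exact if_neg hn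

theorem Tr_push_supp (f : TS B) : SuppIn S (push B' S σ f) := by
  intro a ha
  by_contra h
  exact ha (Tr_push_not h)

theorem Tr_push_sub (f g : TS B) : push B' S σ (f - g) = push B' S σ f - push B' S σ g := by
  ext n
  by_cases hn : n ∈ S
  · rw [sub_apply, Tr_push_mem hn, Tr_push_mem hn, Tr_push_mem hn, sub_apply]
  · rw [sub_apply, Tr_push_not hn, Tr_push_not hn, Tr_push_not hn, sub_zero]

theorem Tr_push_one (T : Tr B B' S σ) : push B' S σ (1 : TS B) = 1 := by
  ext n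
  by_cases hn : n ∈ S
  · rw [Tr_push_mem hn, one_apply, one_apply]
    by_cases h : n = 0
    · rw [if_pos h, if_pos ((Tr_eq_zero T hn).2 h)]
    · rw [if_neg h, if_neg fun h' => h ((Tr_eq_zero T hn).1 h')]
  · rw [Tr_push_not hn, one_apply_ne]
    rintro rfl
    exact hn S.zero_mem

theorem Tr_push_mul (T : Tr B B' S σ) {f g : TS B} (hf : SuppIn S f) (hg : SuppIn S g) :
    push B' S σ (f * g) = push B' S σ f * push B' S σ g := by
  classical
  ext n
  by_cases hn : n ∈ S
  · rw [Tr_push_mem hn, mul_apply, mul_apply]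
    have e1 : ∑ p ∈ adj (σ n), (2 : ℚ) ^ (frm B p.1 p.2) * (f p.1 * g p.2) =
        ∑ p ∈ (adj (σ n)).filter (fun p => p.1 ∈ S ∧ p.2 ∈ S),
          (2 : ℚ) ^ (frm B p.1 p.2) * (f p.1 * g p.2) := by
      symm
      refine Finset.sum_filter_of_ne fun p _ hne => ⟨hf _ fun h => hne ?_, hg _ fun h => hne ?_⟩
      · rw [h]; simp
      · rw [h]; simp
    have e2 : ∑ p ∈ adj n, (2 : ℚ) ^ (frm B' p.1 p.2) *
        ((push B' S σ f) p.1 * (push B' S σ g) p.2) =
        ∑ p ∈ (adj n).filter (fun p => p.1 ∈ S ∧ p.2 ∈ S),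
          (2 : ℚ) ^ (frm B' p.1 p.2) * ((push B' S σ f) p.1 * (push B' S σ g) p.2) := by
      symm
      refine Finset.sum_filter_of_ne fun p _ hne => ⟨?_, ?_⟩
      · by_contra h
        apply hne
        rw [Tr_push_not h]; simp
      · by_contra h
        apply hne
        rw [Tr_push_not (f := g) h]; simp
    rw [e1, e2]
    refine Finset.sum_nbij' (fun p => (σ p.1, σ p.2)) (fun p => (σ p.1, σ p.2)) ?_ ?_ ?_ ?_ ?_
    · rintro ⟨a, b⟩ hp
      simp only [Finset.mem_filter, mem_adj] at hp ⊢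
      obtain ⟨hab, ha, hb⟩ := hp
      refine ⟨?_, T.maps a ha, T.maps b hb⟩
      rw [← T.add a ha b hb, hab, T.invol n hn]
    · rintro ⟨a, b⟩ hp
      simp only [Finset.mem_filter, mem_adj] at hp ⊢
      obtain ⟨hab, ha, hb⟩ := hp
      refine ⟨?_, T.maps a ha, T.maps b hb⟩
      rw [← T.add a ha b hb, hab]
    · rintro ⟨a, b⟩ hp
      simp only [Finset.mem_filter, mem_adj] at hp ⊢
      rw [T.invol a hp.2.1, T.invol b hp.2.2]
    · rintro ⟨a, b⟩ hp
      simp only [Finset.mem_filter, mem_adj] at hp ⊢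
      rw [T.invol a hp.2.1, T.invol b hp.2.2]
    · rintro ⟨a, b⟩ hp
      simp only [Finset.mem_filter, mem_adj] at hp ⊢
      obtain ⟨hab, ha, hb⟩ := hp
      rw [T.form a ha b hb, Tr_push_mem (T.maps a ha), Tr_push_mem (T.maps b hb), T.invol a ha,
        T.invol b hb]
  · rw [Tr_push_not hn, mul_apply]
    symm
    refine Finset.sum_eq_zero ?_
    rintro ⟨a, b⟩ hp
    simp only [mem_adj] at hp ⊢
    by_cases ha : a ∈ S
    · by_cases hb : b ∈ S
      · exact absurd (hp ▸ S.add_mem ha hb) hn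
      · rw [Tr_push_not hb, mul_zero, mul_zero]
    · rw [Tr_push_not ha, zero_mul, mul_zero]

theorem Tr_pow_deg {x : TS B} (hx : x 0 = 0) : ∀ (j : ℕ) (n : ι → ℕ), deg n < j →
    (x ^ j) n = 0 := by
  intro j
  induction j with
  | zero => intro n hn; exact absurd hn (Nat.not_lt_zero _)
  | succ j ih =>
    intro n hn
    rw [pow_succ, mul_apply]
    refine Finset.sum_eq_zero ?_
    rintro ⟨a, b⟩ hp
    simp only [mem_adj] at hp ⊢
    by_cases hb : b = 0
    · rw [hb, hx, mul_zero, mul_zero]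
    · have h1 : deg b ≠ 0 := fun h => hb (deg_eq_zero.1 h)
      have h2 := deg_add a b
      rw [hp] at h2
      rw [ih a (by omega), zero_mul, mul_zero]

theorem Tr_push_pow (T : Tr B B' S σ) {f : TS B} (hf : SuppIn S f) (j : ℕ) :
    (push B' S σ f) ^ j = push B' S σ (f ^ j) := by
  induction j with
  | zero => rw [pow_zero, pow_zero, Tr_push_one T]
  | succ j ih => rw [pow_succ, pow_succ, ih, Tr_push_mul T (hf.pow j) hf]

theorem Tr_sum_ext {d : ℕ} {c a : ℕ → ℚ} (ha : ∀ j, d < j → a j = 0) {M : ℕ} (hM : d ≤ M) :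
    ∑ j ∈ Finset.Icc 1 d, c j * a j = ∑ j ∈ Finset.Icc 1 M, c j * a j := by
  refine Finset.sum_subset (Finset.Icc_subset_Icc_right hM) fun j hj hj' => ?_
  rw [ha j, mul_zero]
  by_contra h
  exact hj' (Finset.mem_Icc.2 ⟨(Finset.mem_Icc.1 hj).1, by omega⟩)

end

theorem tr_main : FacStm → MidStm → TrStm := by
  intro hFac hMid ι _ _ B B' S σ T
  refine ⟨fun f g hf hg => Tr_push_mul T hf hg, Tr_push_one T, fun f hf => ⟨?_, Tr_push_supp f⟩,
    ?_, ?_⟩
  · rw [Tr_push_mem S.zero_mem, Tr_zero T, hf]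
  · intro m m' hm f hf hfS
    obtain ⟨u, z, w, hu, hz, hw, hfe, hS⟩ := (hFac ι B m).1 f hf
    obtain ⟨huS, hzS, hwS⟩ := hS S hfS
    have hmid : mid m f = z := (hMid ι B m).2.1 f _ _ ((hMid ι B m).1 f hf)
      ⟨hz, u, w, hu, hw, hfe⟩
    have hev : ∀ a ∈ S, ev m' a = ev m (σ a) := by
      intro a ha
      rw [← hm (σ a) (T.maps a ha), T.invol a ha]
    have h0 : (push B' S σ f) 0 = 1 := by rw [Tr_push_mem S.zero_mem, Tr_zero T, hf]
    rw [hmid]
    refine (hMid ι B' m').2.1 (push B' S σ f) _ _ ((hMid ι B' m').1 _ h0) ⟨?_, push B' S σ u,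
      push B' S σ w, ?_, ?_, ?_⟩
    · refine ⟨by rw [Tr_push_mem S.zero_mem, Tr_zero T, hz.1], fun a ha => ?_⟩
      have haS : a ∈ S := Tr_push_supp z a ha
      rw [Tr_push_mem haS] at ha
      rw [hev a haS]
      exact hz.2 _ ha
    · refine ⟨by rw [Tr_push_mem S.zero_mem, Tr_zero T, hu.1], fun a ha0 ha => ?_⟩
      have haS : a ∈ S := Tr_push_supp u a ha
      rw [Tr_push_mem haS] at ha
      rw [hev a haS]
      exact hu.2 _ (fun h => ha0 ((Tr_eq_zero T haS).1 h)) ha
    · refine ⟨by rw [Tr_push_mem S.zero_mem, Tr_zero T, hw.1], fun a ha0 ha => ?_⟩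
      have haS : a ∈ S := Tr_push_supp w a ha
      rw [Tr_push_mem haS] at ha
      rw [hev a haS]
      exact hw.2 _ (fun h => ha0 ((Tr_eq_zero T haS).1 h)) ha
    · rw [hfe, Tr_push_mul T (huS.mul hzS) hwS, Tr_push_mul T huS hzS]
  · intro f hf hfS n hn
    have hx0 : (f - 1) 0 = 0 := by rw [sub_apply, hf, one_apply_zero, sub_self]
    have hy0 : (push B' S σ f - 1) 0 = 0 := by
      rw [sub_apply, Tr_push_mem S.zero_mem, Tr_zero T, hf, one_apply_zero, sub_self]
    have heq : ∀ j : ℕ, ((push B' S σ f - 1 : TS B') ^ j : TS B').co (σ n) =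
        ((f - 1 : TS B) ^ j : TS B).co n := by
      intro j
      have h1 : push B' S σ f - 1 = push B' S σ (f - 1) := by
        rw [Tr_push_sub, Tr_push_one T]
      rw [h1, Tr_push_pow T (hfS.sub SuppIn.one) j, Tr_push_mem (T.maps n hn), T.invol n hn]
    unfold Ln
    rw [Tr_sum_ext (c := fun j => (-1 : ℚ) ^ (j + 1) / j)
        (a := fun j => ((push B' S σ f - 1 : TS B') ^ j : TS B').co (σ n)) (fun j hj => Tr_pow_deg hy0 j _ hj)
        (le_max_left (deg (σ n)) (deg n)),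
      Tr_sum_ext (c := fun j => (-1 : ℚ) ^ (j + 1) / j)
        (a := fun j => ((f - 1 : TS B) ^ j : TS B).co n) (fun j hj => Tr_pow_deg hx0 j _ hj)
        (le_max_right (deg (σ n)) (deg n))]
    refine Finset.sum_congr rfl fun j _ => ?_
    rw [heq j]

end

end Pool.Agent.R60.SC
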