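import Mathlib
import Pool.Agent.R60.SC.Inv
import Pool.Agent.R60.SC.Fac
import Pool.Agent.R60.SC.Mid
import Pool.Agent.R60.SC.Ln
import Pool.Agent.R60.SC.Pal
import Pool.Agent.R60.SC.Psi
import Pool.Agent.R60.SC.Line
import Pool.Agent.R60.SC.LnE
import Pool.Agent.R60.SC.Ex
import Pool.Agent.R60.SC.Ind
import Pool.Agent.R60.SC.Step1
import Pool.Agent.R60.SC.Step2
import Pool.Agent.R60.SC.Tr
import Pool.Agent.R60.SC.Sg
import Pool.Agent.R60.SC.Fin
import Pool.Agent.R60.SC.J
import Pool.Agent.R60.SC.K
import Pool.Agent.R60.SC.M
import Pool.Agent.R60.SC.N

/-!
# Project SC: assembly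

Sign coherence of c-vectors for all skew-symmetric integer matrices, and the mutation invariance
of the unrestricted red size.
-/

namespace Pool.Agent.R60.SC

/-- No coordinate of the image of a positive vector under mutations vanishes. -/
theorem noZero_all : FinStm :=
  fin_main (mid_main inv_main fac_main)
    (ex_main (mid_main inv_main fac_main) (ln_main inv_main) (lne_main psi_main)) inv_main
    (tr_main fac_main (mid_main inv_main fac_main)) sg_main
    (step1_main inv_main (mid_main inv_main fac_main) (ln_main inv_main) (lne_main psi_main)
      pal_main (line_main pal_main psi_main)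
      (ind_main (mid_main inv_main fac_main) (ln_main inv_main)))
    (step2_main (mid_main inv_main fac_main) (ln_main inv_main) (lne_main psi_main) pal_main
      (line_main pal_main psi_main)
      (step1_main inv_main (mid_main inv_main fac_main) (ln_main inv_main) (lne_main psi_main)
        pal_main (line_main pal_main psi_main)
        (ind_main (mid_main inv_main fac_main) (ln_main inv_main)))
      (tr_main fac_main (mid_main inv_main fac_main)) sg_main)

/-- Sign coherence of c-vectors. -/
theorem sign_coherence (ι : Type) [Fintype ι] [DecidableEq ι] (B : ι → ι → ℤ) (hB : Skew B) :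
    Coherent B :=
  j_main ι (noZero_all ι) B hB

/-- The unrestricted red size is invariant under mutation. -/
theorem uRed_mut (V : Type) [Fintype V] [DecidableEq V] (Q : Quiv V) (k : V) :
    uRed (Q.mut (fun _ => false) k) = uRed Q :=
  n_main j_main k_main m_main (fun ι _ _ => noZero_all ι) V Q k

end Pool.Agent.R60.SC
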